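import Pool.Agent.Lib.MP_72e2e6_nt.P3.A2.Spec

/-!
# MP_72e2e6_nt, theorem T3p, part A2, module Act2: the action on `E_m`
-/

namespace Pool.Agent.MP72P

open Finset

private theorem act2_zero {p m : ℕ} [Fact p.Prime] {G : Type} (ω : G → ZMod p)
    (δ : Fin m → G → ZMod p) (g : G) (hδ : ∀ j, δ j g = 0) (f : Finset (Fin m) → ZMod p) :
    rE ω δ g f = fun I => ω g * f I := by
  funext I
  unfold rE
  rw [Finset.sum_eq_single ∅]
  · rw [Finset.prod_empty, one_mul, Finset.sdiff_empty]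
  · intro A _ hA
    obtain ⟨j, hj⟩ := Finset.nonempty_iff_ne_empty.2 hA
    rw [Finset.prod_eq_zero hj (hδ j), zero_mul]
  · intro h
    exact absurd (Finset.empty_mem_powerset I) h

private theorem act2_mul {p m : ℕ} [Fact p.Prime] (a b : Fin m → ZMod p)
    (f : Finset (Fin m) → ZMod p) (I : Finset (Fin m)) :
    ∑ C ∈ I.powerset, (∏ j ∈ C, (a j + b j)) * f (I \ C) =
      ∑ A ∈ I.powerset, (∏ j ∈ A, a j) * ∑ B ∈ (I \ A).powerset, (∏ j ∈ B, b j) * f ((I \ A) \ B) := by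
  simp_rw [Finset.prod_add, Finset.sum_mul, Finset.mul_sum]
  rw [Finset.sum_sigma', Finset.sum_sigma']
  refine Finset.sum_bij' (fun x _ => ⟨x.2, x.1 \ x.2⟩) (fun x _ => ⟨x.1 ∪ x.2, x.1⟩) ?_ ?_ ?_ ?_ ?_
  · rintro ⟨C, A⟩ h
    simp only [Finset.mem_sigma, Finset.mem_powerset] at h ⊢
    exact ⟨h.2.trans h.1, Finset.sdiff_subset_sdiff h.1 (Finset.Subset.refl _)⟩
  · rintro ⟨A, B⟩ h
    simp only [Finset.mem_sigma, Finset.mem_powerset] at h ⊢
    exact ⟨Finset.union_subset h.1 (h.2.trans Finset.sdiff_subset), Finset.subset_union_left⟩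
  · rintro ⟨C, A⟩ h
    simp only [Finset.mem_sigma, Finset.mem_powerset] at h
    simp only [Finset.union_sdiff_of_subset h.2]
  · rintro ⟨A, B⟩ h
    simp only [Finset.mem_sigma, Finset.mem_powerset] at h
    have h1 : (A ∪ B) \ A = B := by
      rw [Finset.union_sdiff_left]
      exact Finset.sdiff_eq_self_of_disjoint
        (Finset.disjoint_of_subset_left h.2 Finset.sdiff_disjoint)
    simp only [h1]
  · rintro ⟨C, A⟩ h
    simp only [Finset.mem_sigma, Finset.mem_powerset] at h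
    have h1 : (I \ A) \ (C \ A) = I \ C := by
      ext j
      simp only [Finset.mem_sdiff]
      constructor
      · rintro ⟨⟨h1, h2⟩, h3⟩
        exact ⟨h1, fun h4 => h3 ⟨h4, h2⟩⟩
      · rintro ⟨h1, h2⟩
        exact ⟨⟨h1, fun h4 => h2 (h.2 h4)⟩, fun h4 => h2 h4.1⟩
    simp only [h1]
    ring

theorem tAct2 : S_Act2 := by
  intro p _ G _ _ _ ω hω m δ hδ
  have hδ1 : ∀ j, δ j 1 = 0 := by
    intro j
    have h := (hδ j).add 1 1
    rw [mul_one] at h
    exact left_eq_add.1 h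
  have hδp : ∀ j g (n : ℕ), δ j (g ^ n) = n * δ j g := by
    intro j g n
    induction n with
    | zero => rw [pow_zero, hδ1, Nat.cast_zero, zero_mul]
    | succ n ih =>
      rw [pow_succ, (hδ j).add, ih]
      push_cast
      ring
  have hωp : ∀ g (n : ℕ), ω (g ^ n) = ω g ^ n := by
    intro g n
    induction n with
    | zero => rw [pow_zero, pow_zero, hω.one]
    | succ n ih => rw [pow_succ, pow_succ, hω.mul, ih]
  refine ⟨?_, ?_, ?_, ?_, ?_⟩
  · intro g x y
    funext I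
    change ω g * ∑ A ∈ I.powerset, (∏ j ∈ A, δ j g) * (x (I \ A) + y (I \ A)) =
      ω g * ∑ A ∈ I.powerset, (∏ j ∈ A, δ j g) * x (I \ A) +
      ω g * ∑ A ∈ I.powerset, (∏ j ∈ A, δ j g) * y (I \ A)
    rw [← mul_add, ← Finset.sum_add_distrib]
    simp_rw [mul_add]
  · intro x
    rw [act2_zero ω δ 1 hδ1 x]
    funext I
    rw [hω.one, one_mul]
  · intro g h x
    funext I
    change ω (g * h) * ∑ C ∈ I.powerset, (∏ j ∈ C, δ j (g * h)) * x (I \ C) =
      ω g * ∑ A ∈ I.powerset, (∏ j ∈ A, δ j g) *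
        (ω h * ∑ B ∈ (I \ A).powerset, (∏ j ∈ B, δ j h) * x ((I \ A) \ B))
    have h1 : ∀ C : Finset (Fin m), ∏ j ∈ C, δ j (g * h) = ∏ j ∈ C, (δ j g + δ j h) :=
      fun C => Finset.prod_congr rfl fun j _ => (hδ j).add g h
    simp_rw [h1]
    rw [act2_mul (fun j => δ j g) (fun j => δ j h) x I, hω.mul, mul_assoc]
    congr 1
    rw [Finset.mul_sum]
    refine Finset.sum_congr rfl fun A _ => ?_
    ring
  · intro x
    rw [IsLocallyConstant.iff_eventually_eq]
    intro g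
    have h1 := (IsLocallyConstant.iff_eventually_eq ω).1 hω.loc g
    have h2 : ∀ᶠ y in nhds g, ∀ j, δ j y = δ j g :=
      Filter.eventually_all.2 fun j => (IsLocallyConstant.iff_eventually_eq (δ j)).1 (hδ j).loc g
    filter_upwards [h1, h2] with y h3 h4
    funext I
    unfold rE
    simp_rw [h3, h4]
  · intro g
    refine ⟨1, fun x => ?_⟩
    rw [pow_one, act2_zero ω δ (g ^ p) (fun j => by
      rw [hδp, CharP.cast_eq_zero, zero_mul]) x]
    funext I
    rw [hωp, Pi.smul_apply, nsmul_eq_mul]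
    push_cast
    rw [ZMod.natCast_zmod_val]

end Pool.Agent.MP72P
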