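import Pool.Agent.Lib.MP_72e2e6_nt.P3.A2.Spec

/-!
# MP_72e2e6_nt, theorem T3p, part A2: the average number of the elements of `Ker` with a
nonconstant reduction (Cnt2)
-/

set_option autoImplicit false

namespace Pool.Agent.MP72P

open Finset

private theorem Cnt2_one {Λ : Type} [CommRing Λ] [Fintype Λ] (e : AddChar Λ ℂ)
    (he : ∀ y : Λ, y ≠ 0 → ∃ x, e (x * y) ≠ 1) (y : Λ) [Decidable (y = 0)] :
    ∑ x : Λ, e (x * y) = if y = 0 then (Fintype.card Λ : ℂ) else 0 := by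
  classical
  have h1 := AddChar.sum_eq_ite (e.compAddMonoidHom (AddMonoidHom.mulRight y))
  simp only [AddChar.compAddMonoidHom_apply, AddMonoidHom.coe_mulRight] at h1
  rw [h1]
  have h2 : (e.compAddMonoidHom (AddMonoidHom.mulRight y) = 0) ↔ y = 0 := by
    constructor
    · intro h
      by_contra hy
      obtain ⟨x, hx⟩ := he y hy
      apply hx
      have h3 := DFunLike.congr_fun h x
      simpa using h3
    · rintro rfl
      ext x
      simp
  by_cases h3 : y = 0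
  · rw [if_pos h3, if_pos (h2.2 h3)]
  · rw [if_neg h3, if_neg (fun h => h3 (h2.1 h))]

private theorem Cnt2_orth {Λ : Type} [CommRing Λ] [Fintype Λ] (e : AddChar Λ ℂ)
    (he : ∀ y : Λ, y ≠ 0 → ∃ x, e (x * y) ≠ 1) {J : Type} [Fintype J] [DecidableEq J]
    (T : J → Λ) [Decidable (∀ j, T j = 0)] :
    ∑ η : J → Λ, e (∑ j, η j * T j) =
      if ∀ j, T j = 0 then ((Fintype.card Λ : ℂ)) ^ Fintype.card J else 0 := by
  classical
  have h1 : ∀ η : J → Λ, e (∑ j, η j * T j) = ∏ j, e (η j * T j) := by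
    intro η
    have key : ∀ s : Finset J, e (∑ j ∈ s, η j * T j) = ∏ j ∈ s, e (η j * T j) := by
      intro s
      induction s using Finset.induction_on with
      | empty => simp
      | insert v s hv ih =>
        rw [Finset.sum_insert hv, Finset.prod_insert hv, AddChar.map_add_eq_mul, ih]
    exact key _
  simp only [h1]
  have h2 := Finset.prod_univ_sum (fun _ : J => (Finset.univ : Finset Λ))
    (fun v x => (e (x * T v) : ℂ))
  rw [Fintype.piFinset_univ] at h2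
  rw [← h2]
  have h3 : ∀ v, ∑ x : Λ, (e (x * T v) : ℂ) =
      if T v = 0 then (Fintype.card Λ : ℂ) else 0 := fun v => Cnt2_one e he (T v)
  simp only [h3]
  split_ifs with h
  · rw [Finset.prod_congr rfl fun v _ => if_pos (h v), Finset.prod_const, Finset.card_univ]
  · push Not at h
    obtain ⟨v, hv⟩ := h
    exact Finset.prod_eq_zero (Finset.mem_univ v) (if_neg hv)

open Classical in
private theorem Cnt2_p (hLrb : S_Lrb) {p : ℕ} [Fact p.Prime] {n : ℕ} (hn : 1 ≤ n) {Λ : Type}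
    [CommRing Λ] [Fintype Λ] {π : Λ} (hL : LR p n π) :
    (Finset.univ.filter fun x : Λ => π * x = 0).card ≤ p := by
  obtain ⟨-, -, -, -, h4, -, h6, -⟩ := hLrb p n Λ π hL
  have hsub : (Finset.univ.filter fun x : Λ => π * x = 0) ⊆
      (Finset.univ : Finset (ZMod p)).image fun c => π ^ (n - 1) * ((c.val : ℕ) : Λ) := by
    intro x hx
    rw [Finset.mem_filter] at hx
    obtain ⟨y, hy⟩ := (h6 1 hn x).1 (by rw [pow_one]; exact hx.2)
    obtain ⟨c, ⟨z, hz⟩, -⟩ := h4 hn y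
    rw [Finset.mem_image]
    refine ⟨c, Finset.mem_univ _, ?_⟩
    have h5 : π ^ (n - 1) * π = 0 := by
      rw [← pow_succ, Nat.sub_add_cancel hn, hL.nil]
    rw [hy, hz]
    linear_combination (-z) * h5
  refine (Finset.card_le_card hsub).trans (Finset.card_image_le.trans ?_)
  rw [Finset.card_univ, ZMod.card]

open Classical in
private theorem Cnt2_pi (hLrb : S_Lrb) {p : ℕ} [Fact p.Prime] {n : ℕ} (hn : 1 ≤ n) {Λ : Type}
    [CommRing Λ] [Fintype Λ] {π : Λ} (hL : LR p n π) (J : Type) [Fintype J] [DecidableEq J] :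
    (Finset.univ.filter fun η : J → Λ => ∀ v, π * η v = 0).card ≤ p ^ Fintype.card J := by
  have h1 : (Finset.univ.filter fun η : J → Λ => ∀ v, π * η v = 0) =
      Fintype.piFinset fun _ : J => Finset.univ.filter fun x : Λ => π * x = 0 := by
    ext η
    simp [Fintype.mem_piFinset]
  rw [h1, Fintype.card_piFinset, Finset.prod_const, Finset.card_univ]
  exact Nat.pow_le_pow_left (Cnt2_p hLrb hn hL) _

/-- The twisted characters. -/
private theorem Cnt2_chr (hAct : S_Act) {p : ℕ} [Fact p.Prime] {G : Type} [Group G]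
    [TopologicalSpace G] [IsTopologicalGroup G] {n : ℕ} {Λ : Type} [CommRing Λ] {π : Λ}
    (hL : LR p n π) {ω : G → ZMod p} (hω : ChO p ω) {ψ : G → Λ} (hψ : Chr π ω ψ)
    {h : G → ZMod p} (hh : HomP p h) : Chr π ω (tw π ψ h) := by
  have h1 := (((hAct p n Λ π hL G ω hω ψ hψ).2 1 (fun _ => h) (fun _ => hh)).2).2
  have h2 : (fun g => ∑ _i : Fin 1, h g) = h := by
    funext g
    rw [Fin.sum_univ_one]
  rwa [h2] at h1

private theorem Cnt2_co {G S : Type} {d p : ℕ} (T : Tst G S d) {Λ : Type} [CommRing Λ] (π : Λ)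
    (z : (G → Λ) × (S → Λ)) (k : Fin (d + 1)) :
    T.co ((fun g => rs π (z.1 g), fun w => rs π (z.2 w)) : (G → ZMod p) × (S → ZMod p)) k =
      rs π (T.co z k) := by
  unfold Tst.co
  rcases T.y k with g | w
  · rfl
  · rfl

theorem tCnt2 (hLrb : S_Lrb) (hLrx : S_Lrx) (_ : S_Uni2) (_ : S_Lvl) (hAct : S_Act)
    (hLin : S_Lin2) (hEqN : S_EqN2) : S_Cnt2 := by
  intro p _ G _ _ _ S X _ d A T N0 hA n Λ _ π hn hL ψ hψ ε hε
  classical
  have hfinΛ : Finite Λ := (hLrb p n Λ π hL).1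
  have _ := Fintype.ofFinite Λ
  obtain ⟨⟨e, he⟩, hx⟩ := hLrx p n Λ π hL hn
  obtain ⟨hne, hnorm, -, -⟩ := hx e he
  obtain ⟨N, hN⟩ : ∃ N : ℕ, N = Fintype.card Λ := ⟨_, rfl⟩
  have hNp : (N : ℝ) = (p : ℝ) ^ n := by
    rw [hN, ← Nat.card_eq_fintype_card, hL.card]
    push_cast
    rfl
  set ε' : ℝ := ε / (N : ℝ) ^ (d + 1) with hε'
  have hNpos : (0 : ℝ) < (N : ℝ) := by
    rw [hN]
    exact_mod_cast Fintype.card_pos
  have hε'pos : 0 < ε' := by positivity
  let NCp : (Fin (d + 1) → Λ) → Prop := fun y =>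
    ∃ z ∈ Ker (fun g (x : ZMod p) => A.ω g * x) A.D,
      ¬ IsCs (fun g (x : ZMod p) => A.ω g * x) z ∧ ∀ k, rs π (y k) = T.co z k
  -- the bound for each pair
  have key : ∀ (y : Fin (d + 1) → Λ) (η : Fin d → Λ), ∃ e₀ : ℕ,
      NCp y → (∃ j, π * η j ≠ 0) →
      ∀ 𝒟 : AddSubgroup X, (𝒟 : Set X).Finite → A.F e₀ ≤ 𝒟 →
        ‖∑ᶠ D ∈ (𝒟 : Set X), e (∑ j, η j * Ts T (rL (tw π ψ (A.h D))) y j)‖ ≤
          ε' * Nat.card 𝒟 := by
    intro y η
    by_cases ha : NCp y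
    · by_cases hη : ∃ j, π * η j ≠ 0
      · obtain ⟨z, hz, hc, hy⟩ := ha
        obtain ⟨e₀, he₀⟩ := hEqN p G S X d A T N0 hA z hz hc n Λ π hn hL ψ hψ y hy η hη e he
          ε' hε'pos
        exact ⟨e₀, fun _ _ => he₀⟩
      · exact ⟨0, fun _ h => absurd h hη⟩
    · exact ⟨0, fun h => absurd h ha⟩
  choose E₀ hE₀ using key
  refine ⟨Finset.univ.sup fun q : (Fin (d + 1) → Λ) × (Fin d → Λ) => E₀ q.1 q.2, ?_⟩
  intro 𝒟' hfin hle𝒟
  set 𝒟 : Finset X := hfin.toFinset with h𝒟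
  have hcard : (Nat.card 𝒟' : ℝ) = 𝒟.card := by
    have : Nat.card 𝒟' = (𝒟' : Set X).ncard := Nat.card_coe_set_eq _
    rw [this, Set.ncard_eq_toFinset_card _ hfin]
  let NC : Finset (Fin (d + 1) → Λ) := Finset.univ.filter NCp
  let TT : X → (Fin (d + 1) → Λ) → Fin d → Λ := fun D y j => Ts T (rL (tw π ψ (A.h D))) y j
  have hcnt : ∀ D : X, ({z : (G → Λ) × (S → Λ) | z ∈ Ker (rL (tw π ψ (A.h D))) A.D ∧
            ¬ IsCs (fun g (x : ZMod p) => A.ω g * x)
              ((fun g => rs π (z.1 g), fun w => rs π (z.2 w)) :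
                (G → ZMod p) × (S → ZMod p))}.ncard : ℝ) ≤
      ∑ y ∈ NC, if ∀ v, TT D y v = 0 then (1 : ℝ) else 0 := by
    intro D
    rw [← Finset.sum_filter, Finset.sum_const, nsmul_eq_mul, mul_one]
    have hχ : Chr π A.ω (tw π ψ (A.h D)) := Cnt2_chr hAct hL hA.om hψ (hA.hom D)
    obtain ⟨-, -, -, -, -, -, -, hbij, hred⟩ := hLin p G S d A.ω A.D T hA.om hA.h2 hA.ok n Λ π hL
      (tw π ψ (A.h D)) hχ
    have h1 : {z : (G → Λ) × (S → Λ) | z ∈ Ker (rL (tw π ψ (A.h D))) A.D ∧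
            ¬ IsCs (fun g (x : ZMod p) => A.ω g * x)
              ((fun g => rs π (z.1 g), fun w => rs π (z.2 w)) :
                (G → ZMod p) × (S → ZMod p))}.ncard ≤
        (↑(NC.filter fun y => ∀ v, TT D y v = 0) : Set (Fin (d + 1) → Λ)).ncard := by
      refine Set.ncard_le_ncard_of_injOn (fun z : (G → Λ) × (S → Λ) => (T.co z : Fin (d + 1) → Λ))
        ?_ ?_ (Finset.finite_toSet _)
      · rintro z ⟨hz, hz'⟩
        rw [Finset.mem_coe, Finset.mem_filter, Finset.mem_filter]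
        refine ⟨⟨Finset.mem_univ _, _, hred hn z hz, hz', fun k => ?_⟩, hbij.mapsTo hz⟩
        exact (Cnt2_co T π z k).symm
      · intro z hz z' hz' h
        exact hbij.injOn hz.1 hz'.1 h
    rw [Set.ncard_coe_finset] at h1
    exact_mod_cast h1
  rw [finsum_mem_eq_finite_toFinset_sum _ hfin, hcard]
  refine (Finset.sum_le_sum fun D _ => hcnt D).trans ?_
  -- the double sum
  have horth : ∀ D y, (if ∀ v, TT D y v = 0 then (1 : ℂ) else 0) * (N : ℂ) ^ d =
      ∑ η : Fin d → Λ, e (∑ v, η v * TT D y v) := by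
    intro D y
    rw [Cnt2_orth e hne (TT D y)]
    split_ifs
    · rw [one_mul, hN, Fintype.card_fin]
    · rw [zero_mul]
  have hsum : ((∑ D ∈ 𝒟, ∑ y ∈ NC, if ∀ v, TT D y v = 0 then (1 : ℝ) else 0 : ℝ) : ℂ) *
      (N : ℂ) ^ d = ∑ y ∈ NC, ∑ η : Fin d → Λ, ∑ D ∈ 𝒟, e (∑ v, η v * TT D y v) := by
    push_cast
    rw [Finset.sum_mul]
    have : ∀ D ∈ 𝒟, (∑ y ∈ NC, (((if ∀ v, TT D y v = 0 then (1 : ℝ) else 0 : ℝ)) : ℂ)) *
        (N : ℂ) ^ d = ∑ y ∈ NC, ∑ η : Fin d → Λ, e (∑ v, η v * TT D y v) := by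
      intro D _
      rw [Finset.sum_mul]
      refine Finset.sum_congr rfl fun y _ => ?_
      rw [← horth]
      congr 1
      split_ifs <;> simp
    rw [Finset.sum_congr rfl this, Finset.sum_comm]
    refine Finset.sum_congr rfl fun y _ => ?_
    rw [Finset.sum_comm]
  have hbd : ∀ y ∈ NC, ∀ η : Fin d → Λ,
      ‖∑ D ∈ 𝒟, e (∑ v, η v * TT D y v)‖ ≤
        (if ∀ v, π * η v = 0 then (𝒟.card : ℝ) else 0) + ε' * 𝒟.card := by
    intro y hy η
    by_cases hη : ∀ v, π * η v = 0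
    · rw [if_pos hη]
      have h1 : ‖∑ D ∈ 𝒟, e (∑ v, η v * TT D y v)‖ ≤ (𝒟.card : ℝ) := by
        refine (norm_sum_le _ _).trans ?_
        rw [Finset.sum_congr rfl fun D _ => hnorm _, Finset.sum_const,
          nsmul_eq_mul, mul_one]
      have h2 : 0 ≤ ε' * (𝒟.card : ℝ) := by positivity
      linarith
    · rw [if_neg hη, zero_add]
      push Not at hη
      have hle : A.F (E₀ y η) ≤ 𝒟' :=
        (hA.mono (Finset.le_sup (f := fun q : (Fin (d + 1) → Λ) × (Fin d → Λ) =>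
          E₀ q.1 q.2) (Finset.mem_univ (y, η)))).trans hle𝒟
      have h := hE₀ y η (Finset.mem_filter.1 hy).2 hη 𝒟' hfin hle
      rw [finsum_mem_eq_finite_toFinset_sum _ hfin, hcard] at h
      exact h
  set SS : ℝ := ∑ D ∈ 𝒟, ∑ y ∈ NC, if ∀ v, TT D y v = 0 then (1 : ℝ) else 0 with hSS
  have hS0 : 0 ≤ SS := by
    refine Finset.sum_nonneg fun D _ => Finset.sum_nonneg fun y _ => ?_
    split_ifs <;> norm_num
  have hSN : SS * (N : ℝ) ^ d ≤ (NC.card : ℝ) * ((p : ℝ) ^ d * 𝒟.card +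
      (N : ℝ) ^ d * (ε' * 𝒟.card)) := by
    have h1 : SS * (N : ℝ) ^ d = ‖(SS : ℂ) * (N : ℂ) ^ d‖ := by
      rw [norm_mul, norm_pow, Complex.norm_real, Complex.norm_natCast, Real.norm_eq_abs,
        abs_of_nonneg hS0]
    rw [h1, hsum]
    refine (norm_sum_le _ _).trans ?_
    rw [← nsmul_eq_mul, ← Finset.sum_const]
    refine Finset.sum_le_sum fun y hy => ?_
    refine (norm_sum_le _ _).trans ?_
    refine (Finset.sum_le_sum fun η _ => hbd y hy η).trans ?_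
    rw [Finset.sum_add_distrib, Finset.sum_const, nsmul_eq_mul, ← Finset.sum_filter,
      Finset.sum_const, nsmul_eq_mul]
    have h2 : ((Finset.univ : Finset (Fin d → Λ)).card : ℝ) = (N : ℝ) ^ d := by
      rw [Finset.card_univ, Fintype.card_fun, hN, Fintype.card_fin]
      push_cast
      rfl
    have h3 : ((Finset.univ.filter fun η : Fin d → Λ => ∀ v, π * η v = 0).card : ℝ) ≤
        (p : ℝ) ^ d := by
      have h := Cnt2_pi hLrb hn hL (Fin d)
      rw [Fintype.card_fin] at h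
      exact_mod_cast h
    rw [h2]
    have h4 : (0 : ℝ) ≤ 𝒟.card := Nat.cast_nonneg _
    exact add_le_add (mul_le_mul_of_nonneg_right h3 h4) le_rfl
  have hNC : (NC.card : ℝ) ≤ (N : ℝ) ^ (d + 1) := by
    have h1 : NC.card ≤ Fintype.card (Fin (d + 1) → Λ) := Finset.card_le_univ _
    rw [Fintype.card_fun, Fintype.card_fin, ← hN] at h1
    exact_mod_cast h1
  have hfinal : SS * (N : ℝ) ^ d ≤ ((p ^ (n + d) + ε) * 𝒟.card) * (N : ℝ) ^ d := by
    refine hSN.trans ?_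
    have h4 : (0 : ℝ) ≤ 𝒟.card := Nat.cast_nonneg _
    have h5 : 0 ≤ (p : ℝ) ^ d * 𝒟.card + (N : ℝ) ^ d * (ε' * 𝒟.card) := by positivity
    refine (mul_le_mul_of_nonneg_right hNC h5).trans (le_of_eq ?_)
    have h7 : (N : ℝ) ^ (d + 1) * ε' = ε := by
      rw [hε']
      field_simp
    calc (N : ℝ) ^ (d + 1) * (p ^ d * 𝒟.card + (N : ℝ) ^ d * (ε' * 𝒟.card))
        = (N : ℝ) ^ d * ((N : ℝ) * p ^ d * 𝒟.card + ((N : ℝ) ^ (d + 1) * ε') * 𝒟.card) := by
          ring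
      _ = _ := by
        rw [h7, hNp]
        ring
  exact le_of_mul_le_mul_right hfinal (by positivity)

end Pool.Agent.MP72P
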