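import Pool.Agent.Lib.MP_72e2e6_nt.P3.A.Defs

/-!
# MP_72e2e6_nt, theorem T3p, part A2 (abstract part, second version): definitions

`p` is a prime, `G` a profinite group, `S` a finite set (of places), `ω : G → ZMod p` a character with
values different from `0`, `D w`, `w ∈ S`, subgroups of `G`. For a `G`-module `M` (operators
`ρ g : M → M`) we consider the pairs `z = (c, a)`, `c : G → M` a (locally constant) crossed homomorphism,
`a : S → M`, and the functions `psi ρ z w g = c g - (a w - ρ g (a w))` on `D w`.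
-/

namespace Pool.Agent.MP72P

open Finset

/-- The local part of the pair `z = (c, a)` at `(w, g)`. -/
def psi {G S M : Type*} [AddCommGroup M] (ρ : G → M → M) (z : (G → M) × (S → M)) (w : S) (g : G) :
    M :=
  z.1 g - (z.2 w - ρ g (z.2 w))

/-- The same with an optional place. -/
def psO {G S M : Type*} [AddCommGroup M] (ρ : G → M → M) (z : (G → M) × (S → M)) (o : Option S)
    (g : G) : M :=
  z.1 g - o.elim 0 (fun s => z.2 s - ρ g (z.2 s))

/-- The pairs whose local parts vanish. -/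
def Ker {G S M : Type*} [Group G] [TopologicalSpace G] [AddCommGroup M] (ρ : G → M → M)
    (D : S → Subgroup G) : Set ((G → M) × (S → M)) :=
  {z | Coc ρ z.1 ∧ ∀ w, ∀ g ∈ D w, psi ρ z w g = 0}

/-- The constant pairs. -/
def IsCs {G S M : Type*} [AddCommGroup M] (ρ : G → M → M) (z : (G → M) × (S → M)) : Prop :=
  ∃ b, (∀ g, z.1 g = b - ρ g b) ∧ ∀ w, z.2 w = b

/-- A test system: tests `t i` at the places `w i`, extra tests `e j` at the places `u j`, and
coordinates (values of `c` or of `a`). -/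
structure Tst (G S : Type) (d : ℕ) where
  I : Type
  w : I → S
  t : I → G
  u : Fin d → S
  e : Fin d → G
  y : Fin (d + 1) → G ⊕ S

/-- The coordinates of a pair. -/
def Tst.co {G S : Type} {d : ℕ} (T : Tst G S d) {M : Type*} (z : (G → M) × (S → M))
    (k : Fin (d + 1)) : M :=
  Sum.elim z.1 z.2 (T.y k)

/-- The axioms for test systems. -/
structure Tst.Ok (p : ℕ) {G S : Type} [Group G] [TopologicalSpace G] {d : ℕ} (ω : G → ZMod p)
    (D : S → Subgroup G) (T : Tst G S d) : Prop where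
  ti : ∀ i, T.t i ∈ D (T.w i)
  ej : ∀ j, T.e j ∈ D (T.u j)
  conv : ∀ N : Set G, IsOpen N → 1 ∈ N → {i | T.t i ∉ N}.Finite
  ue : ∀ v : T.I → ZMod p, {i | v i ≠ 0}.Finite → ∀ c : Fin (d + 1) → ZMod p,
    ∃! z : (G → ZMod p) × (S → ZMod p), Coc (fun g (x : ZMod p) => ω g * x) z.1 ∧
      (∀ i, psi (fun g (x : ZMod p) => ω g * x) z (T.w i) (T.t i) = v i) ∧ ∀ k, T.co z k = c k
  t0 : ∀ z : (G → ZMod p) × (S → ZMod p), Coc (fun g (x : ZMod p) => ω g * x) z.1 →
    (∀ i, psi (fun g (x : ZMod p) => ω g * x) z (T.w i) (T.t i) = 0) →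
      ∀ j, psi (fun g (x : ZMod p) => ω g * x) z (T.u j) (T.e j) = 0
  det : ∀ (w : S) (f : D w → ZMod p), Coc (fun (g : D w) (x : ZMod p) => ω g * x) f →
    (∀ (i : T.I) (g : D w), T.w i = w → (g : G) = T.t i → f g = 0) →
    (∀ (j : Fin d) (g : D w), T.u j = w → (g : G) = T.e j → f g = 0) → f = 0

section Z

variable {G S : Type} [Group G] [TopologicalSpace G] {d : ℕ} {M : Type*} [AddCommGroup M]

/-- `z` is the pair with the tests `0` and the coordinates `y`. -/
structure IsS (T : Tst G S d) (ρ : G → M → M) (y : Fin (d + 1) → M) (z : (G → M) × (S → M)) :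
    Prop where
  coc : Coc ρ z.1
  ts : ∀ i, psi ρ z (T.w i) (T.t i) = 0
  co : ∀ k, T.co z k = y k

open Classical in
/-- The pair with the tests `0` and the coordinates `y`. -/
noncomputable def Zs (T : Tst G S d) (ρ : G → M → M) (y : Fin (d + 1) → M) :
    (G → M) × (S → M) :=
  if h : ∃ z, IsS T ρ y z then h.choose else 0

/-- The extra tests of the pair with the tests `0` and the coordinates `y`. -/
noncomputable def Ts (T : Tst G S d) (ρ : G → M → M) (y : Fin (d + 1) → M) (j : Fin d) : M :=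
  psi ρ (Zs T ρ y) (T.u j) (T.e j)

end Z

/-- The action of `G` on `Λ` by a character. -/
def rL {G Λ : Type*} [CommRing Λ] (χ : G → Λ) (g : G) (x : Λ) : Λ := χ g * x

/-- The action of `G` on `E_m = F_p[t_j] / (t_j ^ 2)` (functions on the set of the subsets of `Fin m`):
`g` acts as the multiplication by `ω g * ∏ (1 + δ_j g * t_j)`. -/
def rE {p m : ℕ} {G : Type*} (ω : G → ZMod p) (δ : Fin m → G → ZMod p) (g : G)
    (f : Finset (Fin m) → ZMod p) : Finset (Fin m) → ZMod p :=
  fun I => ω g * ∑ A ∈ I.powerset, (∏ j ∈ A, δ j g) * f (I \ A)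

/-- The data: a character `ω`, subgroups `D w`, homomorphisms `h x`, `x ∈ X`, finite subgroups `F e`
of `X`, and a subgroup `B` of `X` (the directions which are used). -/
structure Fm (p : ℕ) (G S X : Type) [Group G] [AddCommGroup X] where
  ω : G → ZMod p
  D : S → Subgroup G
  h : X → G → ZMod p
  F : ℕ → AddSubgroup X
  B : AddSubgroup X

/-- Nondegeneracy for the class `z`: for all directions `δ` in `B` which are independent modulo `N0` the last
coefficient of the extra tests of the `E_(m+1)`-valued pair with the coordinates of `z` is a nonzero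
function of the first direction `x`. -/
def Nd {p d : ℕ} {G S X : Type} [Group G] [TopologicalSpace G] [AddCommGroup X]
    (A : Fm p G S X) (T : Tst G S d) (N0 : AddSubgroup X) (z : (G → ZMod p) × (S → ZMod p)) : Prop :=
  ∀ (m : ℕ) (δ : Fin m → X), (∀ i, δ i ∈ A.B) →
    (∀ c : Fin m → ZMod p, ∑ i, (c i).val • δ i ∈ N0 → c = 0) →
    ∀ η : Fin d → ZMod p, η ≠ 0 → ∃ x : X,
      ∀ ζ : (G → Finset (Fin (m + 1)) → ZMod p) × (S → Finset (Fin (m + 1)) → ZMod p),
        Coc (rE A.ω fun i => A.h ((Fin.cons x δ : Fin (m + 1) → X) i)) ζ.1 →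
        (∀ i, psi (rE A.ω fun i => A.h ((Fin.cons x δ : Fin (m + 1) → X) i)) ζ (T.w i) (T.t i) = 0) →
        (∀ k I, T.co ζ k I = if I = ∅ then T.co z k else 0) →
        ∑ j, η j * psi (rE A.ω fun i => A.h ((Fin.cons x δ : Fin (m + 1) → X) i)) ζ (T.u j) (T.e j)
          Finset.univ ≠ 0

/-- The axioms. -/
structure Fm.Good {p d : ℕ} {G S X : Type} [Group G] [TopologicalSpace G] [AddCommGroup X]
    (A : Fm p G S X) (T : Tst G S d) (N0 : AddSubgroup X) : Prop where
  om : ChO p A.ω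
  hom : ∀ x, HomP p (A.h x)
  add : ∀ x y g, A.h (x + y) g = A.h x g + A.h y g
  h2 : H2Z p A.ω
  fin : ∀ e, (A.F e : Set X).Finite
  mono : Monotone A.F
  exh : ∀ x, ∃ e, x ∈ A.F e
  ok : T.Ok p A.ω A.D
  pn : ∀ x, p • x ∈ N0
  big : ∀ C : ℕ, ∃ e, C * {x | x ∈ A.F e ∧ x ∈ A.B ∧ x ∈ N0}.ncard ≤ {x | x ∈ A.F e ∧ x ∈ A.B}.ncard
  nd : ∀ z ∈ Ker (fun g (x : ZMod p) => A.ω g * x) A.D,
    ¬ IsCs (fun g (x : ZMod p) => A.ω g * x) z → Nd A T N0 z

end Pool.Agent.MP72P
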