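import Pool.Agent.Lib.MP_72e2e6_nt.P3.A2.Spec

/-!
# MP_72e2e6_nt, theorem T3p, part A2: the derivative of `Ts`
-/

set_option autoImplicit false

namespace Pool.Agent.MP72P

open Finset

section cube

private theorem der2Cube {R : Type} [CommRing R] {k : ℕ} (F : Fin k → Bool → R) :
    ∑ c : Fin k → Bool, ∏ j, F j (c j) = ∏ j, (F j false + F j true) := by
  have h : ∀ j, F j false + F j true = ∑ c : Bool, F j c := fun j => by
    rw [Fintype.sum_bool, add_comm]
  simp only [h]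
  rw [Finset.prod_univ_sum, Fintype.piFinset_univ]

variable {p : ℕ} {Λ : Type} [CommRing Λ] {π : Λ}

private theorem der2Zsum (h0 : zt π (0 : ZMod p) = 1)
    (hadd : ∀ a b : ZMod p, zt π (a + b) = zt π a * zt π b) {α : Type} (s : Finset α)
    (f : α → ZMod p) : zt π (∑ i ∈ s, f i) = ∏ i ∈ s, zt π (f i) := by
  classical
  induction s using Finset.induction_on with
  | empty => rw [Finset.sum_empty, Finset.prod_empty, h0]
  | insert a s ha ih => rw [Finset.sum_insert ha, Finset.prod_insert ha, hadd, ih]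

/-- the sum over the cube of the signs -/
private theorem der2Cube2 (h0 : zt π (0 : ZMod p) = 1)
    (hadd : ∀ a b : ZMod p, zt π (a + b) = zt π a * zt π b) {k : ℕ} (τ : Fin k → ZMod p) :
    ∑ c : Fin k → Bool, ((∏ i, sb (c i) : ℤ) : Λ) * zt π (∑ i, if c i then τ i else 0) =
      ∏ i, (1 - zt π (τ i)) := by
  have h : ∀ c : Fin k → Bool, ((∏ i, sb (c i) : ℤ) : Λ) * zt π (∑ i, if c i then τ i else 0) =
      ∏ i, (((sb (c i) : ℤ) : Λ) * zt π (if c i then τ i else 0)) := by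
    intro c
    rw [der2Zsum h0 hadd, Int.cast_prod, Finset.prod_mul_distrib]
  simp only [h]
  rw [der2Cube fun i b => ((sb b : ℤ) : Λ) * zt π (if b then τ i else 0)]
  refine Finset.prod_congr rfl fun i _ => ?_
  rw [show sb false = 1 from rfl, show sb true = -1 from rfl, if_neg Bool.false_ne_true,
    if_pos rfl, h0, Int.cast_neg, Int.cast_one]
  ring

private theorem der2Prod {α : Type} (s : Finset α) (x y : α → Λ) :
    ∃ z, ∏ i ∈ s, (x i + π * y i) = ∏ i ∈ s, x i + π * z := by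
  classical
  induction s using Finset.induction_on with
  | empty => exact ⟨0, by rw [Finset.prod_empty, Finset.prod_empty, mul_zero, add_zero]⟩
  | insert a s ha ih =>
    obtain ⟨z, hz⟩ := ih
    refine ⟨y a * (∏ i ∈ s, x i + π * z) + x a * z, ?_⟩
    rw [Finset.prod_insert ha, Finset.prod_insert ha, hz]
    ring

private theorem der2PiProd {k : ℕ} (hπ : π ^ (k + 1) = 0)
    (h9 : ∀ c : ZMod p, ∃ y, 1 - zt π c = ((c.val : ℕ) : Λ) * π + π ^ 2 * y)
    (τ : Fin k → ZMod p) :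
    ∏ i, (1 - zt π (τ i)) = π ^ k * ∏ i, (((τ i).val : ℕ) : Λ) := by
  choose y hy using h9
  have e : ∀ i, 1 - zt π (τ i) = π * ((((τ i).val : ℕ) : Λ) + π * y (τ i)) := fun i => by
    rw [hy]
    ring
  simp only [e]
  rw [Finset.prod_mul_distrib, Finset.prod_const, Finset.card_univ, Fintype.card_fin]
  obtain ⟨z, hz⟩ := der2Prod (π := π) Finset.univ (fun i => (((τ i).val : ℕ) : Λ))
    fun i => y (τ i)
  rw [hz]
  have : π ^ k * (∏ i, (((τ i).val : ℕ) : Λ) + π * z) =
      π ^ k * ∏ i, (((τ i).val : ℕ) : Λ) + π ^ (k + 1) * z := by ring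
  rw [this, hπ, zero_mul, add_zero]

end cube

/-- The function supported at `0`. -/
private def der2Dl {p k : ℕ} {Λ : Type} [Zero Λ] (c : Λ) : (Fin k → ZMod p) → Λ :=
  fun τ => if τ = 0 then c else 0

section fou

variable {p : ℕ} [Fact p.Prime] {Λ : Type} [CommRing Λ] {π : Λ} {k : ℕ}

private theorem der2Shift (hadd : ∀ a b : ZMod p, zt π (a + b) = zt π a * zt π b) (ψg : Λ)
    (d : Fin k → ZMod p) (f : (Fin k → ZMod p) → Λ) (c : Fin k → Bool) :
    ∑ τ : Fin k → ZMod p, zt π (∑ i, if c i then τ i else 0) *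
      (ψg * f (fun i => τ i - d i)) =
      ψg * zt π (∑ i, if c i then d i else 0) *
        ∑ τ : Fin k → ZMod p, zt π (∑ i, if c i then τ i else 0) * f τ := by
  rw [← Equiv.sum_comp (Equiv.addRight d)
    fun τ : Fin k → ZMod p => zt π (∑ i, if c i then τ i else 0) *
      (ψg * f (fun i => τ i - d i)), Finset.mul_sum]
  refine Finset.sum_congr rfl fun τ _ => ?_
  have e1 : (fun i => (Equiv.addRight d) τ i - d i) = τ := by
    funext i
    show τ i + d i - d i = τ i
    rw [add_sub_cancel_right]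
  have e2 : (∑ i, if c i then (Equiv.addRight d) τ i else 0) =
      (∑ i, if c i then τ i else 0) + ∑ i, if c i then d i else 0 := by
    rw [← Finset.sum_add_distrib]
    refine Finset.sum_congr rfl fun i _ => ?_
    show (if c i then τ i + d i else 0) = (if c i then τ i else 0) + if c i then d i else 0
    split_ifs
    · rfl
    · rw [add_zero]
  rw [e1, e2, hadd]
  ring

end fou

private theorem der2HomIf {p : ℕ} {G : Type} [Group G] [TopologicalSpace G] {h : G → ZMod p}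
    (hh : HomP p h) (b : Bool) : HomP p (fun g => if b then h g else 0) := by
  cases b
  · exact ⟨IsLocallyConstant.const _, fun x y => by simp⟩
  · simpa using hh

section tr

variable {G S M M' : Type} [Group G] [TopologicalSpace G] [AddCommGroup M] [AddCommGroup M']
  {ρ : G → M → M} {ρ' : G → M' → M'} (φ : M →+ M')

/-- The image of a pair. -/
private def der2Im (z : (G → M) × (S → M)) : (G → M') × (S → M') :=
  (fun g => φ (z.1 g), fun w => φ (z.2 w))

omit [Group G] [TopologicalSpace G] in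
private theorem der2Psi (hφ : ∀ g x, φ (ρ g x) = ρ' g (φ x)) (z : (G → M) × (S → M)) (w : S)
    (g : G) : psi ρ' (der2Im φ z) w g = φ (psi ρ z w g) := by
  show φ (z.1 g) - (φ (z.2 w) - ρ' g (φ (z.2 w))) = φ (z.1 g - (z.2 w - ρ g (z.2 w)))
  rw [map_sub, map_sub, hφ]

omit [Group G] [TopologicalSpace G] in
private theorem der2Co {d : ℕ} (T : Tst G S d) (z : (G → M) × (S → M)) (k : Fin (d + 1)) :
    T.co (der2Im φ z) k = φ (T.co z k) := by
  unfold Tst.co
  cases T.y k with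
  | inl g => rfl
  | inr w => rfl

private theorem der2Coc (hφ : ∀ g x, φ (ρ g x) = ρ' g (φ x)) {z : (G → M) × (S → M)}
    (h : Coc ρ z.1) : Coc ρ' (der2Im φ z).1 := by
  refine ⟨h.loc.comp φ, fun a b => ?_⟩
  show φ (z.1 (a * b)) = φ (z.1 a) + ρ' a (φ (z.1 b))
  rw [h.mul, map_add, hφ]

end tr

theorem tDer2 : S_Lrb → S_Uni2 → S_Act → S_Act2 → S_Lin2 → S_Der2 := by
  classical
  intro hL hUni hA hA2 hLin p _ G _ _ _ S d ω D T hω hH hT m Λ _ π hR ψ hψ δ hδ y ζ hζc hζt hζk j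
  obtain ⟨hfin, -, ⟨h0, hadd⟩, -, -, hrs, -, -, h9, h10⟩ := hL p (m + 2) Λ π hR
  obtain ⟨r1, r2, r3, r4, r5, r6⟩ := hrs (by omega)
  have hπ0 : ∀ y, rs (p := p) π (π * y) = 0 := fun y => (r4 _).2 ⟨y, rfl⟩
  have hz0 : rs (p := p) π (0 : Λ) = 0 := (r4 0).2 ⟨0, (mul_zero π).symm⟩
  have hrsum : ∀ {α : Type} (s : Finset α) (f : α → Λ),
      rs (p := p) π (∑ i ∈ s, f i) = ∑ i ∈ s, rs π (f i) := by
    intro α s f
    induction s using Finset.induction_on with
    | empty => rw [Finset.sum_empty, Finset.sum_empty, hz0]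
    | insert a s ha ih => rw [Finset.sum_insert ha, Finset.sum_insert ha, r1, ih]
  have hψr : ∀ g, rs (p := p) π (ψ g) = ω g := by
    intro g
    obtain ⟨y, hy⟩ := hψ.red g
    rw [hy, r1, hπ0, add_zero, r5, ZMod.natCast_zmod_val]
  -- the pair of functions on the cube
  have hρ := ((hA p (m + 2) Λ π hR G ω hω ψ hψ).2 (m + 1) δ hδ).1
  have hcard : Nat.card ((Fin (m + 1) → ZMod p) → Λ) = p ^ ((m + 2) * p ^ (m + 1)) := by
    rw [Nat.card_fun, hR.card, Nat.card_fun, Nat.card_zmod, Nat.card_fin, pow_mul]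
  obtain ⟨Z, ⟨hZc, hZt, hZk⟩, -⟩ := (hUni p G S d ω D T hω hH hT
    ((Fin (m + 1) → ZMod p) → Λ) _ hcard _ hρ).1 (fun _ => 0) (by simp) fun k => der2Dl (y k)
  obtain ⟨F, hF⟩ : ∃ F, F = psi (fun g (f : (Fin (m + 1) → ZMod p) → Λ) τ =>
    ψ g * f (fun i => τ i - δ i g)) Z (T.u j) (T.e j) := ⟨_, rfl⟩
  -- (a)
  have hTs : ∀ c : Fin (m + 1) → Bool,
      Ts T (rL (tw π ψ (fun g => ∑ i, if c i then δ i g else 0))) y j =
        ∑ τ : Fin (m + 1) → ZMod p, zt π (∑ i, if c i then τ i else 0) * F τ := by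
    intro c
    have hχ : Chr π ω (tw π ψ (fun g => ∑ i, if c i then δ i g else 0)) :=
      ((hA p (m + 2) Λ π hR G ω hω ψ hψ).2 (m + 1) (fun i g => if c i then δ i g else 0)
        fun i => der2HomIf (hδ i) (c i)).2.2
    let φ : ((Fin (m + 1) → ZMod p) → Λ) →+ Λ := AddMonoidHom.mk'
      (fun f => ∑ τ : Fin (m + 1) → ZMod p, zt π (∑ i, if c i then τ i else 0) * f τ) (by
        intro f f'
        simp only [Pi.add_apply, mul_add, Finset.sum_add_distrib])
    have hφ : ∀ g (x : (Fin (m + 1) → ZMod p) → Λ), φ (fun τ => ψ g * x (fun i => τ i - δ i g)) =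
        rL (tw π ψ (fun g => ∑ i, if c i then δ i g else 0)) g (φ x) :=
      fun g x => der2Shift hadd (ψ g) (fun i => δ i g) x c
    have hZs : der2Im φ Z = Zs T (rL (tw π ψ (fun g => ∑ i, if c i then δ i g else 0))) y := by
      refine (hLin p G S d ω D T hω hH hT (m + 2) Λ π hR _ hχ).2.1 y _
        ⟨der2Coc φ hφ hZc, fun i => ?_, fun k => ?_⟩
      · rw [der2Psi φ hφ, hZt, map_zero]
      · rw [der2Co, hZk]
        show ∑ τ : Fin (m + 1) → ZMod p, zt π (∑ i, if c i then τ i else 0) * der2Dl (y k) τ = y k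
        unfold der2Dl
        simp only [mul_ite, mul_zero]
        rw [Finset.sum_ite_eq', if_pos (Finset.mem_univ _)]
        simp only [Pi.zero_apply, ite_self, Finset.sum_const_zero, h0, one_mul]
    rw [Ts, ← hZs, der2Psi φ hφ, ← hF]
    rfl
  -- (b)
  have key1 : ∑ c : Fin (m + 1) → Bool, (∏ i, sb (c i)) •
        Ts T (rL (tw π ψ (fun g => ∑ i, if c i then δ i g else 0))) y j =
      π ^ (m + 1) * ∑ τ : Fin (m + 1) → ZMod p, (∏ i, (((τ i).val : ℕ) : Λ)) * F τ := by
    have e0 : ∀ c : Fin (m + 1) → Bool, (∏ i, sb (c i)) •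
        Ts T (rL (tw π ψ (fun g => ∑ i, if c i then δ i g else 0))) y j =
        ∑ τ : Fin (m + 1) → ZMod p, ((∏ i, sb (c i) : ℤ) : Λ) *
          zt π (∑ i, if c i then τ i else 0) * F τ := by
      intro c
      rw [hTs, zsmul_eq_mul, Finset.mul_sum]
      refine Finset.sum_congr rfl fun τ _ => ?_
      rw [mul_assoc]
    rw [Finset.sum_congr rfl fun c _ => e0 c, Finset.sum_comm, Finset.mul_sum]
    refine Finset.sum_congr rfl fun τ _ => ?_
    rw [← Finset.sum_mul, der2Cube2 h0 hadd, der2PiProd hR.nil h9]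
    ring
  have key2 : ∀ x : Λ, π ^ (m + 1) * x = π ^ (m + 1) * (((rs π x : ZMod p).val : ℕ) : Λ) := by
    intro x
    obtain ⟨y, hy⟩ := r3 x
    have : π ^ (m + 1) * x = π ^ (m + 1) * (((rs π x : ZMod p).val : ℕ) : Λ) +
        π ^ (m + 2) * y := by
      conv_lhs => rw [hy]
      ring
    rw [this, hR.nil, zero_mul, add_zero]
  have key3 : rs (p := p) π (∑ τ : Fin (m + 1) → ZMod p,
      (∏ i, (((τ i).val : ℕ) : Λ)) * F τ) =
      ∑ τ : Fin (m + 1) → ZMod p, (∏ i, τ i) * rs π (F τ) := by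
    rw [hrsum]
    refine Finset.sum_congr rfl fun τ _ => ?_
    rw [r2, ← Nat.cast_prod, r5, Nat.cast_prod]
    simp only [ZMod.natCast_zmod_val]
  -- (c)
  let ε : ((Fin (m + 1) → ZMod p) → Λ) →+ (Finset (Fin (m + 1)) → ZMod p) := AddMonoidHom.mk'
    (fun f I => ∑ τ : Fin (m + 1) → ZMod p, (∏ i ∈ I, τ i) * rs π (f τ)) (by
      intro f f'
      funext I
      simp only [Pi.add_apply, r1, mul_add, Finset.sum_add_distrib])
  have hε : ∀ f I, ε f I = ∑ τ : Fin (m + 1) → ZMod p, (∏ i ∈ I, τ i) * rs π (f τ) :=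
    fun _ _ => rfl
  have hεr : ∀ g (x : (Fin (m + 1) → ZMod p) → Λ), ε (fun τ => ψ g * x (fun i => τ i - δ i g)) =
      rE ω δ g (ε x) := by
    intro g x
    funext I
    have e1 : ∑ τ : Fin (m + 1) → ZMod p, (∏ i ∈ I, τ i) *
        rs (p := p) π (ψ g * x (fun i => τ i - δ i g)) =
        ω g * ∑ τ : Fin (m + 1) → ZMod p, (∏ i ∈ I, (δ i g + τ i)) * rs π (x τ) := by
      rw [← Equiv.sum_comp (Equiv.addRight fun i => δ i g) fun τ : Fin (m + 1) → ZMod p =>
        (∏ i ∈ I, τ i) * rs (p := p) π (ψ g * x (fun i => τ i - δ i g)), Finset.mul_sum]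
      refine Finset.sum_congr rfl fun τ _ => ?_
      have e2 : (fun i => (Equiv.addRight fun i => δ i g) τ i - δ i g) = τ := by
        funext i
        show τ i + δ i g - δ i g = τ i
        rw [add_sub_cancel_right]
      have e3 : ∏ i ∈ I, (Equiv.addRight fun i => δ i g) τ i = ∏ i ∈ I, (δ i g + τ i) := by
        refine Finset.prod_congr rfl fun i _ => ?_
        show τ i + δ i g = δ i g + τ i
        rw [add_comm]
      rw [e2, e3, r2, hψr]
      ring
    rw [hε, e1]
    show _ = ω g * ∑ A ∈ I.powerset, (∏ j ∈ A, δ j g) * ε x (I \ A)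
    congr 1
    have e4 : ∀ A ∈ I.powerset, (∏ j ∈ A, δ j g) * ε x (I \ A) =
        ∑ τ : Fin (m + 1) → ZMod p, (∏ j ∈ A, δ j g) * ((∏ i ∈ I \ A, τ i) * rs π (x τ)) := by
      intro A _
      rw [hε, Finset.mul_sum]
    rw [Finset.sum_congr rfl e4, Finset.sum_comm]
    refine Finset.sum_congr rfl fun τ _ => ?_
    rw [Finset.prod_add, Finset.sum_mul]
    refine Finset.sum_congr rfl fun A _ => ?_
    rw [mul_assoc]
  have hcard2 : Nat.card (Finset (Fin (m + 1)) → ZMod p) = p ^ 2 ^ (m + 1) := by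
    rw [Nat.card_fun, Nat.card_zmod, Nat.card_eq_fintype_card, Fintype.card_finset,
      Fintype.card_fin]
  obtain ⟨ζ', -, huq⟩ := (hUni p G S d ω D T hω hH hT
    (Finset (Fin (m + 1)) → ZMod p) _ hcard2 _ (hA2 p G ω hω (m + 1) δ hδ)).1 (fun _ => 0)
      (by simp) fun k I => if I = ∅ then rs π (y k) else 0
  have hζ1 : ζ = der2Im ε Z := by
    refine (huq ζ ⟨hζc, hζt, fun k => funext fun I => hζk k I⟩).trans
      (huq (der2Im ε Z) ⟨der2Coc ε hεr hZc, fun i => ?_, fun k => ?_⟩).symm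
    · rw [der2Psi ε hεr, hZt, map_zero]
    · rw [der2Co, hZk]
      funext I
      rw [hε]
      have e1 : ∀ τ : Fin (m + 1) → ZMod p, (∏ i ∈ I, τ i) * rs (p := p) π (der2Dl (y k) τ) =
          if τ = 0 then (∏ i ∈ I, τ i) * rs π (y k) else 0 := by
        intro τ
        unfold der2Dl
        split_ifs
        · rfl
        · rw [hz0, mul_zero]
      rw [Finset.sum_congr rfl fun τ _ => e1 τ, Finset.sum_ite_eq', if_pos (Finset.mem_univ _)]
      by_cases hI : I = ∅
      · rw [hI, Finset.prod_empty, one_mul, if_pos rfl]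
      · obtain ⟨i, hi⟩ := Finset.nonempty_iff_ne_empty.2 hI
        rw [if_neg hI, Finset.prod_eq_zero hi rfl, zero_mul]
  rw [key1, key2, key3, hζ1, der2Psi ε hεr, ← hF, hε]

end Pool.Agent.MP72P
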