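import Pool.Agent.Lib.MP_72e2e6_nt.P3.A2.Spec

/-!
# MP_72e2e6_nt, theorem T3p, part A2: equidistribution, `n = m + 2`
-/

namespace Pool.Agent.MP72P

open Finset

/-- The term of `S_Vdc`. -/
private noncomputable def eqm2Term {X Λ : Type} [AddCommGroup X] [AddCommGroup Λ]
    (𝒟 H0 : AddSubgroup X) [Fintype 𝒟]
    [Fintype H0] (m : ℕ) (e : AddChar Λ ℂ) (f : X → Λ) (δ : Fin m → X) : ℝ :=
  ‖∑ δ₀ : H0, ∑ D : 𝒟, e (∑ ω : Fin (m + 1) → Bool,
      (∏ j, sb (ω j)) • f ((D : X) + ∑ j, if ω j then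
        (Fin.cons (δ₀ : X) δ : Fin (m + 1) → X) j else 0))‖ /
      (Fintype.card H0 * Fintype.card 𝒟)

private theorem eqm2Vdc (hV : S_Vdc) {X Λ : Type} [AddCommGroup X] [AddCommGroup Λ] [Finite Λ]
    (𝒟 H0 H' : AddSubgroup X)
    [Fintype 𝒟] [Fintype H0] [Fintype H'] (h0 : H0 ≤ 𝒟) (h' : H' ≤ 𝒟) (m : ℕ)
    (e : AddChar Λ ℂ) (f : X → Λ) :
    (‖∑ D : 𝒟, e (f D)‖ / Fintype.card 𝒟) ^ 2 ^ (m + 1) ≤
      (∑ δ : Fin m → H', eqm2Term 𝒟 H0 m e f (fun j => (δ j : X))) / (Fintype.card H') ^ m := by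
  let inst : ∀ j, Fintype ((Fin.cons H0 fun _ => H' : Fin (m + 1) → AddSubgroup X) j) :=
    fun j => Fin.cases (motive := fun j =>
      Fintype ((Fin.cons H0 fun _ => H' : Fin (m + 1) → AddSubgroup X) j))
      (inferInstanceAs (Fintype H0)) (fun _ => inferInstanceAs (Fintype H')) j
  have h := @hV X _ 𝒟 _ m (Fin.cons H0 fun _ => H') inst (fun j => by
    refine Fin.cases h0 (fun _ => h') j) Λ _ _ e f
  refine h.trans (le_of_eq ?_)
  have e : (∏ j : Fin m, @Fintype.card ((Fin.cons H0 fun _ => H' : Fin (m + 1) → AddSubgroup X)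
      j.succ) (inst j.succ) : ℕ) = Fintype.card H' ^ m := by
    rw [show (∏ j : Fin m, @Fintype.card ((Fin.cons H0 fun _ => H' :
      Fin (m + 1) → AddSubgroup X) j.succ) (inst j.succ) : ℕ) = ∏ j : Fin m, Fintype.card H' from rfl,
      Finset.prod_const, Finset.card_univ, Fintype.card_fin]
  rw [e, Nat.cast_pow]
  rfl

/-- The number of the tuples with a relation. -/
private theorem eqm2Bad {p : ℕ} [Fact p.Prime] {H V : Type} [AddCommGroup H] [Finite H]
    [AddCommGroup V] (Q : H →+ V) (hp : ∀ x, p • Q x = 0) (m : ℕ) (c : Fin m → ZMod p)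
    (hc : c ≠ 0) :
    Nat.card {δ : Fin m → H // ∑ j, (c j).val • Q (δ j) = 0} * Nat.card H ≤
      Nat.card Q.ker * Nat.card H ^ m := by
  classical
  obtain ⟨j₀, hj₀⟩ : ∃ j, c j ≠ 0 := by
    by_contra hcon
    push Not at hcon
    exact hc (funext hcon)
  let T : (Fin m → H) →+ V := AddMonoidHom.mk'
    (fun δ => ∑ j, (c j).val • Q (δ j)) (by
      intro a b
      simp only [Pi.add_apply, map_add, smul_add, Finset.sum_add_distrib])
  have hT : ∀ δ, T δ = ∑ j, (c j).val • Q (δ j) := fun _ => rfl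
  have h1 : Nat.card {δ : Fin m → H // ∑ j, (c j).val • Q (δ j) = 0} = Nat.card T.ker := by
    refine Nat.card_congr (Equiv.subtypeEquivRight fun δ => ?_)
    rw [AddMonoidHom.mem_ker]
    exact Iff.rfl
  have h2 := AddSubgroup.card_mul_index T.ker
  have h3 := AddSubgroup.card_mul_index Q.ker
  rw [AddSubgroup.index_ker] at h2 h3
  have hfin : Finite T.range := Finite.of_surjective (f := T.rangeRestrict)
    T.rangeRestrict_surjective
  have h4 : Nat.card Q.range ≤ Nat.card T.range := by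
    refine Nat.card_le_card_of_injective (fun y => (⟨y.1, ?_⟩ : T.range)) ?_
    · obtain ⟨x, hx⟩ := y.2
      refine ⟨Pi.single j₀ ((c j₀)⁻¹.val • x), ?_⟩
      rw [hT, Finset.sum_eq_single j₀]
      · rw [Pi.single_eq_same, map_nsmul, ← mul_smul, ← hx]
        have h5 : (((c j₀).val * (c j₀)⁻¹.val : ℕ) : ZMod p) = ((1 : ℕ) : ZMod p) := by
          rw [Nat.cast_mul, ZMod.natCast_zmod_val, ZMod.natCast_zmod_val, mul_inv_cancel₀ hj₀,
            Nat.cast_one]
        have h6 := (ZMod.natCast_eq_natCast_iff' _ _ _).1 h5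
        have h7 : ∀ a : ℕ, a • Q x = (a % p) • Q x := by
          intro a
          conv_lhs => rw [← Nat.div_add_mod a p]
          rw [add_smul, mul_comm, mul_smul, hp, smul_zero, zero_add]
        rw [h7, h6, ← h7, one_smul]
      · intro j _ hj
        rw [Pi.single_eq_of_ne hj, map_zero, smul_zero]
      · intro h
        exact absurd (Finset.mem_univ _) h
    · intro y y' h
      exact Subtype.ext (congrArg (fun z : T.range => (z : V)) h)
  have h5 : Nat.card H ^ m = Nat.card T.ker * Nat.card T.range := by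
    rw [h2, Nat.card_fun, Nat.card_eq_fintype_card (α := Fin m), Fintype.card_fin]
  rw [h1, h5, ← h3]
  calc Nat.card T.ker * (Nat.card Q.ker * Nat.card Q.range)
      = Nat.card Q.ker * (Nat.card T.ker * Nat.card Q.range) := by ring
    _ ≤ Nat.card Q.ker * (Nat.card T.ker * Nat.card T.range) := by gcongr

private theorem eqm2Norm {Λ : Type} [AddCommGroup Λ] [Finite Λ] (e : AddChar Λ ℂ) (x : Λ) :
    ‖e x‖ = 1 := AddChar.norm_apply e x

private theorem eqm2Term_le {X Λ : Type} [AddCommGroup X] [AddCommGroup Λ] [Finite Λ]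
    (𝒟 H0 : AddSubgroup X) [Fintype 𝒟]
    [Fintype H0] (m : ℕ) (e : AddChar Λ ℂ) (f : X → Λ) (δ : Fin m → X) :
    eqm2Term 𝒟 H0 m e f δ ≤ 1 := by
  unfold eqm2Term
  have h1 : (0 : ℝ) < Fintype.card H0 := by
    have := Fintype.card_pos (α := H0)
    exact_mod_cast this
  have h2 : (0 : ℝ) < Fintype.card 𝒟 := by
    have := Fintype.card_pos (α := 𝒟)
    exact_mod_cast this
  rw [div_le_one (by positivity)]
  refine (norm_sum_le _ _).trans ?_
  calc _ ≤ ∑ δ₀ : H0, (Fintype.card 𝒟 : ℝ) := by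
        refine Finset.sum_le_sum fun δ₀ _ => ?_
        refine (norm_sum_le _ _).trans ?_
        simp only [eqm2Norm, Finset.sum_const, Finset.card_univ, nsmul_eq_mul, mul_one]
        exact le_rfl
    _ = _ := by rw [Finset.sum_const, Finset.card_univ, nsmul_eq_mul]

private theorem eqm2Term_zero {X Λ : Type} [AddCommGroup X] [AddCommGroup Λ]
    (𝒟 H0 : AddSubgroup X) [Fintype 𝒟]
    [Fintype H0] (m : ℕ) (e : AddChar Λ ℂ) (f : X → Λ) (δ : Fin m → X) (cc : H0 → Λ)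
    (h : ∀ (x : H0) (D : X), ∑ ω : Fin (m + 1) → Bool,
      (∏ j, sb (ω j)) • f (D + ∑ j, if ω j then
        (Fin.cons (x : X) δ : Fin (m + 1) → X) j else 0) = cc x)
    (δ₁ : H0) (w : Λ) (hw : e w ≠ 1) (h1 : ∀ x, cc (x + δ₁) = cc x + w) :
    eqm2Term 𝒟 H0 m e f δ = 0 := by
  have h2 : ∑ x : H0, (e (cc x) : ℂ) = 0 := by
    have e1 := Equiv.sum_comp (Equiv.addRight δ₁) fun x : H0 => (e (cc x) : ℂ)
    simp only [Equiv.coe_addRight, h1, AddChar.map_add_eq_mul] at e1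
    rw [← Finset.sum_mul] at e1
    have e3 : (∑ x : H0, (e (cc x) : ℂ)) * (e w - 1) = 0 := by
      rw [mul_sub, e1, mul_one, sub_self]
    exact (mul_eq_zero.1 e3).resolve_right (sub_ne_zero.2 hw)
  unfold eqm2Term
  simp only [h, Finset.sum_const, ← Finset.smul_sum, h2, smul_zero, norm_zero, zero_div]

theorem tEqM2 : S_Lrb → S_Vdc → S_The2 → S_EqM2 := by
  classical
  intro hL hV hZ p _ G _ _ _ S X _ d A T N0 hA z hz hzc m Λ _ π hπ ψ hψ y hy η hη e he ε hε
  obtain ⟨hLf, -, -, -, -, hrs, -, -, -, hcg⟩ := hL p (m + 2) Λ π hπ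
  obtain ⟨-, -, hrse, -, -, hrsu⟩ := hrs (by omega)
  obtain ⟨j₀, hη⟩ := hη
  have hpp : p.Prime := Fact.out
  have hnil : π ^ (m + 1) * π = 0 := by
    rw [← pow_succ]
    exact hπ.nil
  -- dependence on the class modulo `p`
  have hcong : ∀ a b : ℕ, (a : ZMod p) = b → π ^ (m + 1) * (a : Λ) = π ^ (m + 1) * (b : Λ) := by
    intro a b hab
    obtain ⟨w, hw⟩ := hcg a b hab
    linear_combination π ^ (m + 1) * hw + w * hnil
  have hlin : ∀ θ : Fin d → ZMod p, ∑ j, η j * (π ^ (m + 1) * (((θ j).val : ℕ) : Λ)) =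
      π ^ (m + 1) * (((∑ j, rs (p := p) π (η j) * θ j : ZMod p).val : ℕ) : Λ) := by
    intro θ
    have h1 : ∀ j, η j * (π ^ (m + 1) * (((θ j).val : ℕ) : Λ)) =
        π ^ (m + 1) * (((rs (p := p) π (η j)).val * (θ j).val : ℕ) : Λ) := by
      intro j
      obtain ⟨w, hw⟩ := hrse (η j)
      push_cast
      linear_combination π ^ (m + 1) * (((θ j).val : ℕ) : Λ) * hw +
        w * (((θ j).val : ℕ) : Λ) * hnil
    rw [Finset.sum_congr rfl fun j _ => h1 j, ← Finset.mul_sum, ← Nat.cast_sum]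
    refine hcong _ _ ?_
    rw [ZMod.natCast_zmod_val, Nat.cast_sum]
    refine Finset.sum_congr rfl fun j _ => ?_
    rw [Nat.cast_mul, ZMod.natCast_zmod_val, ZMod.natCast_zmod_val]
  have hw : ∀ t : ZMod p, t ≠ 0 → e (π ^ (m + 1) * ((t.val : ℕ) : Λ)) ≠ 1 := by
    intro t ht h1
    apply he
    have h2 : π ^ (m + 1) = t⁻¹.val • (π ^ (m + 1) * ((t.val : ℕ) : Λ)) := by
      rw [nsmul_eq_mul]
      have h3 := hcong (t⁻¹.val * t.val) 1 (by
        rw [Nat.cast_mul, ZMod.natCast_zmod_val, ZMod.natCast_zmod_val, inv_mul_cancel₀ ht,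
          Nat.cast_one])
      push_cast at h3
      linear_combination -h3
    rw [h2, AddChar.map_nsmul_eq_pow, h1, one_pow]
  have hη0 : (fun j => rs (p := p) π (η j)) ≠ 0 := by
    intro h
    exact (hrsu (η j₀)).2 hη (congrFun h j₀)
  -- the choice of `e'`
  have hfin : ∀ e, Finite (A.F e) := fun e => hA.fin e
  obtain ⟨Hs, hHs⟩ : ∃ Hs : ℕ → AddSubgroup X, ∀ e x, x ∈ Hs e ↔ x ∈ A.F e ∧ x ∈ A.B :=
    ⟨fun e => A.F e ⊓ A.B, fun e x => AddSubgroup.mem_inf⟩
  have hHle : ∀ e, Hs e ≤ A.F e := fun e x hx => ((hHs e x).1 hx).1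
  have hHfin : ∀ e, Finite (Hs e) := fun e => (hA.fin e).subset (hHle e)
  let Q : ∀ e', Hs e' →+ X ⧸ N0 := fun e' => (QuotientAddGroup.mk' N0).comp (Hs e').subtype
  have hQ : ∀ e' x, Q e' x = QuotientAddGroup.mk (x : X) := fun _ _ => rfl
  have hQker : ∀ e', Nat.card (Q e').ker = {x | x ∈ A.F e' ∧ x ∈ A.B ∧ x ∈ N0}.ncard := by
    intro e'
    rw [← Nat.card_coe_set_eq]
    refine Nat.card_congr ⟨fun x => ⟨x.1.1, ((hHs _ _).1 x.1.2).1, ((hHs _ _).1 x.1.2).2,
        (QuotientAddGroup.eq_zero_iff _).1 x.2⟩,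
      fun x => ⟨⟨x.1, (hHs _ _).2 ⟨x.2.1, x.2.2.1⟩⟩, (QuotientAddGroup.eq_zero_iff _).2 x.2.2.2⟩,
      fun x => rfl, fun x => rfl⟩
  have hHcard : ∀ e', Nat.card (Hs e') = {x | x ∈ A.F e' ∧ x ∈ A.B}.ncard := by
    intro e'
    rw [← Nat.card_coe_set_eq]
    exact Nat.card_congr (Equiv.subtypeEquivRight fun x => hHs e' x)
  have hQp : ∀ e' x, p • Q e' x = 0 := by
    intro e' x
    rw [hQ, ← QuotientAddGroup.mk_nsmul, QuotientAddGroup.eq_zero_iff]
    exact hA.pn _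
  obtain ⟨e', he'⟩ : ∃ e', (p : ℝ) ^ m * Nat.card (Q e').ker ≤
      ε ^ 2 ^ (m + 1) * Nat.card (Hs e') := by
    have hε' : 0 < ε ^ 2 ^ (m + 1) := by positivity
    obtain ⟨B, hB⟩ := exists_nat_ge ((p : ℝ) ^ m / ε ^ 2 ^ (m + 1))
    obtain ⟨e', he'⟩ := hA.big B
    refine ⟨e', ?_⟩
    rw [← hQker, ← hHcard] at he'
    have h1 : (B : ℝ) * Nat.card (Q e').ker ≤ Nat.card (Hs e') := by exact_mod_cast he'
    rw [div_le_iff₀ hε'] at hB
    have h2 : (0 : ℝ) ≤ Nat.card (Q e').ker := by positivity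
    calc (p : ℝ) ^ m * Nat.card (Q e').ker ≤ (B * ε ^ 2 ^ (m + 1)) * Nat.card (Q e').ker := by
          gcongr
      _ = ε ^ 2 ^ (m + 1) * (B * Nat.card (Q e').ker) := by ring
      _ ≤ _ := by gcongr
  have : Fintype (Hs e') := Fintype.ofFinite _
  -- good tuples
  set Gd : (Fin m → Hs e') → Prop := fun δ =>
    ∀ c : Fin m → ZMod p, ∑ j, (c j).val • (δ j : X) ∈ N0 → c = 0 with hGd
  have hTh : ∀ δ : Fin m → Hs e', ∃ (Θ : X → Fin d → ZMod p) (x₁ : X) (e₁ : ℕ), Gd δ →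
      (∀ x y j, Θ (x + y) j = Θ x j + Θ y j) ∧ x₁ ∈ A.F e₁ ∧
        ∑ j, rs (p := p) π (η j) * Θ x₁ j ≠ 0 ∧
        ∀ (x D : X) (j : Fin d), ∑ c : Fin (m + 1) → Bool, (∏ i, sb (c i)) •
                Ts T (rL (tw π ψ (A.h (D + ∑ i, if c i then
                  (Fin.cons x (fun j => (δ j : X)) : Fin (m + 1) → X) i else 0)))) y j =
              π ^ (m + 1) * (((Θ x j : ZMod p).val : ℕ) : Λ) := by
    intro δ
    by_cases hg : Gd δ
    · obtain ⟨Θ, h1, h2, h3⟩ := hZ p G S X d A T N0 hA z hz hzc m (fun j => (δ j : X))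
        (fun i => ((hHs _ _).1 (δ i).2).2) hg
      obtain ⟨x₁, hx₁⟩ := h2 _ hη0
      obtain ⟨e₁, he₁⟩ := hA.exh x₁
      exact ⟨Θ, x₁, e₁, fun _ => ⟨h1, he₁, hx₁, h3 Λ π hπ ψ hψ y hy⟩⟩
    · exact ⟨fun _ _ => 0, 0, 0, fun h => absurd h hg⟩
  choose Θ x₁ e₁ hΘ using hTh
  refine ⟨max e' (Finset.univ.sup e₁), fun 𝒟 h𝒟 hle => ?_⟩
  have hDf : Finite 𝒟 := h𝒟
  have : Fintype 𝒟 := Fintype.ofFinite _
  have : Fintype (A.F (max e' (Finset.univ.sup e₁))) := Fintype.ofFinite _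
  have hH' : Hs e' ≤ 𝒟 := (hHle e').trans ((hA.mono (le_max_left _ _)).trans hle)
  set f : X → Λ := fun D => ∑ j, η j * Ts T (rL (tw π ψ (A.h D))) y j with hf
  have hvdc := eqm2Vdc hV 𝒟 (A.F (max e' (Finset.univ.sup e₁))) (Hs e') hle hH' m e f
  -- the good terms are zero
  have hgood : ∀ δ : Fin m → Hs e', Gd δ →
      eqm2Term 𝒟 (A.F (max e' (Finset.univ.sup e₁))) m e f (fun j => (δ j : X)) = 0 := by
    intro δ hδ
    obtain ⟨hΘadd, hδ₁, hv₁, hcube⟩ := hΘ δ hδ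
    have hδ₁' : x₁ δ ∈ A.F (max e' (Finset.univ.sup e₁)) := by
      refine hA.mono ?_ hδ₁
      exact (Finset.le_sup (Finset.mem_univ δ)).trans (le_max_right _ _)
    refine eqm2Term_zero _ _ m e f _
      (fun x => π ^ (m + 1) * (((∑ j, rs (p := p) π (η j) * Θ δ x j : ZMod p).val : ℕ) : Λ))
      (fun x D => ?_) ⟨x₁ δ, hδ₁'⟩ _ (hw _ hv₁) (fun x => ?_)
    · rw [hf, ← hlin]
      simp only [Finset.smul_sum]
      rw [Finset.sum_comm]
      refine Finset.sum_congr rfl fun j _ => ?_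
      rw [← hcube x D j, Finset.mul_sum]
      refine Finset.sum_congr rfl fun ω _ => ?_
      rw [mul_smul_comm]
    · show π ^ (m + 1) * (((∑ j, rs (p := p) π (η j) * Θ δ ((x : X) + x₁ δ) j : ZMod p).val : ℕ) : Λ) =
        π ^ (m + 1) * (((∑ j, rs (p := p) π (η j) * Θ δ x j : ZMod p).val : ℕ) : Λ) +
        π ^ (m + 1) * (((∑ j, rs (p := p) π (η j) * Θ δ (x₁ δ) j : ZMod p).val : ℕ) : Λ)
      rw [← mul_add, ← Nat.cast_add]
      refine hcong _ _ ?_
      rw [Nat.cast_add, ZMod.natCast_zmod_val, ZMod.natCast_zmod_val, ZMod.natCast_zmod_val,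
        ← Finset.sum_add_distrib]
      refine Finset.sum_congr rfl fun j _ => ?_
      rw [hΘadd, mul_add]
  -- the number of the bad ones
  set Bd : Finset (Fin m → Hs e') := Finset.univ.filter fun δ => ¬ Gd δ with hBd
  have hrel : ∀ (c : Fin m → ZMod p) (δ : Fin m → Hs e'),
      ∑ j, (c j).val • Q e' (δ j) = 0 ↔ ∑ j, (c j).val • (δ j : X) ∈ N0 := by
    intro c δ
    rw [← QuotientAddGroup.eq_zero_iff, QuotientAddGroup.mk_sum]
    simp only [hQ, QuotientAddGroup.mk_nsmul]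
  have hbad : (Bd.card : ℝ) * Nat.card (Hs e') ≤
      p ^ m * (Nat.card (Q e').ker * Nat.card (Hs e') ^ m) := by
    have h1 : Bd ⊆ (Finset.univ.filter fun c : Fin m → ZMod p => c ≠ 0).biUnion
        fun c => Finset.univ.filter fun δ : Fin m → Hs e' =>
          ∑ j, (c j).val • Q e' (δ j) = 0 := by
      intro δ hδ
      rw [hBd, Finset.mem_filter, hGd] at hδ
      have h2 := hδ.2
      push Not at h2
      obtain ⟨c, hc, hc0⟩ := h2
      rw [Finset.mem_biUnion]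
      exact ⟨c, Finset.mem_filter.2 ⟨Finset.mem_univ _, hc0⟩,
        Finset.mem_filter.2 ⟨Finset.mem_univ _, (hrel c δ).2 hc⟩⟩
    have h2 : Bd.card * Nat.card (Hs e') ≤
        p ^ m * (Nat.card (Q e').ker * Nat.card (Hs e') ^ m) := by
      calc Bd.card * Nat.card (Hs e')
          ≤ (∑ c ∈ Finset.univ.filter fun c : Fin m → ZMod p => c ≠ 0,
            (Finset.univ.filter fun δ : Fin m → Hs e' =>
              ∑ j, (c j).val • Q e' (δ j) = 0).card) * Nat.card (Hs e') :=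
            Nat.mul_le_mul_right _ ((Finset.card_le_card h1).trans Finset.card_biUnion_le)
        _ = ∑ c ∈ Finset.univ.filter fun c : Fin m → ZMod p => c ≠ 0,
            (Finset.univ.filter fun δ : Fin m → Hs e' =>
              ∑ j, (c j).val • Q e' (δ j) = 0).card * Nat.card (Hs e') := by
            rw [Finset.sum_mul]
        _ ≤ ∑ c ∈ Finset.univ.filter fun c : Fin m → ZMod p => c ≠ 0,
            (Nat.card (Q e').ker * Nat.card (Hs e') ^ m) := by
            refine Finset.sum_le_sum fun c hc => ?_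
            have h3 := eqm2Bad (Q e') (hQp e') m c (Finset.mem_filter.1 hc).2
            rw [Nat.card_eq_fintype_card (α := {δ : Fin m → Hs e' //
              ∑ j, (c j).val • Q e' (δ j) = 0}), Fintype.card_subtype] at h3
            exact h3
        _ ≤ p ^ m * (Nat.card (Q e').ker * Nat.card (Hs e') ^ m) := by
            rw [Finset.sum_const, smul_eq_mul]
            apply Nat.mul_le_mul_right
            refine (Finset.card_le_univ _).trans (le_of_eq ?_)
            rw [Fintype.card_fun, Fintype.card_fin, ZMod.card]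
    exact_mod_cast h2
  have hsum : (∑ δ : Fin m → Hs e',
      eqm2Term 𝒟 (A.F (max e' (Finset.univ.sup e₁))) m e f (fun j => (δ j : X))) ≤
      Bd.card := by
    have h1 : (Bd.card : ℝ) = ∑ δ : Fin m → Hs e', if ¬ Gd δ then 1 else 0 := by
      rw [hBd, Finset.card_filter]
      push_cast
      rfl
    rw [h1]
    refine Finset.sum_le_sum fun δ _ => ?_
    by_cases hg : Gd δ
    · rw [hgood δ hg, if_neg (not_not.2 hg)]
    · rw [if_pos hg]
      exact eqm2Term_le _ _ _ _ _ _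
  rw [Nat.card_eq_fintype_card (α := Hs e')] at hbad he'
  have hH'pos : (0 : ℝ) < Fintype.card (Hs e') := by
    have := Fintype.card_pos (α := Hs e')
    exact_mod_cast this
  have hDpos : (0 : ℝ) < Fintype.card 𝒟 := by
    have := Fintype.card_pos (α := 𝒟)
    exact_mod_cast this
  have hfinal : (‖∑ D : 𝒟, e (f D)‖ / Fintype.card 𝒟) ^ 2 ^ (m + 1) ≤
      ε ^ 2 ^ (m + 1) := by
    refine hvdc.trans ?_
    rw [div_le_iff₀ (by positivity)]
    refine hsum.trans ?_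
    have h1 : (p : ℝ) ^ m * (Nat.card (Q e').ker * Fintype.card (Hs e') ^ m) ≤
        (ε ^ 2 ^ (m + 1) * Fintype.card (Hs e') ^ m) * Fintype.card (Hs e') := by
      calc (p : ℝ) ^ m * (Nat.card (Q e').ker * Fintype.card (Hs e') ^ m)
          = ((p : ℝ) ^ m * Nat.card (Q e').ker) * Fintype.card (Hs e') ^ m := by ring
        _ ≤ (ε ^ 2 ^ (m + 1) * Fintype.card (Hs e')) *
            Fintype.card (Hs e') ^ m := by gcongr
        _ = _ := by ring
    exact le_of_mul_le_mul_right (hbad.trans h1) hH'pos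
  have hroot := le_of_pow_le_pow_left₀ (by positivity) hε.le hfinal
  rw [div_le_iff₀ hDpos] at hroot
  rw [Nat.card_eq_fintype_card, ← finsum_set_coe_eq_finsum_mem, finsum_eq_sum_of_fintype]
  exact hroot

end Pool.Agent.MP72P
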