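import Pool.Agent.Lib.MP_72e2e6_nt.P3.A2.Spec

/-!
# MP_72e2e6_nt, theorem T3p, part A2: equidistribution for all levels
-/

namespace Pool.Agent.MP72P

open Finset

private theorem EqN2_zt_map {p : ℕ} {Λ Λ' : Type} [CommRing Λ] [CommRing Λ'] (f : Λ →+* Λ') (π : Λ)
    (c : ZMod p) : f (zt π c) = zt (f π) c := by
  unfold zt
  rw [map_pow, map_sub, map_one]

private theorem EqN2_tw (hL : S_Lrb) {p : ℕ} [Fact p.Prime] {n : ℕ} {G Λ : Type} [Group G]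
    [TopologicalSpace G] [CommRing Λ] {π : Λ} (hπ : LR p n π) {ω : G → ZMod p} {ψ : G → Λ}
    (hψ : Chr π ω ψ) {h : G → ZMod p} (hh : HomP p h) : Chr π ω (tw π ψ h) := by
  obtain ⟨-, -, ⟨h0, hadd⟩, -, -, -, -, -, hz, -⟩ := hL p n Λ π hπ
  refine ⟨(hψ.loc.prodMk hh.loc).comp (fun q => q.1 * zt π q.2), ?_, ?_, ?_⟩
  · have h1 : h 1 = 0 := by
      have h2 := hh.add 1 1
      rw [mul_one] at h2
      exact left_eq_add.1 h2
    show ψ 1 * zt π (h 1) = 1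
    rw [hψ.one, h1, h0, one_mul]
  · intro a b
    show ψ (a * b) * zt π (h (a * b)) = ψ a * zt π (h a) * (ψ b * zt π (h b))
    rw [hψ.mul, hh.add, hadd]
    ring
  · intro a
    obtain ⟨y, hy⟩ := hψ.red a
    obtain ⟨z, hz⟩ := hz (h a)
    refine ⟨y * zt π (h a) - (((ω a).val : ℕ) : Λ) * ((((h a).val : ℕ) : Λ) + π * z), ?_⟩
    show ψ a * zt π (h a) = _
    rw [hy]
    linear_combination -(((ω a).val : ℕ) : Λ) * hz

private theorem EqN2_chr {p : ℕ} {G Λ Λ' : Type} [Group G] [TopologicalSpace G] [CommRing Λ]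
    [CommRing Λ'] (f : Λ →+* Λ') {π : Λ} {ω : G → ZMod p} {ψ : G → Λ} (hψ : Chr π ω ψ) :
    Chr (f π) ω (fun g => f (ψ g)) := by
  refine ⟨hψ.loc.comp f, ?_, ?_, ?_⟩
  · rw [hψ.one, map_one]
  · intro a b
    rw [hψ.mul, map_mul]
  · intro a
    obtain ⟨y, hy⟩ := hψ.red a
    refine ⟨f y, ?_⟩
    rw [hy, map_add, map_mul, map_natCast]

private theorem EqN2_twf {p : ℕ} {G Λ Λ' : Type} [CommRing Λ]
    [CommRing Λ'] (f : Λ →+* Λ') (π : Λ) (ψ : G → Λ) (h : G → ZMod p) :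
    (fun g => f (tw π ψ h g)) = tw (f π) (fun g => f (ψ g)) h := by
  funext g
  show f (ψ g * zt π (h g)) = f (ψ g) * zt (f π) (h g)
  rw [map_mul, EqN2_zt_map]

/-- The residue class of the image. -/
private theorem EqN2_rs (hL : S_Lrb) {p : ℕ} [Fact p.Prime] {n m : ℕ} {Λ Λ' : Type}
    [CommRing Λ] [CommRing Λ'] {π : Λ} (hπ : LR p n π) (hn : 1 ≤ n) (f : Λ →+* Λ')
    (hf : LR p m (f π)) (hm : 1 ≤ m) (x : Λ) : rs (p := p) (f π) (f x) = rs π x := by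
  obtain ⟨-, -, -, -, -, hrs, -⟩ := hL p n Λ π hπ
  obtain ⟨-, -, -, -, huq, hrs', -⟩ := hL p m Λ' (f π) hf
  obtain ⟨-, -, h1, -⟩ := hrs hn
  obtain ⟨-, -, h2, -⟩ := hrs' hm
  obtain ⟨y, hy⟩ := h1 x
  obtain ⟨y', hy'⟩ := h2 (f x)
  obtain ⟨c, -, hc⟩ := huq hm (f x)
  rw [hc _ ⟨y', hy'⟩]
  refine (hc _ ⟨f y, ?_⟩).symm
  have h3 := congrArg f hy
  rw [map_add, map_mul, map_natCast] at h3
  exact h3

theorem tEqN2 : S_Lrb → S_Lrq → S_Lrx → S_Lin2 → S_EqM2 → S_EqN2 := by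
  classical
  intro hLrb hLrq hLrx hLin hEqM p _ G _ _ _ S X _ d A T N0 hA z hz hzc n Λ _ π hn hπ ψ hψ y hy
    η hη e he ε hε
  obtain ⟨-, -, -, -, -, -, -, huf, -, -⟩ := hLrb p n Λ π hπ
  -- the level
  obtain ⟨i, j₀, u₀, hu₀, hi₀, hmin⟩ : ∃ (i : ℕ) (j₀ : Fin d) (u₀ : Λ), IsUnit u₀ ∧
      η j₀ = π ^ i * u₀ ∧ ∀ j, ∃ x, η j = π ^ i * x := by
    have hex : ∃ i, ∃ (j : Fin d) (u : Λ), IsUnit u ∧ η j = π ^ i * u := by
      obtain ⟨j, hj⟩ := hη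
      have hj' : η j ≠ 0 := fun h => hj (by rw [h, mul_zero])
      obtain ⟨i, -, u, hu, hiu⟩ := huf (η j) hj'
      exact ⟨i, j, u, hu, hiu⟩
    obtain ⟨j₀, u₀, hu₀, hi₀⟩ := Nat.find_spec hex
    refine ⟨Nat.find hex, j₀, u₀, hu₀, hi₀, fun j => ?_⟩
    by_cases hj : η j = 0
    · exact ⟨0, by rw [hj, mul_zero]⟩
    · obtain ⟨i, -, u, hu, hiu⟩ := huf (η j) hj
      have hle : Nat.find hex ≤ i := Nat.find_min' hex ⟨j, u, hu, hiu⟩
      refine ⟨π ^ (i - Nat.find hex) * u, ?_⟩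
      rw [← mul_assoc, ← pow_add, Nat.add_sub_cancel' hle]
      exact hiu
  have hη' : ∀ j, ∃ x, η j = π ^ i * x ∧ (j = j₀ → IsUnit x) := by
    intro j
    by_cases hj : j = j₀
    · rw [hj]
      exact ⟨u₀, hi₀, fun _ => hu₀⟩
    · obtain ⟨x, hx⟩ := hmin j
      exact ⟨x, hx, fun h => absurd h hj⟩
  choose η' hη' hunit using hη'
  have hi2 : i + 2 ≤ n := by
    obtain ⟨j, hj⟩ := hη
    by_contra hcon
    apply hj
    have h1 : π ^ (i + 1) = 0 := by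
      have h2 : i + 1 = n + (i + 1 - n) := by omega
      rw [h2, pow_add, hπ.nil, zero_mul]
    rw [hη' j, ← mul_assoc, ← pow_succ', h1, zero_mul]
  obtain ⟨m, rfl⟩ : ∃ m, n = i + (m + 2) := ⟨n - i - 2, by omega⟩
  obtain ⟨Λ', _, f, hf, hfs, hfk⟩ := hLrq p (i + (m + 2)) Λ π hπ (m + 2) (by omega)
  obtain ⟨-, hchar⟩ := hLrx p (i + (m + 2)) Λ π hπ (by omega)
  obtain ⟨-, -, -, h4⟩ := hchar e he
  obtain ⟨e', he', hne⟩ := h4 i (by omega) Λ' f hfs (by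
    have h5 : i + (m + 2) - i = m + 2 := by omega
    rw [h5]
    exact hfk)
  have h6 : i + (m + 2) - i - 1 = m + 1 := by omega
  rw [h6] at hne
  have hterm : ∀ D, e (∑ j, η j * Ts T (rL (tw π ψ (A.h D))) y j) =
      e' (∑ j, f (η' j) * Ts T (rL (tw (f π) (fun g => f (ψ g)) (A.h D)))
        (fun k => f (y k)) j) := by
    intro D
    obtain ⟨-, -, -, -, l5, -⟩ := hLin p G S d A.ω A.D T hA.om hA.h2 hA.ok
      (i + (m + 2)) Λ π hπ (tw π ψ (A.h D)) (EqN2_tw hLrb hπ hψ (hA.hom D))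
    have h1 : ∑ j, η j * Ts T (rL (tw π ψ (A.h D))) y j =
        π ^ i * ∑ j, η' j * Ts T (rL (tw π ψ (A.h D))) y j := by
      rw [Finset.mul_sum]
      refine Finset.sum_congr rfl fun j _ => ?_
      conv_lhs => rw [hη' j]
      ring
    rw [h1, ← he', map_sum]
    congr 1
    refine Finset.sum_congr rfl fun j _ => ?_
    rw [map_mul, ← l5 (m + 2) Λ' f hf y j, ← EqN2_twf f π ψ (A.h D)]
  have hψ' := EqN2_chr f hψ
  have hunit' : ∃ j, IsUnit (f (η' j)) := ⟨j₀, (hunit j₀ rfl).map f⟩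
  obtain ⟨e₀, h⟩ := hEqM p G S X d A T N0 hA z hz hzc m Λ' (f π) hf (fun g => f (ψ g)) hψ'
    (fun k => f (y k)) (fun k => by
      rw [EqN2_rs hLrb hπ hn f hf (by omega)]
      exact hy k) (fun j => f (η' j)) hunit' e' hne ε hε
  refine ⟨e₀, fun 𝒟 h𝒟 hle => ?_⟩
  have h1 := h 𝒟 h𝒟 hle
  simp only [← hterm] at h1
  exact h1

end Pool.Agent.MP72P
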