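import Pool.Agent.Lib.MP_72e2e6_nt.P3.A2.Spec

/-!
# MP_72e2e6_nt, theorem T3p, part A2: elementary properties of `Zs`, `Ts`, `Ker`
-/

namespace Pool.Agent.MP72P

open Finset

section

variable {p : ℕ} {G S Λ : Type} [Group G] [TopologicalSpace G] [CommRing Λ] {π : Λ}
  {ω : G → ZMod p} {d : ℕ} {T : Tst G S d}

/-! ### Additive maps compatible with the actions -/

omit [Group G] [TopologicalSpace G] in
private theorem Lin2_psi {Λ' : Type} [CommRing Λ'] {χ : G → Λ} {χ' : G → Λ'} (f : Λ →+ Λ')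
    (hf : ∀ g x, f (χ g * x) = χ' g * f x) (z : (G → Λ) × (S → Λ)) (w : S) (g : G) :
    psi (rL χ') ((fun g => f (z.1 g), fun s => f (z.2 s)) : (G → Λ') × (S → Λ')) w g =
      f (psi (rL χ) z w g) := by
  show f (z.1 g) - (f (z.2 w) - χ' g * f (z.2 w)) = f (z.1 g - (z.2 w - χ g * z.2 w))
  rw [map_sub, map_sub, hf]

private theorem Lin2_coc {Λ' : Type} [CommRing Λ'] {χ : G → Λ} {χ' : G → Λ'} (f : Λ →+ Λ')
    (hf : ∀ g x, f (χ g * x) = χ' g * f x) {c : G → Λ} (hc : Coc (rL χ) c) :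
    Coc (rL χ') (fun g => f (c g)) where
  loc := hc.loc.comp f
  mul g h := by
    show f (c (g * h)) = f (c g) + χ' g * f (c h)
    rw [hc.mul, map_add]
    show f (c g) + f (χ g * c h) = _
    rw [hf]

omit [Group G] [TopologicalSpace G] in
private theorem Lin2_co {M M' : Type} (f : M → M') (z : (G → M) × (S → M)) (k : Fin (d + 1)) :
    T.co ((fun g => f (z.1 g), fun s => f (z.2 s)) : (G → M') × (S → M')) k = f (T.co z k) := by
  unfold Tst.co
  cases T.y k <;> rfl

private theorem Lin2_isS {Λ' : Type} [CommRing Λ'] {χ : G → Λ} {χ' : G → Λ'} (f : Λ →+ Λ')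
    (hf : ∀ g x, f (χ g * x) = χ' g * f x) {y : Fin (d + 1) → Λ} {z : (G → Λ) × (S → Λ)}
    (hz : IsS T (rL χ) y z) : IsS T (rL χ') (fun k => f (y k))
      ((fun g => f (z.1 g), fun s => f (z.2 s)) : (G → Λ') × (S → Λ')) where
  coc := Lin2_coc f hf hz.coc
  ts i := by rw [Lin2_psi f hf, hz.ts, map_zero]
  co k := by rw [Lin2_co, hz.co]

private theorem Lin2_isS_add {χ : G → Λ} {y y' : Fin (d + 1) → Λ} {z z' : (G → Λ) × (S → Λ)}
    (hz : IsS T (rL χ) y z) (hz' : IsS T (rL χ) y' z') : IsS T (rL χ) (y + y') (z + z') where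
  coc := ⟨(hz.coc.loc.prodMk hz'.coc.loc).comp (fun q => q.1 + q.2), fun g h => by
    show z.1 (g * h) + z'.1 (g * h) = z.1 g + z'.1 g + χ g * (z.1 h + z'.1 h)
    rw [hz.coc.mul, hz'.coc.mul]
    show z.1 g + χ g * z.1 h + (z'.1 g + χ g * z'.1 h) = _
    ring⟩
  ts i := by
    have h1 := hz.ts i
    have h2 := hz'.ts i
    have h3 : psi (rL χ) (z + z') (T.w i) (T.t i) =
        psi (rL χ) z (T.w i) (T.t i) + psi (rL χ) z' (T.w i) (T.t i) := by
      show z.1 (T.t i) + z'.1 (T.t i) - (z.2 (T.w i) + z'.2 (T.w i) -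
          χ (T.t i) * (z.2 (T.w i) + z'.2 (T.w i))) =
        z.1 (T.t i) - (z.2 (T.w i) - χ (T.t i) * z.2 (T.w i)) +
          (z'.1 (T.t i) - (z'.2 (T.w i) - χ (T.t i) * z'.2 (T.w i)))
      ring
    rw [h3, h1, h2, add_zero]
  co k := by
    have h1 := hz.co k
    have h2 := hz'.co k
    rw [Pi.add_apply, ← h1, ← h2]
    unfold Tst.co
    cases T.y k <;> rfl

omit [Group G] [TopologicalSpace G] in
private theorem Lin2_psi_add (χ : G → Λ) (z z' : (G → Λ) × (S → Λ)) (w : S) (g : G) :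
    psi (rL χ) (z + z') w g = psi (rL χ) z w g + psi (rL χ) z' w g := by
  show z.1 g + z'.1 g - (z.2 w + z'.2 w - χ g * (z.2 w + z'.2 w)) =
    z.1 g - (z.2 w - χ g * z.2 w) + (z'.1 g - (z'.2 w - χ g * z'.2 w))
  ring

private theorem Lin2_cocpsi {χ : G → Λ} (hχ : Chr π ω χ) {z : (G → Λ) × (S → Λ)}
    (hz : Coc (rL χ) z.1) (w : S) :
    Coc (rL χ) (fun g => psi (rL χ) z w g) where
  loc := (hz.loc.prodMk hχ.loc).comp (fun q => q.1 - (z.2 w - q.2 * z.2 w))
  mul g h := by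
    show z.1 (g * h) - (z.2 w - χ (g * h) * z.2 w) =
      z.1 g - (z.2 w - χ g * z.2 w) + χ g * (z.1 h - (z.2 w - χ h * z.2 w))
    rw [hχ.mul, hz.mul]
    show z.1 g + χ g * z.1 h - (z.2 w - χ g * χ h * z.2 w) = _
    ring

private theorem Lin2_chr_map {χ : G → Λ} (hχ : Chr π ω χ) {Λ' : Type} [CommRing Λ']
    (f : Λ →+* Λ') : Chr (f π) ω (fun g => f (χ g)) where
  loc := hχ.loc.comp f
  one := by rw [hχ.one, map_one]
  mul a b := by rw [hχ.mul, map_mul]
  red a := by
    obtain ⟨y, hy⟩ := hχ.red a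
    exact ⟨f y, by rw [hy, map_add, map_mul, map_natCast]⟩

private theorem Lin2_surj {m : ℕ} {Λ' : Type} [CommRing Λ'] (f : Λ →+* Λ') (h : LR p m (f π)) :
    Function.Surjective f := by
  have key : ∀ (k : ℕ) (x : Λ'), ∃ (z : Λ) (y : Λ'), x = f z + (f π) ^ k * y := by
    intro k
    induction k with
    | zero => exact fun x => ⟨0, x, by rw [map_zero, pow_zero, one_mul, zero_add]⟩
    | succ k ih =>
      intro x
      obtain ⟨z, y, hx⟩ := ih x
      obtain ⟨c, y', hy⟩ := h.res y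
      refine ⟨z + π ^ k * c, y', ?_⟩
      rw [hx, hy, map_add, map_mul, map_pow, map_natCast]
      ring
  intro x
  obtain ⟨z, y, hx⟩ := key m x
  rw [h.nil, zero_mul, add_zero] at hx
  exact ⟨z, hx.symm⟩

/-- Existence and uniqueness of the solutions; a crossed homomorphism on `D w` which vanishes at all
tests is `0`. -/
private theorem Lin2_core [Fact p.Prime] [IsTopologicalGroup G] (hL : S_Lrb) (hU : S_Uni2)
    (hA : S_Act) (hω : ChO p ω) (h2 : H2Z p ω) {D : S → Subgroup G} (hT : T.Ok p ω D)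
    {n : ℕ} (hR : LR p n π) {χ : G → Λ} (hχ : Chr π ω χ) :
    (∀ y, IsS T (rL χ) y (Zs T (rL χ) y)) ∧ (∀ y z, IsS T (rL χ) y z → z = Zs T (rL χ) y) ∧
    ∀ (w : S) (f : D w → Λ), Coc (fun g : D w => rL χ (g : G)) f →
        (∀ (i : T.I) (g : D w), T.w i = w → (g : G) = T.t i → f g = 0) →
        (∀ (j : Fin d) (g : D w), T.u j = w → (g : G) = T.e j → f g = 0) → f = 0 := by
  have hfinΛ : Finite Λ := (hL p n Λ π hR).1
  obtain ⟨hex, hdet⟩ := hU p G S d ω D T hω h2 hT Λ n hR.card (rL χ)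
    (hA p n Λ π hR G ω hω χ hχ).1
  have key : ∀ y : Fin (d + 1) → Λ, ∃! z, IsS T (rL χ) y z := by
    intro y
    have hfin : {i : T.I | (0 : T.I → Λ) i ≠ 0}.Finite := by
      have : {i : T.I | (0 : T.I → Λ) i ≠ 0} = ∅ := by
        ext i
        simp
      rw [this]
      exact Set.finite_empty
    obtain ⟨z, ⟨h3, h4, h5⟩, h6⟩ := hex 0 hfin y
    exact ⟨z, ⟨h3, h4, h5⟩, fun z' hz' => h6 z' ⟨hz'.coc, hz'.ts, hz'.co⟩⟩
  have k1 : ∀ y, IsS T (rL χ) y (Zs T (rL χ) y) := by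
    intro y
    have h : ∃ z, IsS T (rL χ) y z := (key y).exists
    unfold Zs
    rw [dif_pos h]
    exact h.choose_spec
  exact ⟨k1, fun y z hz => (key y).unique hz (k1 y), hdet⟩

/-- The extra tests of the image under an additive map. -/
private theorem Lin2_Ts {Λ' : Type} [CommRing Λ'] {χ : G → Λ} {χ' : G → Λ'} (f : Λ →+ Λ')
    (hf : ∀ g x, f (χ g * x) = χ' g * f x) (h1 : ∀ y, IsS T (rL χ) y (Zs T (rL χ) y))
    (h2 : ∀ y z, IsS T (rL χ') y z → z = Zs T (rL χ') y) (y : Fin (d + 1) → Λ) (j : Fin d) :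
    Ts T (rL χ') (fun k => f (y k)) j = f (Ts T (rL χ) y j) := by
  have h3 := h2 _ _ (Lin2_isS f hf (h1 y))
  unfold Ts
  rw [← h3, Lin2_psi f hf]

end

/-- **Lin2.** Elementary properties of `Zs`, `Ts`, `Ker`. -/
theorem tLin2 : S_Lrb → S_Uni2 → S_Act → S_Lin2 := by
  intro hL hU hA p _ G _ _ _ S d ω D T hω h2 hT n Λ _ π hR χ hχ
  obtain ⟨c1, c2, c3⟩ := Lin2_core hL hU hA hω h2 hT hR hχ
  -- the residue map
  have hrs : 1 ≤ n → ∃ r : Λ →+ ZMod p, (∀ x, r x = rs π x) ∧ (∀ g x, r (χ g * x) = ω g * r x) ∧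
      ∀ x, r x = 0 ↔ ∃ y, x = π * y := by
    intro h0
    obtain ⟨r1, r2, r3, r4, r5, r6⟩ := (hL p n Λ π hR).2.2.2.2.2.1 h0
    have hπ : ∀ y, rs (p := p) π (π * y) = 0 := fun y => (r4 _).2 ⟨y, rfl⟩
    have hχr : ∀ g, rs (p := p) π (χ g) = ω g := by
      intro g
      obtain ⟨y, hy⟩ := hχ.red g
      rw [hy, r1, hπ, add_zero, r5, ZMod.natCast_zmod_val]
    exact ⟨AddMonoidHom.mk' (fun x => rs π x) r1, fun x => rfl, fun g x => by
      show rs π (χ g * x) = ω g * rs π x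
      rw [r2, hχr], r4⟩
  refine ⟨c1, c2, ?_, ?_, ?_, ?_, ?_, ?_, ?_⟩
  · -- additivity
    intro y y' j
    have h3 := c2 _ _ (Lin2_isS_add (c1 y) (c1 y'))
    unfold Ts
    rw [← h3, Lin2_psi_add]
  · -- multiples
    intro c y j
    exact Lin2_Ts (AddMonoidHom.mulLeft c) (fun g x => by
      show c * (χ g * x) = χ g * (c * x)
      ring) c1 c2 y j
  · -- ring homomorphisms
    intro m Λ' _ f hR' y j
    obtain ⟨_, d2, _⟩ := Lin2_core hL hU hA hω h2 hT hR' (Lin2_chr_map hχ f)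
    exact Lin2_Ts (χ' := fun g => f (χ g)) (f : Λ →+ Λ') (fun g x => map_mul f _ _) c1 d2 y j
  · -- the extra tests are divisible by `π`
    intro y j
    rcases Nat.eq_zero_or_pos n with h0 | h0
    · subst h0
      have h1 : (1 : Λ) = 0 := by rw [← hR.nil, pow_zero]
      exact ⟨0, by rw [← one_mul (Ts T (rL χ) y j), h1, zero_mul, mul_zero]⟩
    · obtain ⟨r, -, hr, hr0⟩ := hrs h0
      have h3 := Lin2_isS (χ' := ω) r hr (c1 y)
      have h4 := hT.t0 _ h3.coc h3.ts j
      rw [← hr0]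
      have h5 := Lin2_psi (χ' := ω) r hr (Zs T (rL χ) y) (T.u j) (T.e j)
      exact h5.symm.trans h4
  · -- the level `n - 1`
    intro m Λ' _ f hmn hR' hf y
    subst hmn
    have hfs : Function.Surjective f := Lin2_surj f hR'
    have hwd : ∀ x y, f x = f y → π * x = π * y := by
      intro x y hxy
      obtain ⟨z, hz⟩ := (hf (x - y)).1 (by rw [map_sub, hxy, sub_self])
      have h3 : π * (x - y) = π ^ (m + 1) * z := by rw [hz]; ring
      rw [hR.nil, zero_mul, mul_sub] at h3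
      exact sub_eq_zero.1 h3
    -- multiplication by `π`
    let q : Λ' → Λ := fun x => π * (hfs x).choose
    have hq : ∀ y, q (f y) = π * y := fun y => hwd _ _ (hfs (f y)).choose_spec
    obtain ⟨d1, _, _⟩ := Lin2_core hL hU hA hω h2 hT hR' (Lin2_chr_map hχ f)
    have hqadd : ∀ x y, q (x + y) = q x + q y := by
      intro x y
      obtain ⟨x', rfl⟩ := hfs x
      obtain ⟨y', rfl⟩ := hfs y
      rw [← map_add, hq, hq, hq, mul_add]
    have hqmul : ∀ c x, q (f c * x) = c * q x := by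
      intro c x
      obtain ⟨x', rfl⟩ := hfs x
      rw [← map_mul, hq, hq]
      ring
    have hq0 : ∀ x, q x = 0 ↔ x = 0 := by
      intro x
      obtain ⟨x', rfl⟩ := hfs x
      rw [hq]
      constructor
      · intro h
        rw [hf]
        have h8 := ((hL p (m + 1) Λ π hR).2.2.2.2.2.2.1 1 (by omega) x').1 (by rw [pow_one, h])
        simpa using h8
      · intro h
        have h8 : f x' = f 0 := by rw [h, map_zero]
        rw [hwd _ _ h8, mul_zero]
    have h5 : ∀ j, Ts T (rL χ) (fun k => π * y k) j =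
        q (Ts T (rL fun g => f (χ g)) (fun k => f (y k)) j) := by
      intro j
      have h6 := Lin2_Ts (χ := fun g => f (χ g)) (χ' := χ) (AddMonoidHom.mk' q hqadd)
        (fun g x => hqmul (χ g) x) d1 c2 (fun k => f (y k)) j
      have h7 : (fun k => (AddMonoidHom.mk' q hqadd) (f (y k))) = fun k => π * y k :=
        funext fun k => hq (y k)
      rw [h7] at h6
      exact h6
    constructor
    · intro h j
      have h9 := h j
      rw [h5, hq0] at h9
      exact h9
    · intro h j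
      rw [h5, hq0]
      exact h j
  · -- the kernel
    have hker : ∀ z ∈ Ker (rL χ) D, IsS T (rL χ) (fun k => T.co z k) z := fun z hz =>
      ⟨hz.1, fun i => hz.2 _ _ (hT.ti i), fun k => rfl⟩
    refine ⟨?_, ?_, ?_⟩
    · intro z hz j
      have h3 := c2 _ _ (hker z hz)
      show psi (rL χ) (Zs T (rL χ) fun k => T.co z k) (T.u j) (T.e j) = 0
      rw [← h3]
      exact hz.2 _ _ (hT.ej j)
    · intro z hz z' hz' h
      have h' : (fun k => T.co z k) = fun k => T.co z' k := h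
      rw [c2 _ _ (hker z hz), c2 _ _ (hker z' hz'), h']
    · intro y hy
      refine ⟨Zs T (rL χ) y, ⟨(c1 y).coc, fun w g hg => ?_⟩, funext fun k => (c1 y).co k⟩
      have hc := Lin2_cocpsi hχ (c1 y).coc w
      have hf : (fun g : D w => psi (rL χ) (Zs T (rL χ) y) w (g : G)) = 0 := by
        refine c3 w _ ⟨hc.loc.comp_continuous continuous_subtype_val,
          fun g h => hc.mul g h⟩ ?_ ?_
        · intro i g hi hgi
          show psi (rL χ) (Zs T (rL χ) y) w (g : G) = 0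
          rw [hgi, ← hi]
          exact (c1 y).ts i
        · intro j g hj hgj
          show psi (rL χ) (Zs T (rL χ) y) w (g : G) = 0
          rw [hgj, ← hj]
          exact hy j
      exact congrFun hf ⟨g, hg⟩
  · -- the reduction
    intro h0 z hz
    obtain ⟨r, hr1, hr, -⟩ := hrs h0
    have he : ((fun g => rs π (z.1 g), fun w => rs π (z.2 w)) : (G → ZMod p) × (S → ZMod p)) =
        (fun g => r (z.1 g), fun w => r (z.2 w)) := by
      simp only [hr1]
    rw [he]
    have h3 := Lin2_coc (χ' := ω) r hr hz.1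
    refine ⟨h3, fun w g hg => ?_⟩
    have h4 := Lin2_psi (χ' := ω) r hr z w g
    rw [hz.2 w g hg, map_zero] at h4
    exact h4

end Pool.Agent.MP72P
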