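import Pool.Agent.Lib.MP_72e2e6_nt.P3.A2.Spec

/-!
# MP_72e2e6_nt, theorem T3p, part A2: level `ZMod p`
-/

namespace Pool.Agent.MP72P

open Finset

section

variable {p : ℕ} {G S : Type} [Group G] [TopologicalSpace G] {d : ℕ} {ω : G → ZMod p}

private theorem Lvl_cob (hω : ChO p ω) (b : ZMod p) :
    Coc (fun g (x : ZMod p) => ω g * x) (fun g => b - ω g * b) where
  loc := hω.loc.comp (fun y => b - y * b)
  mul g h := by
    show b - ω (g * h) * b = b - ω g * b + ω g * (b - ω h * b)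
    rw [hω.mul]
    ring

private theorem Lvl_coc (hω : ChO p ω) {z : (G → ZMod p) × (S → ZMod p)}
    (hz : Coc (fun g (x : ZMod p) => ω g * x) z.1) (w : S) :
    Coc (fun g (x : ZMod p) => ω g * x) (fun g => psi (fun g (x : ZMod p) => ω g * x) z w g) where
  loc := (hz.loc.prodMk hω.loc).comp (fun q => q.1 - (z.2 w - q.2 * z.2 w))
  mul g h := by
    show z.1 (g * h) - (z.2 w - ω (g * h) * z.2 w) =
      z.1 g - (z.2 w - ω g * z.2 w) + ω g * (z.1 h - (z.2 w - ω h * z.2 w))
    rw [hω.mul, hz.mul]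
    ring

end

/-- **Lvl.** Level `ZMod p`. -/
theorem tLvl : S_Uni2 → S_Lvl := by
  intro _ p _ G _ _ _ S d ω D T hω _ hT
  have hfin : {i : T.I | (0 : T.I → ZMod p) i ≠ 0}.Finite := by
    have : {i : T.I | (0 : T.I → ZMod p) i ≠ 0} = ∅ := by
      ext i
      simp
    rw [this]
    exact Set.finite_empty
  have hbij : Set.BijOn (fun z : (G → ZMod p) × (S → ZMod p) => (T.co z : Fin (d + 1) → ZMod p))
      (Ker (fun g (x : ZMod p) => ω g * x) D) Set.univ := by
    refine ⟨fun _ _ => Set.mem_univ _, ?_, ?_⟩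
    · intro z hz z' hz' h
      have h' : ∀ k, T.co z k = T.co z' k := fun k => congrFun h k
      obtain ⟨z₀, -, hu⟩ := hT.ue 0 hfin (fun k => T.co z' k)
      rw [hu z ⟨hz.1, fun i => hz.2 _ _ (hT.ti i), h'⟩,
        hu z' ⟨hz'.1, fun i => hz'.2 _ _ (hT.ti i), fun k => rfl⟩]
    · intro c _
      obtain ⟨z, ⟨h1, h3, h4⟩, -⟩ := hT.ue 0 hfin c
      refine ⟨z, ⟨h1, fun w g hg => ?_⟩, funext h4⟩
      have h5 := hT.t0 z h1 h3
      have hc := Lvl_coc (S := S) hω h1 w
      have hf : (fun g : D w => psi (fun g (x : ZMod p) => ω g * x) z w (g : G)) = 0 := by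
        refine hT.det w _ ⟨hc.loc.comp_continuous continuous_subtype_val,
          fun g h => hc.mul g h⟩ ?_ ?_
        · intro i g hi hgi
          show psi (fun g (x : ZMod p) => ω g * x) z w (g : G) = 0
          rw [hgi, ← hi]
          exact h3 i
        · intro j g hj hgj
          show psi (fun g (x : ZMod p) => ω g * x) z w (g : G) = 0
          rw [hgj, ← hj]
          exact h5 j
      exact congrFun hf ⟨g, hg⟩
  refine ⟨hbij, ?_, ?_⟩
  · rw [hbij.ncard_eq, Set.ncard_univ, Nat.card_fun, Nat.card_zmod, Nat.card_fin]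
  · rintro z ⟨b, hb, hb'⟩
    have hz1 : z.1 = fun g => b - ω g * b := funext hb
    refine ⟨?_, fun w g _ => ?_⟩
    · rw [hz1]
      exact Lvl_cob hω b
    · show z.1 g - (z.2 w - ω g * z.2 w) = 0
      rw [hz1, hb' w]
      ring

end Pool.Agent.MP72P
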