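import Pool.Agent.Lib.MP_72e2e6_nt.P3.A2.Defs
import Pool.Agent.Lib.MP_72e2e6_nt.P3.A.Spec

/-!
# MP_72e2e6_nt, theorem T3p, part A2 (abstract part, second version)

The proofs are complete in the docstrings; every module is independent (used statements are
hypotheses): file `P3/A2/<Name>.lean` (import this file only) with `theorem t<Name> : S_<Name>` or
`theorem t<Name> (h1 : S_X) (h2 : S_Y) .. : S_<Name>` (the used statements in the order of the
docstring), namespace `Pool.Agent.MP72P`, other declarations `private`. The modules `P3/A/<Name>.lean`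
(Uni, Lin, Der, Zet, EqM, EqN, Cnt, ThA, Dual) prove very similar statements: look at them. `rL χ` is the
action of `G` on `Λ` by the character `χ`.
-/

namespace Pool.Agent.MP72P

open Finset

/-- **UniF** (350 lines, uses `S_Fix`; the main lemma of existence and uniqueness). Unique existence of
pairs with given (finitely supported) tests and given coordinates: from `ZMod p` to every finite
`p`-group `M` with an action of the type `ActP`.

Proof by strong induction on `Nat.card M` (for all `M`, `ρ`), see `P3/A/Uni.lean`. If `M` is trivial everything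
is `0`. Otherwise let `m₁` be as in `S_Fix`, `N = {c.val • m₁ | c ∈ ZMod p}` (an additive subgroup of order `p`, `G` acts
on it by `ω`); `ρ` induces an action of the type `ActP` on `M ⧸ N`. The data (crossed homomorphism, tests,
coordinates) are additive in `z`.
Uniqueness: the difference `z = (f, b)` of two solutions has the tests and coordinates `0`; modulo `N` it is
`0` by induction; so `f g = (H g).val • m₁`, `b s = (b' s).val • m₁`, `(H, b')` is a pair for `ZMod p`, `ω` with tests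
and coordinates `0`, so it is `0`.
Existence: let `(f'', b'')` be the solution in `M ⧸ N` for the images of `v`, `c`, let `s` be a section of
`M → M ⧸ N` with `s 0 = 0`, `f' = s ∘ f''`, `b' = s ∘ b''`. Then
`f' g + ρ g (f' h) - f' (g h) = (q g h).val • m₁` with `q` locally constant and
`ω a * q b d - q (a b) d + q a (b d) - q a b = 0`. By `H2Z` `q g h = b₁ g + ω g * b₁ h - b₁ (g h)`;
`f₁ g = f' g - (b₁ g).val • m₁` is a crossed homomorphism. The differences between the tests of `(f₁, b')` and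
`v` are in `N`: `= (r i).val • m₁`, and `r i = 0` for all but finitely many `i`: the set of the `g` with
`f₁ g = 0` (`f₁ 1 = 0`) and `ρ g x = x` for all `x ∈ M` is open and contains `1` (`Coc.loc`, `ActP.loc`), and `v` has
finite support. The differences of the coordinates are `(r' k).val • m₁`. Let `(H, b₂)` be the pair for
`ZMod p` with the tests `r` and the coordinates `r'`; subtract `((H g).val • m₁, (b₂ s).val • m₁)`. -/
def S_UniF : Prop :=
  ∀ (p : ℕ) [Fact p.Prime] (G : Type) [Group G] [TopologicalSpace G] [IsTopologicalGroup G]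
    (S I Y : Type) (ω : G → ZMod p) (o : I → Option S) (t : I → G) (y : Y → G ⊕ S), ChO p ω →
    H2Z p ω → (∀ N : Set G, IsOpen N → 1 ∈ N → {i | t i ∉ N}.Finite) →
    (∀ v : I → ZMod p, {i | v i ≠ 0}.Finite → ∀ c : Y → ZMod p,
      ∃! z : (G → ZMod p) × (S → ZMod p), Coc (fun g (x : ZMod p) => ω g * x) z.1 ∧
        (∀ i, psO (fun g (x : ZMod p) => ω g * x) z (o i) (t i) = v i) ∧
        ∀ k, Sum.elim z.1 z.2 (y k) = c k) →
    ∀ (M : Type) [AddCommGroup M] [Finite M] (r : ℕ), Nat.card M = p ^ r →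
      ∀ ρ : G → M → M, ActP p ω ρ → ∀ v : I → M, {i | v i ≠ 0}.Finite → ∀ c : Y → M,
      ∃! z : (G → M) × (S → M), Coc ρ z.1 ∧ (∀ i, psO ρ z (o i) (t i) = v i) ∧
        ∀ k, Sum.elim z.1 z.2 (y k) = c k

/-- **Uni2** (200 lines, uses `S_Fix`, `S_UniF`). The same for test systems; and a crossed homomorphism on
`D w` which vanishes at all tests is `0`.

Proof. (1) `S_UniF` with `o i = some (T.w i)`. (2) Strong induction on `Nat.card M` with `m₁` from `S_Fix` (for `G`)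
as in `S_UniF`: modulo `N` the function `f` is `0` by induction, so `f g = (H g).val • m₁`, and `H` is `0` by
`T.Ok.det`. -/
def S_Uni2 : Prop :=
  ∀ (p : ℕ) [Fact p.Prime] (G : Type) [Group G] [TopologicalSpace G] [IsTopologicalGroup G]
    (S : Type) (d : ℕ) (ω : G → ZMod p) (D : S → Subgroup G) (T : Tst G S d), ChO p ω → H2Z p ω →
    T.Ok p ω D → ∀ (M : Type) [AddCommGroup M] [Finite M] (r : ℕ), Nat.card M = p ^ r →
      ∀ ρ : G → M → M, ActP p ω ρ →
      (∀ v : T.I → M, {i | v i ≠ 0}.Finite → ∀ c : Fin (d + 1) → M,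
        ∃! z : (G → M) × (S → M), Coc ρ z.1 ∧ (∀ i, psi ρ z (T.w i) (T.t i) = v i) ∧
          ∀ k, T.co z k = c k) ∧
      ∀ (w : S) (f : D w → M), Coc (fun g : D w => ρ g) f →
        (∀ (i : T.I) (g : D w), T.w i = w → (g : G) = T.t i → f g = 0) →
        (∀ (j : Fin d) (g : D w), T.u j = w → (g : G) = T.e j → f g = 0) → f = 0

/-- **Act2** (150 lines). The action on `E_m` is of the type `ActP`.

Proof. `rE ω δ g (rE ω δ h f) I = ω g * ω h * ∑_{C ⊆ I} (∑_{A ⊆ C} (∏ j ∈ A, δ j g) * ∏ j ∈ C \ A, δ j h) * f (I \ C)` and the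
inner sum is `∏ j ∈ C, (δ j g + δ j h)` (`Finset.prod_add`). `ω 1 = 1`, `δ j 1 = 0`, so `rE ω δ 1 = id`. For `k ≥ 1`
`δ j (g ^ p ^ k) = p ^ k * δ j g = 0`, so `rE ω δ (g ^ p ^ k) f = (ω g) ^ p ^ k • f`. Locally constant: `ω`, `δ j`
are locally constant. -/
def S_Act2 : Prop :=
  ∀ (p : ℕ) [Fact p.Prime] (G : Type) [Group G] [TopologicalSpace G] [IsTopologicalGroup G]
    (ω : G → ZMod p), ChO p ω → ∀ (m : ℕ) (δ : Fin m → G → ZMod p), (∀ i, HomP p (δ i)) →
      ActP p ω (rE ω δ)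

/-- **Lin2** (300 lines, uses `S_Lrb`, `S_Uni2`, `S_Act`). Elementary properties of `Zs`, `Ts`, `Ker` for
characters `χ : G → Λ`.

Proof. (1), (2): `S_Uni2` with `v = 0` (`rL χ` is of the type `ActP`, `S_Act`). (3), (4): sums and multiples of
solutions are solutions. (5) the image of the solution under `f` is the solution for the images. (6) by (5)
for the residue map and `T.Ok.t0`: `(rs π ∘ f, rs π ∘ b)` for `Zs T (rL χ) y = (f, b)` is a pair for `ZMod p`, `ω` with the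
tests `0`; so its extra tests are `0`, i.e. the extra tests of `Zs` are in `(π)` (for `n ≥ 1`; for `n = 0` all
elements are `0`). (7): if `n = m + 1` and `f` has kernel `π ^ m Λ`, there is an injective additive map
`q : Λ' → Λ` with `q (f x) = π x` (`S_Lrb`: `π x = 0` iff `x ∈ π ^ m Λ`), `q (f c * y) = c * q y`; `q` applied to the
solution for `f ∘ χ`, `f ∘ y` is the solution for `χ`, `π y`. (8) if `z ∈ Ker` then the tests and the extra
tests of `z` are `0` (`ti`, `ej`), so `z = Zs T (rL χ) (T.co z)` and the `Ts` are `0`; conversely if the `Ts` are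
`0`, then for `z = Zs T (rL χ) y` and every `w` the function `psi (rL χ) z w` on `D w` is a crossed homomorphism
(the difference of the crossed homomorphism `z.1` and the function `g ↦ b - χ g b`) which vanishes at all tests,
so it is `0` by `S_Uni2` (2). (9) the reduction of `(f, b) ∈ Ker` is in the kernel for `ZMod p`. -/
def S_Lin2 : Prop :=
  ∀ (p : ℕ) [Fact p.Prime] (G : Type) [Group G] [TopologicalSpace G] [IsTopologicalGroup G]
    (S : Type) (d : ℕ) (ω : G → ZMod p) (D : S → Subgroup G) (T : Tst G S d), ChO p ω → H2Z p ω →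
    T.Ok p ω D → ∀ (n : ℕ) (Λ : Type) [CommRing Λ] (π : Λ), LR p n π → ∀ χ : G → Λ, Chr π ω χ →
      (∀ y, IsS T (rL χ) y (Zs T (rL χ) y)) ∧
      (∀ y z, IsS T (rL χ) y z → z = Zs T (rL χ) y) ∧
      (∀ y y' j, Ts T (rL χ) (y + y') j = Ts T (rL χ) y j + Ts T (rL χ) y' j) ∧
      (∀ (c : Λ) y j, Ts T (rL χ) (fun k => c * y k) j = c * Ts T (rL χ) y j) ∧
      (∀ (m : ℕ) (Λ' : Type) [CommRing Λ'] (f : Λ →+* Λ'), LR p m (f π) → ∀ y j,
        Ts T (rL fun g => f (χ g)) (fun k => f (y k)) j = f (Ts T (rL χ) y j)) ∧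
      (∀ y j, ∃ x, Ts T (rL χ) y j = π * x) ∧
      (∀ (m : ℕ) (Λ' : Type) [CommRing Λ'] (f : Λ →+* Λ'), m + 1 = n → LR p m (f π) →
        (∀ x, f x = 0 ↔ ∃ y, x = π ^ m * y) → ∀ y : Fin (d + 1) → Λ,
        (∀ j, Ts T (rL χ) (fun k => π * y k) j = 0) ↔
          ∀ j, Ts T (rL fun g => f (χ g)) (fun k => f (y k)) j = 0) ∧
      Set.BijOn (fun z : (G → Λ) × (S → Λ) => (T.co z : Fin (d + 1) → Λ)) (Ker (rL χ) D)
        {y | ∀ j, Ts T (rL χ) y j = 0} ∧
      (1 ≤ n → ∀ z ∈ Ker (rL χ) D, ((fun g => rs π (z.1 g), fun w => rs π (z.2 w)) :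
        (G → ZMod p) × (S → ZMod p)) ∈ Ker (fun g (x : ZMod p) => ω g * x) D)

/-- **Lvl** (120 lines, uses `S_Uni2`). Level `ZMod p`.

Proof. (1) `z ↦ T.co z` is a bijection from `Ker` to all functions: injective by `ue` (`v = 0`; the tests of an
element of `Ker` are `0` by `ti`). Surjective: let `z` be the pair with tests `0` and coordinates `c`; the extra
tests are `0` (`t0`), so `z ∈ Ker` by `det` (`psi` is a crossed homomorphism on `D w`). (2) the constant pairs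
`(b - ω b, b)`, `b ∈ ZMod p`, are in `Ker`; their number is `p` if `S` is not empty. -/
def S_Lvl : Prop :=
  ∀ (p : ℕ) [Fact p.Prime] (G : Type) [Group G] [TopologicalSpace G] [IsTopologicalGroup G]
    (S : Type) (d : ℕ) (ω : G → ZMod p) (D : S → Subgroup G) (T : Tst G S d), ChO p ω → H2Z p ω →
    T.Ok p ω D →
      Set.BijOn (fun z : (G → ZMod p) × (S → ZMod p) => (T.co z : Fin (d + 1) → ZMod p))
        (Ker (fun g (x : ZMod p) => ω g * x) D) Set.univ ∧
      (Ker (fun g (x : ZMod p) => ω g * x) D).ncard = p ^ (d + 1) ∧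
      ∀ z : (G → ZMod p) × (S → ZMod p), IsCs (fun g (x : ZMod p) => ω g * x) z →
        z ∈ Ker (fun g (x : ZMod p) => ω g * x) D

/-- **Der2** (350 lines, uses `S_Lrb`, `S_Uni2`, `S_Act`, `S_Act2`, `S_Lin2`). The `(m + 1)`-st derivative of `Ts` in
the directions `δ 0, ..., δ m`.

Proof. Let `V = Fin (m + 1) → ZMod p`, `n = m + 2`, and for `g ∈ G` let `δ(g) ∈ V` be the vector of the
`δ i g`. Let `M = V → Λ` with the operators `(ρ g f) τ = ψ g * f (τ - δ(g))` (`S_Act`), and let `𝓩 = (C, B)` be the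
pair for `M` with the tests `0` and the coordinates `T.co 𝓩 k = (τ ↦ if τ = 0 then y k else 0)` (`S_Uni2`).
(a) For `c : Fin (m + 1) → Bool` let `c · τ = ∑_{c i} τ i` and `χ_c g = ψ g * ζ ^ (c · δ(g))`, `ζ = 1 - π`
(`χ_c = tw π ψ (..)`). The additive map `e_c : M → Λ`, `f ↦ ∑ τ, ζ ^ (c · τ) * f τ` satisfies
`e_c (ρ g f) = χ_c g * e_c f` (substitute `τ ↦ τ + δ(g)`). So `(e_c ∘ C, e_c ∘ B)` is the solution for `χ_c` and `y`
(`S_Lin2` (2)), and `Ts T (rL χ_c) y j = e_c F` with `F = psi ρ 𝓩 (T.u j) (T.e j) ∈ M`.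
(b) `∑ c, (∏ i, sb (c i)) • e_c F = ∑ τ, F τ * ∏ i, (1 - ζ ^ (τ i))`, and `1 - ζ ^ (τ i) = (τ i).val π + π ^ 2 (..)`; as
`π ^ (m + 2) = 0` this is `π ^ (m + 1) * ∑ τ, F τ * ∏ i, (τ i).val`, which depends only on the residue classes: it
is `π ^ (m + 1) * (∑ τ, (∏ i, τ i) * rs π (F τ)).val`.
(c) The additive map `e : M → E = (Finset (Fin (m + 1)) → ZMod p)`, `(e f) I = ∑ τ, (∏ i ∈ I, τ i) * rs π (f τ)`
satisfies `e (ρ g f) = rE ω δ g (e f)`: substitute `τ ↦ τ + δ(g)` and expand `∏ i ∈ I, (τ i + δ i g)`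
(`Finset.prod_add`); `rs π (ψ g * x) = ω g * rs π x` (`Chr.red`, `S_Lrb`). So `(e ∘ C, e ∘ B)` has the tests `0` and the
coordinates `I ↦ (∏ i ∈ I, 0) * rs π (y k) = if I = ∅ then rs π (y k) else 0`. By uniqueness (`S_Uni2` for `E`, `S_Act2`)
it is `ζ`. So `psi (rE ω δ) ζ (T.u j) (T.e j) univ = (e F) univ = ∑ τ, (∏ i, τ i) * rs π (F τ)`. -/
def S_Der2 : Prop :=
  ∀ (p : ℕ) [Fact p.Prime] (G : Type) [Group G] [TopologicalSpace G] [IsTopologicalGroup G]
    (S : Type) (d : ℕ) (ω : G → ZMod p) (D : S → Subgroup G) (T : Tst G S d), ChO p ω → H2Z p ω →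
    T.Ok p ω D → ∀ (m : ℕ) (Λ : Type) [CommRing Λ] (π : Λ), LR p (m + 2) π →
    ∀ ψ : G → Λ, Chr π ω ψ → ∀ δ : Fin (m + 1) → G → ZMod p, (∀ i, HomP p (δ i)) →
    ∀ (y : Fin (d + 1) → Λ)
      (ζ : (G → Finset (Fin (m + 1)) → ZMod p) × (S → Finset (Fin (m + 1)) → ZMod p)),
      Coc (rE ω δ) ζ.1 → (∀ i, psi (rE ω δ) ζ (T.w i) (T.t i) = 0) →
      (∀ k I, T.co ζ k I = if I = ∅ then rs π (y k) else 0) →
      ∀ j, ∑ c : Fin (m + 1) → Bool, (∏ i, sb (c i)) •
          Ts T (rL (tw π ψ (fun g => ∑ i, if c i then δ i g else 0))) y j =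
        π ^ (m + 1) * (((psi (rE ω δ) ζ (T.u j) (T.e j) univ : ZMod p).val : ℕ) : Λ)

/-- **The2** (350 lines, uses `S_Lrb`, `S_Uni2`, `S_Act`, `S_Act2`, `S_Der2`). The derivative as an additive
function of the first direction.

Proof. For `x ∈ X` let `δ_x i = A.h ((Fin.cons x δ) i)`, a `HomP` for all `i`, `E = (Finset (Fin (m + 1)) → ZMod p)`. By
`S_Uni2` (for `E`, `rE A.ω δ_x`, `S_Act2`) there is exactly one pair `ζ_x` with `Coc (rE A.ω δ_x) ζ_x.1`, the tests `0`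
and the coordinates `I ↦ if I = ∅ then T.co z k else 0`. Let `Θ x j = psi (rE A.ω δ_x) ζ_x (T.u j) (T.e j) univ`. The
second property is `A.Good.nd`. The third is `S_Der2` for the character `tw π ψ (A.h D)` (a `Chr`, `S_Act` with
`m = 1`), the homomorphisms `δ_x` and `ζ_x`; `tw π (tw π ψ (A.h D)) (fun g => ∑ i, if c i then δ_x i g else 0) =
tw π ψ (A.h (D + ∑ ..))` (`zt` is multiplicative, `A.h` additive, `A.h 0 = 0`).
Additivity: (a) for `I` with `0 ∉ I` the coefficients `ζ_x.1 g I`, `ζ_x.2 w I` do not depend on `x`: the map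
`E → E' = (Finset (Fin m) → ZMod p)`, `f ↦ (I' ↦ f (I'.map Fin.succEmb))` is compatible with the actions
`rE A.ω δ_x` and `rE A.ω (fun i => A.h (δ i))` (the subsets of `I'.map succ` are the images of the subsets of
`I'`), so the images of the `ζ_x` are the unique pair for `E'` with the same data. (b) Let `ξ I = ζ_x I` for
`0 ∉ I` and `ξ I = ζ_x I + ζ_y I` for `0 ∈ I` (for both components). For every `f_x, f_y ∈ E` with
`f_x I = f_y I` for all `I` with `0 ∉ I` and `f` defined in the same way, we have for `0 ∈ I`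
`(rE A.ω δ_(x+y) g f) I = (rE A.ω δ_x g f_x) I + (rE A.ω δ_y g f_y) I` (split the sum over `A ⊆ I` into `0 ∉ A` and
`0 ∈ A`; in the second part `δ 0` is `A.h (x + y) g = A.h x g + A.h y g` and `f (I \ A) = f_x (I \ A) = f_y (I \ A)`), and
for `0 ∉ I` `(rE A.ω δ_(x+y) g f) I = (rE A.ω δ_x g f_x) I`. So `ξ` has the properties of `ζ_(x+y)` and equals
it, and `Θ (x + y) j = Θ x j + Θ y j`. -/
def S_The2 : Prop :=
  ∀ (p : ℕ) [Fact p.Prime] (G : Type) [Group G] [TopologicalSpace G] [IsTopologicalGroup G]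
    (S X : Type) [AddCommGroup X] (d : ℕ) (A : Fm p G S X) (T : Tst G S d) (N0 : AddSubgroup X),
    A.Good T N0 → ∀ z ∈ Ker (fun g (x : ZMod p) => A.ω g * x) A.D,
      ¬ IsCs (fun g (x : ZMod p) => A.ω g * x) z → ∀ (m : ℕ) (δ : Fin m → X), (∀ i, δ i ∈ A.B) →
      (∀ c : Fin m → ZMod p, ∑ i, (c i).val • δ i ∈ N0 → c = 0) →
      ∃ Θ : X → Fin d → ZMod p, (∀ x y j, Θ (x + y) j = Θ x j + Θ y j) ∧
        (∀ η : Fin d → ZMod p, η ≠ 0 → ∃ x, ∑ j, η j * Θ x j ≠ 0) ∧
        ∀ (Λ : Type) [CommRing Λ] (π : Λ), LR p (m + 2) π → ∀ ψ : G → Λ, Chr π A.ω ψ →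
          ∀ y : Fin (d + 1) → Λ, (∀ k, rs π (y k) = T.co z k) → ∀ (x D : X) (j : Fin d),
            ∑ c : Fin (m + 1) → Bool, (∏ i, sb (c i)) •
                Ts T (rL (tw π ψ (A.h (D + ∑ i, if c i then
                  (Fin.cons x δ : Fin (m + 1) → X) i else 0)))) y j =
              π ^ (m + 1) * (((Θ x j : ZMod p).val : ℕ) : Λ)

/-- **EqM2** (300 lines, uses `S_Lrb`, `S_Vdc`, `S_The2`). Equidistribution for `n = m + 2 ≥ 2`.

Proof. Let `f D = ∑ j, η j * Ts T (rL (tw π ψ (A.h D))) y j`, `η̄ j = rs π (η j)`, `η̄ ≠ 0`. By `A.big` there is `e'`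
such that `H' = A.F e' ⊓ A.B`, `G₀ = {x ∈ H' | x ∈ N0}` satisfy `p ^ m * #G₀ ≤ ε ^ (2 ^ (m + 1)) * #H'` (choose `B` large). For
`δ = (δ 0, ..., δ (m - 1)) ∈ H' ^ m` call `δ` good if it is independent modulo `N0` in the sense of `S_The2`. The number
of `δ` which are not good is at most `p ^ m * #G₀ * #H' ^ (m - 1)`: for `c ≠ 0` the relation
`∑ (c i).val • δ i ∈ N0`, for some `i` with `c i ≠ 0`, determines `(c i).val • δ i` modulo `G₀` by the others; and
`(c i).val • x ∈ N0` iff `x ∈ N0` (multiply by an inverse of `c i` modulo `p`; `A.pn`), so there are at most `#G₀`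
values of `δ i` for given others. (For `m = 0` there is one `δ`, and it is good.) For every good `δ` let `Θ_δ` be
as in `S_The2` and for every `η' : Fin d → ZMod p`, `η' ≠ 0`, let `x` be as there; these finitely many `x` are all in
`A.F e₁` for some `e₁` (`A.exh`, `A.mono`). Let `e₀` be the maximum of `e'` and the (finitely many) `e₁`. Let `𝒟` be a
finite subgroup containing `A.F e₀`. Apply `S_Vdc` with `H 0 = A.F e₀`, `H j.succ = H'`. For good `δ` and
`x ∈ H 0` put `t x = ∑ j, η̄ j * Θ_δ x j ∈ ZMod p`, a nonzero homomorphism on `H 0`. By `S_The2` the inner sum of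
`S_Vdc` is `#𝒟 * ∑_{x ∈ H 0} e (π ^ (m + 1) (t x).val) = 0` (`e (π ^ (m + 1)) ≠ 1`; `π ^ (m + 1) * x` depends only on
`rs π x`; orthogonality). For the other `δ` the term is at most `1`. See `P3/A/EqM.lean`. -/
def S_EqM2 : Prop :=
  ∀ (p : ℕ) [Fact p.Prime] (G : Type) [Group G] [TopologicalSpace G] [IsTopologicalGroup G]
    (S X : Type) [AddCommGroup X] (d : ℕ) (A : Fm p G S X) (T : Tst G S d) (N0 : AddSubgroup X),
    A.Good T N0 → ∀ z ∈ Ker (fun g (x : ZMod p) => A.ω g * x) A.D,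
      ¬ IsCs (fun g (x : ZMod p) => A.ω g * x) z → ∀ (m : ℕ) (Λ : Type) [CommRing Λ] (π : Λ),
      LR p (m + 2) π → ∀ ψ : G → Λ, Chr π A.ω ψ → ∀ y : Fin (d + 1) → Λ,
      (∀ k, rs π (y k) = T.co z k) → ∀ η : Fin d → Λ, (∃ j, IsUnit (η j)) →
      ∀ e : AddChar Λ ℂ, e (π ^ (m + 1)) ≠ 1 → ∀ ε : ℝ, 0 < ε → ∃ e₀ : ℕ, ∀ 𝒟 : AddSubgroup X,
        (𝒟 : Set X).Finite → A.F e₀ ≤ 𝒟 →
        ‖∑ᶠ D ∈ (𝒟 : Set X), e (∑ j, η j * Ts T (rL (tw π ψ (A.h D))) y j)‖ ≤ ε * Nat.card 𝒟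

/-- **EqN2** (150 lines, uses `S_Lrb`, `S_Lrq`, `S_Lrx`, `S_Lin2`, `S_EqM2`). Equidistribution for all `n`.

Proof. Write `η j = π ^ i * η' j` with `i` maximal such that all `η j ∈ π ^ i Λ`; some `η' j` is a unit
(`S_Lrb`: `η j = π ^ (i_j) * unit` or `0`; `i` is the minimum of the `i_j`). As some `π * η j ≠ 0`, `i + 2 ≤ n`. Let
`n' = n - i ≥ 2`, `Λ'`, `f` as in `S_Lrq` for `j = n'`, `e'` as in `S_Lrx` (4). As `f (Ts χ y) = Ts (f ∘ χ) (f ∘ y)`
(`S_Lin2` (5)), `e (∑ η j * Ts y j) = e (π ^ i * ∑ η' j * Ts y j) = e' (∑ f (η' j) * Ts' (f ∘ y) j)`, and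
`f ∘ tw π ψ h = tw (f π) (f ∘ ψ) h`, a `Chr`. Units map to units, `rs (f π) (f x) = rs π x`. Apply `S_EqM2` with
`m = n' - 2`. -/
def S_EqN2 : Prop :=
  ∀ (p : ℕ) [Fact p.Prime] (G : Type) [Group G] [TopologicalSpace G] [IsTopologicalGroup G]
    (S X : Type) [AddCommGroup X] (d : ℕ) (A : Fm p G S X) (T : Tst G S d) (N0 : AddSubgroup X),
    A.Good T N0 → ∀ z ∈ Ker (fun g (x : ZMod p) => A.ω g * x) A.D,
      ¬ IsCs (fun g (x : ZMod p) => A.ω g * x) z → ∀ (n : ℕ) (Λ : Type) [CommRing Λ] (π : Λ),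
      1 ≤ n → LR p n π → ∀ ψ : G → Λ, Chr π A.ω ψ → ∀ y : Fin (d + 1) → Λ,
      (∀ k, rs π (y k) = T.co z k) → ∀ η : Fin d → Λ, (∃ j, π * η j ≠ 0) →
      ∀ e : AddChar Λ ℂ, e (π ^ (n - 1)) ≠ 1 → ∀ ε : ℝ, 0 < ε → ∃ e₀ : ℕ, ∀ 𝒟 : AddSubgroup X,
        (𝒟 : Set X).Finite → A.F e₀ ≤ 𝒟 →
        ‖∑ᶠ D ∈ (𝒟 : Set X), e (∑ j, η j * Ts T (rL (tw π ψ (A.h D))) y j)‖ ≤ ε * Nat.card 𝒟

/-- **Cnt2** (200 lines, uses `S_Lrb`, `S_Lrx`, `S_Uni2`, `S_Lvl`, `S_Act`, `S_Lin2`, `S_EqN2`). The average number of the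
elements of `Ker` with a nonconstant reduction.

Proof. Let `n ≥ 1`. By `S_Lin2` (8) the elements `z'` of `Ker (rL χ) D` with nonconstant reduction correspond
to the `y : Fin (d + 1) → Λ` with `Ts y = 0` such that `rs ∘ y = T.co z` for a nonconstant `z ∈ Ker` of level `ZMod p`
(`S_Lin2` (9); `T.co` commutes with the reduction, `S_Lvl`). There are at most `(#Λ) ^ (d + 1) = p ^ (n (d + 1))` such
`y`. Let `e` be a character as in `S_Lrx` (1). For `t : Fin d → Λ` the number `(#Λ) ^ (- d) * ∑_η e (∑ η j * t j)` (all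
`η : Fin d → Λ`) is `1` if `t = 0` and `0` otherwise. Sum over `D ∈ 𝒟` and over the `y` (whose reduction is the
`T.co z` of a nonconstant `z`): the `η` with `π * η j = 0` for all `j` (there are `p ^ d` of them, `S_Lrb` (6))
contribute at most `1` each, together at most `(#Λ) ^ (- d) * p ^ d * (#Λ) ^ (d + 1) * #𝒟 = p ^ (n + d) * #𝒟`. For
the other `η` use `S_EqN2` with `ε' = ε / (#Λ) ^ (d + 1)`, and `e₀` the maximum over all `(y, η)` (`A.mono`). -/
def S_Cnt2 : Prop :=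
  ∀ (p : ℕ) [Fact p.Prime] (G : Type) [Group G] [TopologicalSpace G] [IsTopologicalGroup G]
    (S X : Type) [AddCommGroup X] (d : ℕ) (A : Fm p G S X) (T : Tst G S d) (N0 : AddSubgroup X),
    A.Good T N0 → ∀ (n : ℕ) (Λ : Type) [CommRing Λ] (π : Λ), 1 ≤ n → LR p n π →
      ∀ ψ : G → Λ, Chr π A.ω ψ → ∀ ε : ℝ, 0 < ε → ∃ e₀ : ℕ, ∀ 𝒟 : AddSubgroup X,
        (𝒟 : Set X).Finite → A.F e₀ ≤ 𝒟 →
        ∑ᶠ D ∈ (𝒟 : Set X), ({z : (G → Λ) × (S → Λ) | z ∈ Ker (rL (tw π ψ (A.h D))) A.D ∧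
            ¬ IsCs (fun g (x : ZMod p) => A.ω g * x)
              ((fun g => rs π (z.1 g), fun w => rs π (z.2 w)) :
                (G → ZMod p) × (S → ZMod p))}.ncard : ℝ) ≤
          (p ^ (n + d) + ε) * Nat.card 𝒟

/-- **ThA2** (250 lines, uses `S_Lrb`, `S_Lrq`, `S_Uni2`, `S_Act`, `S_Lin2`, `S_Cnt2`; the main theorem of part A2). The
average order of `Ker (χ_D)` is at most `p ^ n * (1 + n p ^ d + ε)`.

Proof by induction on `n` (for all `Λ`, `ψ`, `ε`). The kernels are finite (`S_Lin2` (8)). `n = 0`: `Λ` has one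
element, `Ker` has one element. Step from `n` to `n + 1`: let `z ∈ Ker χ` of level `n + 1` have the constant
reduction `(b - ω b, b)`, `b ∈ ZMod p`. Then `z = (b.val * (1 - χ), b.val) + z'`, `z' ∈ Ker χ` has the reduction `0`
(`z'.1 g`, `z'.2 w ∈ (π)` by `S_Lrb`). So the number of these `z` is at most `p` times the number of the
`z' ∈ Ker χ` with reduction `0` (the map `z ↦ (b, z')` is injective; if `S` is empty the reduction determines
`b - ω b` only, choose any `b`). Let `f : Λ → Λ'` be as in `S_Lrq` for `j = n`. An element `z' ∈ Ker χ` with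
reduction `0` corresponds to `y' = T.co z'` (`S_Lin2` (8)) with `y' = π y`, `Ts (π y) = 0`, and by `S_Lin2` (7)
`Ts (f ∘ χ) (f ∘ y) = 0`; `π y` determines `f ∘ y` and conversely. So the number of the `z'` is at most
`#Ker (f ∘ χ)` (`f ∘ tw π ψ h = tw (f π) (f ∘ ψ) h`). Hence `#Ker_{n + 1} ≤ #{nonconstant reduction} + p * #Ker_n`, and by
`S_Cnt2` (with `ε / 2`) and the induction hypothesis (with `ε / (2 p)`) the average is at most
`p ^ (n + 1 + d) + ε / 2 + p * (p ^ n * (1 + n p ^ d) + ..) ≤ p ^ (n + 1) * (1 + (n + 1) p ^ d + ε)`. -/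
def S_ThA2 : Prop :=
  ∀ (p : ℕ) [Fact p.Prime] (G : Type) [Group G] [TopologicalSpace G] [IsTopologicalGroup G]
    (S X : Type) [AddCommGroup X] (d : ℕ) (A : Fm p G S X) (T : Tst G S d) (N0 : AddSubgroup X),
    A.Good T N0 → ∀ (n : ℕ) (Λ : Type) [CommRing Λ] (π : Λ), LR p n π →
      ∀ ψ : G → Λ, Chr π A.ω ψ → ∀ ε : ℝ, 0 < ε → ∃ e₀ : ℕ, ∀ 𝒟 : AddSubgroup X,
        (𝒟 : Set X).Finite → A.F e₀ ≤ 𝒟 →
        ∑ᶠ D ∈ (𝒟 : Set X), ((Ker (rL (tw π ψ (A.h D))) A.D).ncard : ℝ) ≤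
          p ^ n * (1 + n * p ^ d + ε) * Nat.card 𝒟

/-- **Dual2** (150 lines). The number of the homomorphisms which vanish on the image of an additive
map. See `P3/A/Dual.lean`.

Proof. `θ ∘ T = 0` iff `θ` factors through `C / T(B)`, a finite abelian group killed by `N`, so the number
is `#Hom(C / T(B), ZMod N) = #(C / T(B)) = #C / #T(B) = #C * #ker T / #B`. -/
def S_Dual2 : Prop :=
  ∀ (N : ℕ) [NeZero N] (B C : Type) [AddCommGroup B] [AddCommGroup C] [Finite B] [Finite C]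
    (T : B →+ C), (∀ c : C, N • c = 0) →
    {θ : C →+ ZMod N | ∀ b, θ (T b) = 0}.Finite ∧
      {θ : C →+ ZMod N | ∀ b, θ (T b) = 0}.ncard * Nat.card B =
        Nat.card C * {b : B | T b = 0}.ncard

/-- **Us2** (100 lines, uses `S_Lrb`, `S_Lin2`, `S_Dual2`). The count for the reciprocity side.

Proof. `y ↦ Ts T (rL χ) y` is additive (`S_Lin2` (3)); `#B = p ^ (n (d + 1))`, `#C = p ^ (n d)`, and the kernel has
`#Ker` elements (`S_Lin2` (8)). -/
def S_Us2 : Prop :=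
  ∀ (p : ℕ) [Fact p.Prime] (G : Type) [Group G] [TopologicalSpace G] [IsTopologicalGroup G]
    (S : Type) (d : ℕ) (ω : G → ZMod p) (D : S → Subgroup G) (T : Tst G S d), ChO p ω → H2Z p ω →
    T.Ok p ω D → ∀ (n : ℕ) (Λ : Type) [CommRing Λ] (π : Λ), LR p n π → ∀ χ : G → Λ, Chr π ω χ →
    ∀ (N : ℕ) [NeZero N], (∀ x : Λ, (N : Λ) * x = 0) →
      {θ : (Fin d → Λ) →+ ZMod N | ∀ y, θ (Ts T (rL χ) y) = 0}.Finite ∧
      {θ : (Fin d → Λ) →+ ZMod N | ∀ y, θ (Ts T (rL χ) y) = 0}.ncard * p ^ n =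
        (Ker (rL χ) D).ncard

/-- **Vs2** (120 lines). The count for the other side: locally trivial classes.

Proof. For `c ∈ C` choose `a_c : S → M` with `c g = a_c w - ρ g (a_c w)` on `D w`. The map `C × M → Ker ρ D`,
`(c, b) ↦ (c + (b - ρ b), a_c + b)` is injective: if the images of `(c, b)`, `(c', b')` are equal then `c - c'` is a
coboundary (of `b' - b`), so `c = c'`, and `a_c w + b = a_c w + b'` for some `w`, so `b = b'`. -/
def S_Vs2 : Prop :=
  ∀ (G : Type) [Group G] [TopologicalSpace G] [IsTopologicalGroup G] (S : Type) [Nonempty S]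
    (D : S → Subgroup G) (M : Type) [AddCommGroup M] [Finite M] (ρ : G → M → M),
    (∀ g x y, ρ g (x + y) = ρ g x + ρ g y) → (∀ g h x, ρ (g * h) x = ρ g (ρ h x)) →
    (∀ x, IsLocallyConstant fun g => ρ g x) → (Ker ρ D).Finite →
    ∀ C : Set (G → M), (∀ c ∈ C, Coc ρ c ∧ ∀ w, ∃ a, ∀ g ∈ D w, c g = a - ρ g a) →
      (∀ c ∈ C, ∀ c' ∈ C, (∃ b, ∀ g, c g - c' g = b - ρ g b) → c = c') →
      C.Finite ∧ C.ncard * Nat.card M ≤ (Ker ρ D).ncard

end Pool.Agent.MP72P
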