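import Pool.Agent.Lib.MP_72e2e6_nt.P3.A2.Spec

/-!
# MP_72e2e6_nt, theorem T3p, part A2: the average order of `Ker` (ThA2)
-/

set_option autoImplicit false

namespace Pool.Agent.MP72P

open Finset

private theorem ThA2_hom_one {p : ℕ} {G : Type} [Group G] [TopologicalSpace G] {h : G → ZMod p}
    (hh : HomP p h) : h 1 = 0 := by
  have h1 := hh.add 1 1
  rw [mul_one] at h1
  exact left_eq_add.1 h1

private theorem ThA2_tw (hLrb : S_Lrb) {p : ℕ} [Fact p.Prime] {n : ℕ} {Λ : Type} [CommRing Λ]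
    {π : Λ} (hL : LR p n π) {G : Type} [Group G] [TopologicalSpace G] {ω : G → ZMod p}
    {ψ : G → Λ} (hψ : Chr π ω ψ) {h : G → ZMod p} (hh : HomP p h) : Chr π ω (tw π ψ h) := by
  obtain ⟨-, -, ⟨hz0, hza⟩, -, -, -, -, -, h8, -⟩ := hLrb p n Λ π hL
  refine ⟨?_, ?_, fun a b => ?_, fun a => ?_⟩
  · exact hψ.loc.mul (hh.loc.comp (zt π))
  · unfold tw
    rw [hψ.one, ThA2_hom_one hh, hz0, mul_one]
  · unfold tw
    rw [hψ.mul, hh.add, hza]
    ring
  · obtain ⟨y, hy⟩ := hψ.red a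
    obtain ⟨z, hz⟩ := h8 (h a)
    refine ⟨y - ψ a * (((h a).val : ℕ) + π * z), ?_⟩
    unfold tw
    linear_combination hy - ψ a * hz

private theorem ThA2_cast {p : ℕ} {Λ Λ' : Type} [CommRing Λ] [CommRing Λ'] (f : Λ →+* Λ')
    {π : Λ} {G : Type} [Group G] [TopologicalSpace G] {ω : G → ZMod p}
    {ψ : G → Λ} (hψ : Chr π ω ψ) : Chr (f π) ω fun g => f (ψ g) := by
  refine ⟨hψ.loc.comp f, ?_, fun a b => ?_, fun a => ?_⟩
  · show f (ψ 1) = 1
    rw [hψ.one, map_one]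
  · show f (ψ (a * b)) = f (ψ a) * f (ψ b)
    rw [hψ.mul, map_mul]
  · obtain ⟨y, hy⟩ := hψ.red a
    refine ⟨f y, ?_⟩
    show f (ψ a) = _
    rw [hy, map_add, map_mul, map_natCast]

private theorem ThA2_cast_tw {p : ℕ} {Λ Λ' : Type} [CommRing Λ] [CommRing Λ'] (f : Λ →+* Λ')
    (π : Λ) {G : Type} (ψ : G → Λ) (h : G → ZMod p) :
    tw (f π) (fun g => f (ψ g)) h = fun g => f (tw π ψ h g) := by
  funext g
  unfold tw zt
  rw [map_mul, map_pow, map_sub, map_one]

/-- the step for one character -/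
private theorem ThA2_step (hLrb : S_Lrb) (hLin : S_Lin2) {p : ℕ} [Fact p.Prime] {G : Type}
    [Group G] [TopologicalSpace G] [IsTopologicalGroup G] {S : Type} {d : ℕ} {ω : G → ZMod p}
    {D : S → Subgroup G} {T : Tst G S d} (hω : ChO p ω) (hH : H2Z p ω) (hT : T.Ok p ω D)
    {n : ℕ} {Λ Λ' : Type} [CommRing Λ] [CommRing Λ'] {π : Λ} (hL : LR p (n + 1) π)
    {f : Λ →+* Λ'} (hL' : LR p n (f π)) (hs : Function.Surjective f)
    (hf : ∀ x, f x = 0 ↔ ∃ y, x = π ^ n * y) {χ : G → Λ} (hχ : Chr π ω χ) :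
    (Ker (rL χ) D).ncard ≤ {z : (G → Λ) × (S → Λ) | z ∈ Ker (rL χ) D ∧
      ¬ IsCs (fun g (x : ZMod p) => ω g * x)
        ((fun g => rs π (z.1 g), fun w => rs π (z.2 w)) : (G → ZMod p) × (S → ZMod p))}.ncard +
      p * (Ker (rL fun g => f (χ g)) D).ncard := by
  classical
  have hp : p.Prime := Fact.out
  have hfin : Finite Λ := (hLrb p (n + 1) Λ π hL).1
  have hfin' : Finite Λ' := (hLrb p n Λ' (f π) hL').1
  obtain ⟨-, -, -, -, -, h5, -, -, -, -⟩ := hLrb p (n + 1) Λ π hL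
  obtain ⟨hra, hrm, -, hr0, hrn, -⟩ := h5 (Nat.succ_le_succ (Nat.zero_le n))
  obtain ⟨-, h2, -, -, -, -, h7, h8, -⟩ := hLin p G S d ω D T hω hH hT (n + 1) Λ π hL χ hχ
  obtain ⟨-, -, -, -, -, -, -, h8', -⟩ := hLin p G S d ω D T hω hH hT n Λ' (f π) hL'
    (fun g => f (χ g)) (ThA2_cast f hχ)
  have h7' := h7 n Λ' f rfl hL' hf
  choose s hsec using hs
  have hπ : ∀ x : Λ, π * s (f x) = π * x := by
    intro x
    have h1 : f (s (f x) - x) = 0 := by rw [map_sub, hsec, sub_self]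
    obtain ⟨y, hy⟩ := (hf _).1 h1
    have h2 : π ^ n * π = 0 := (pow_succ π n).symm.trans hL.nil
    linear_combination π * hy + y * h2
  have hrχ : ∀ g, rs π (χ g) = ω g := by
    intro g
    obtain ⟨y, hy⟩ := hχ.red g
    rw [hy, hra, hrn, (hr0 (π * y)).2 ⟨y, rfl⟩, add_zero, ZMod.natCast_zmod_val]
  have hrb : ∀ b : ZMod p, rs π ((b.val : ℕ) : Λ) = b := by
    intro b
    rw [hrn, ZMod.natCast_zmod_val]
  have hKf : (Ker (rL χ) D).Finite :=
    Set.Finite.of_injOn h8.mapsTo h8.injOn (Set.toFinite _)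
  have hKf' : (Ker (rL fun g => f (χ g)) D).Finite :=
    Set.Finite.of_injOn h8'.mapsTo h8'.injOn (Set.toFinite _)
  set N : Set ((G → Λ) × (S → Λ)) := {z : (G → Λ) × (S → Λ) | z ∈ Ker (rL χ) D ∧
      ¬ IsCs (fun g (x : ZMod p) => ω g * x)
        ((fun g => rs π (z.1 g), fun w => rs π (z.2 w)) : (G → ZMod p) × (S → ZMod p))} with hN
  let F : ZMod p × ((G → Λ') × (S → Λ')) → (G → Λ) × (S → Λ) := fun q =>
    (fun g => (((q.1.val : ℕ) : Λ) - χ g * ((q.1.val : ℕ) : Λ)) +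
      (Zs T (rL χ) fun k => π * s (T.co q.2 k)).1 g,
     fun w => ((q.1.val : ℕ) : Λ) + (Zs T (rL χ) fun k => π * s (T.co q.2 k)).2 w)
  have hsub : Ker (rL χ) D ⊆ N ∪ F '' ((Set.univ : Set (ZMod p)) ×ˢ
      Ker (rL fun g => f (χ g)) D) := by
    intro z hz
    by_cases hc : IsCs (fun g (x : ZMod p) => ω g * x)
        ((fun g => rs π (z.1 g), fun w => rs π (z.2 w)) : (G → ZMod p) × (S → ZMod p))
    · right
      obtain ⟨b, hb1, hb2⟩ := hc
      have hb1' : ∀ g, rs π (z.1 g) = b - ω g * b := hb1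
      have hb2' : ∀ w, rs π (z.2 w) = b := hb2
      set β : Λ := ((b.val : ℕ) : Λ) with hβ
      let z' : (G → Λ) × (S → Λ) := (fun g => z.1 g - (β - χ g * β), fun w => z.2 w - β)
      have e1 : ∀ g, z'.1 g = z.1 g - (β - χ g * β) := fun _ => rfl
      have e2 : ∀ w, z'.2 w = z.2 w - β := fun _ => rfl
      have hz1 : ∀ g, ∃ y, z'.1 g = π * y := by
        intro g
        apply (hr0 _).1
        have h9 : (rs π (z'.1 g + β) : ZMod p) = rs π (z.1 g + χ g * β) := by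
          congr 1
          rw [e1]
          ring
        rw [hra, hra, hrm, hrχ, hβ, hrb, hb1'] at h9
        linear_combination h9
      have hz2 : ∀ w, ∃ y, z'.2 w = π * y := by
        intro w
        apply (hr0 _).1
        have h9 : (rs π (z'.2 w + β) : ZMod p) = rs π (z.2 w) := by
          congr 1
          rw [e2]
          ring
        rw [hra, hβ, hrb, hb2'] at h9
        linear_combination h9
      have hzK : z' ∈ Ker (rL χ) D := by
        refine ⟨⟨?_, ?_⟩, ?_⟩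
        · exact hz.1.loc.sub ((IsLocallyConstant.const β).sub
            (hχ.loc.mul (IsLocallyConstant.const β)))
        · intro g h
          have h9 := hz.1.mul g h
          rw [e1, e1, h9, hχ.mul]
          unfold rL
          rw [e1]
          ring
        · intro w g hg
          have h9 := hz.2 w g hg
          unfold psi rL at h9 ⊢
          rw [e1, e2]
          linear_combination h9
      have hco : ∀ k, ∃ y, T.co z' k = π * y := by
        intro k
        unfold Tst.co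
        rcases T.y k with g | w
        · exact hz1 g
        · exact hz2 w
      choose y hy using hco
      have hy' : T.co z' = fun k => π * y k := funext hy
      have h10 : ∀ j, Ts T (rL χ) (fun k => π * y k) j = 0 := by
        intro j
        rw [← hy']
        exact h8.mapsTo hzK j
      obtain ⟨z'', hz'', hco''⟩ := h8'.surjOn ((h7' y).1 h10)
      have hco3 : ∀ k, T.co z'' k = f (y k) := fun k => congrFun hco'' k
      have h11 : (fun k => π * s (T.co z'' k)) = T.co z' := by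
        funext k
        rw [hco3, hπ, hy]
      have h12 : z' = Zs T (rL χ) (T.co z') := by
        apply h2
        exact ⟨hzK.1, fun i => hzK.2 _ _ (hT.ti i), fun _ => rfl⟩
      refine ⟨(b, z''), ⟨Set.mem_univ _, hz''⟩, ?_⟩
      show ((fun g => (β - χ g * β) + (Zs T (rL χ) fun k => π * s (T.co z'' k)).1 g,
        fun w => β + (Zs T (rL χ) fun k => π * s (T.co z'' k)).2 w) :
          (G → Λ) × (S → Λ)) = z
      rw [h11, ← h12]
      refine Prod.ext (funext fun g => ?_) (funext fun w => ?_)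
      · show β - χ g * β + (z.1 g - (β - χ g * β)) = z.1 g
        ring
      · show β + (z.2 w - β) = z.2 w
        ring
    · exact Or.inl ⟨hz, hc⟩
  have hNf : N.Finite := hKf.subset fun z hz => hz.1
  have hPf : ((Set.univ : Set (ZMod p)) ×ˢ Ker (rL fun g => f (χ g)) D).Finite :=
    (Set.toFinite _).prod hKf'
  calc (Ker (rL χ) D).ncard ≤ (N ∪ F '' ((Set.univ : Set (ZMod p)) ×ˢ
      Ker (rL fun g => f (χ g)) D)).ncard :=
        Set.ncard_le_ncard hsub (hNf.union (hPf.image F))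
    _ ≤ N.ncard + (F '' ((Set.univ : Set (ZMod p)) ×ˢ
      Ker (rL fun g => f (χ g)) D)).ncard := Set.ncard_union_le _ _
    _ ≤ N.ncard + ((Set.univ : Set (ZMod p)) ×ˢ Ker (rL fun g => f (χ g)) D).ncard :=
        Nat.add_le_add_left (Set.ncard_image_le hPf) _
    _ = N.ncard + p * (Ker (rL fun g => f (χ g)) D).ncard := by
        rw [Set.ncard_prod, Set.ncard_univ, Nat.card_zmod]

theorem tThA2 (hLrb : S_Lrb) (hLrq : S_Lrq) (_ : S_Uni2) (_ : S_Act) (hLin : S_Lin2)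
    (hCnt : S_Cnt2) : S_ThA2 := by
  intro p _ G _ _ _ S X _ d A T N0 hA n
  classical
  have hp : p.Prime := Fact.out
  induction n with
  | zero =>
    intro Λ _ π hL ψ hψ ε hε
    refine ⟨0, fun 𝒟 hfin _ => ?_⟩
    rw [finsum_mem_eq_finite_toFinset_sum _ hfin]
    have hcard : (Nat.card 𝒟 : ℝ) = (hfin.toFinset.card : ℝ) := by
      have : Nat.card 𝒟 = hfin.toFinset.card := by
        rw [← Set.ncard_eq_toFinset_card _ hfin]
        rfl
      rw [this]
    have hsubs : Subsingleton Λ := by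
      have h1 := hL.card
      rw [pow_zero] at h1
      exact (Nat.card_eq_one_iff_unique.1 h1).1
    have h1 : ∀ D ∈ hfin.toFinset, ((Ker (rL (tw π ψ (A.h D))) A.D).ncard : ℝ) ≤ 1 := by
      intro D _
      have h2 : (Ker (rL (tw π ψ (A.h D))) A.D).ncard ≤ 1 := by
        rw [Set.ncard_le_one (Set.toFinite _)]
        intro a _ b _
        exact Subsingleton.elim _ _
      exact_mod_cast h2
    refine (Finset.sum_le_sum h1).trans ?_
    rw [Finset.sum_const, nsmul_eq_mul, mul_one, hcard]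
    have h4 : (0 : ℝ) ≤ (hfin.toFinset.card : ℝ) := Nat.cast_nonneg _
    have h6 : 0 ≤ ε * (hfin.toFinset.card : ℝ) := by positivity
    push_cast
    linarith
  | succ n ih =>
    intro Λ _ π hL ψ hψ ε hε
    obtain ⟨Λ', _, f, hL', hs, hf⟩ := hLrq p (n + 1) Λ π hL n (Nat.le_succ n)
    obtain ⟨e₁, he₁⟩ := ih Λ' (f π) hL' (fun g => f (ψ g)) (ThA2_cast f hψ) (ε / 2)
      (by positivity)
    obtain ⟨e₂, he₂⟩ := hCnt p G S X d A T N0 hA (n + 1) Λ π (by omega) hL ψ hψ (ε / 2)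
      (by positivity)
    refine ⟨max e₁ e₂, fun 𝒟 hfin hle => ?_⟩
    have k1 := he₁ 𝒟 hfin ((hA.mono (le_max_left _ _)).trans hle)
    have k2 := he₂ 𝒟 hfin ((hA.mono (le_max_right _ _)).trans hle)
    rw [finsum_mem_eq_finite_toFinset_sum _ hfin] at k1 k2 ⊢
    have h1 : ∀ D, ((Ker (rL (tw π ψ (A.h D))) A.D).ncard : ℝ) ≤
        ({z : (G → Λ) × (S → Λ) | z ∈ Ker (rL (tw π ψ (A.h D))) A.D ∧
            ¬ IsCs (fun g (x : ZMod p) => A.ω g * x)
              ((fun g => rs π (z.1 g), fun w => rs π (z.2 w)) :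
                (G → ZMod p) × (S → ZMod p))}.ncard : ℝ) +
        (p : ℝ) * ((Ker (rL (tw (f π) (fun g => f (ψ g)) (A.h D))) A.D).ncard : ℝ) := by
      intro D
      have h2 := ThA2_step hLrb hLin hA.om hA.h2 hA.ok hL hL' hs hf
        (ThA2_tw hLrb hL hψ (hA.hom D))
      rw [← ThA2_cast_tw] at h2
      exact_mod_cast h2
    have h2 := Finset.sum_le_sum fun D (_ : D ∈ hfin.toFinset) => h1 D
    rw [Finset.sum_add_distrib, ← Finset.mul_sum] at h2
    refine h2.trans ?_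
    have hp1 : (1 : ℝ) ≤ (p : ℝ) := by exact_mod_cast hp.one_lt.le
    have hc0 : (0 : ℝ) ≤ (Nat.card 𝒟 : ℝ) := Nat.cast_nonneg _
    have h3 := mul_le_mul_of_nonneg_left k1 (zero_le_one.trans hp1)
    have h4 : (1 : ℝ) ≤ (p : ℝ) ^ (n + 1) := one_le_pow₀ hp1
    have h5 : ε / 2 * (Nat.card 𝒟 : ℝ) ≤ (p : ℝ) ^ (n + 1) * (ε / 2) * (Nat.card 𝒟 : ℝ) := by
      apply mul_le_mul_of_nonneg_right _ hc0
      nlinarith
    have h6 : ((p : ℝ) ^ (n + 1 + d) + ε / 2) * (Nat.card 𝒟 : ℝ) +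
        (p : ℝ) * ((p : ℝ) ^ n * (1 + n * (p : ℝ) ^ d + ε / 2) * (Nat.card 𝒟 : ℝ)) ≤
        (p : ℝ) ^ (n + 1) * (1 + ((n + 1 : ℕ) : ℝ) * (p : ℝ) ^ d + ε) * (Nat.card 𝒟 : ℝ) := by
      have h7 : (p : ℝ) ^ (n + 1) * (1 + ((n + 1 : ℕ) : ℝ) * (p : ℝ) ^ d + ε) *
          (Nat.card 𝒟 : ℝ) = (p : ℝ) ^ (n + 1 + d) * (Nat.card 𝒟 : ℝ) +
          (p : ℝ) * ((p : ℝ) ^ n * (1 + n * (p : ℝ) ^ d + ε / 2) * (Nat.card 𝒟 : ℝ)) +
          (p : ℝ) ^ (n + 1) * (ε / 2) * (Nat.card 𝒟 : ℝ) := by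
        push_cast
        ring
      rw [h7]
      linarith
    exact (add_le_add k2 h3).trans h6

end Pool.Agent.MP72P
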