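import Pool.Agent.Lib.MP_72e2e6_nt.P3.A2.Spec

/-!
# MP_72e2e6_nt, theorem T3p, part A2: the derivative as an additive function of the first direction
-/

set_option autoImplicit false

namespace Pool.Agent.MP72P

open Finset

section op

variable {p m : ℕ} {G : Type}

/-- The directions `a, D 0, D 1, ...`. -/
private def the2C (a : G → ZMod p) (D : Fin m → G → ZMod p) : Fin (m + 1) → G → ZMod p :=
  Fin.cons a D

private theorem the2C_succ (a : G → ZMod p) (D : Fin m → G → ZMod p) (i : Fin m) :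
    the2C a D i.succ = D i := Fin.cons_succ _ _ _

private theorem the2C_zero (a : G → ZMod p) (D : Fin m → G → ZMod p) : the2C a D 0 = a :=
  Fin.cons_zero _ _

private theorem the2Prod (a b : G → ZMod p) (D : Fin m → G → ZMod p) (g : G)
    (t : Finset (Fin (m + 1))) (ht : (0 : Fin (m + 1)) ∉ t) :
    ∏ j ∈ t, the2C a D j g = ∏ j ∈ t, the2C b D j g := by
  refine Finset.prod_congr rfl fun j hj => ?_
  have hj0 : j ≠ 0 := fun h => ht (h ▸ hj)
  obtain ⟨i, rfl⟩ := Fin.exists_succ_eq.2 hj0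
  rw [the2C_succ, the2C_succ]

private theorem the2Add (ω : G → ZMod p) (δ : Fin (m + 1) → G → ZMod p) (g : G)
    (f f' : Finset (Fin (m + 1)) → ZMod p) : rE ω δ g (f + f') = rE ω δ g f + rE ω δ g f' := by
  funext I
  simp only [rE, Pi.add_apply, mul_add, Finset.sum_add_distrib]

private theorem the2Sub (ω : G → ZMod p) (δ : Fin (m + 1) → G → ZMod p) (g : G)
    (f f' : Finset (Fin (m + 1)) → ZMod p) : rE ω δ g (f - f') = rE ω δ g f - rE ω δ g f' := by
  funext I
  simp only [rE, Pi.sub_apply, mul_sub, Finset.sum_sub_distrib]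

private theorem the2Agr (ω : G → ZMod p) (δ : Fin (m + 1) → G → ZMod p) (g : G)
    (f f' : Finset (Fin (m + 1)) → ZMod p) (h : ∀ I, (0 : Fin (m + 1)) ∉ I → f I = f' I)
    (I : Finset (Fin (m + 1))) (hI : (0 : Fin (m + 1)) ∉ I) : rE ω δ g f I = rE ω δ g f' I := by
  unfold rE
  congr 1
  refine Finset.sum_congr rfl fun A _ => ?_
  rw [h (I \ A) fun h0 => hI (Finset.mem_sdiff.1 h0).1]

private theorem the2R (ω a : G → ZMod p) (D : Fin m → G → ZMod p) (g : G)
    (f : Finset (Fin (m + 1)) → ZMod p) (I : Finset (Fin (m + 1))) :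
    rE ω (the2C a D) g f I = rE ω (the2C (fun _ => 0) D) g f I +
      if (0 : Fin (m + 1)) ∈ I then a g * rE ω (the2C (fun _ => 0) D) g f (I.erase 0) else 0 := by
  by_cases h0 : (0 : Fin (m + 1)) ∈ I
  · obtain ⟨J, hJ, hJI⟩ : ∃ J : Finset (Fin (m + 1)), (0 : Fin (m + 1)) ∉ J ∧ insert 0 J = I :=
      ⟨I.erase 0, Finset.notMem_erase _ _, Finset.insert_erase h0⟩
    subst hJI
    rw [if_pos h0, Finset.erase_insert hJ]
    unfold rE
    rw [Finset.sum_powerset_insert hJ, Finset.sum_powerset_insert hJ]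
    have e1 : ∑ t ∈ J.powerset, (∏ j ∈ t, the2C a D j g) * f (insert 0 J \ t) =
        ∑ t ∈ J.powerset, (∏ j ∈ t, the2C (fun _ => 0) D j g) * f (insert 0 J \ t) := by
      refine Finset.sum_congr rfl fun t ht => ?_
      rw [the2Prod a (fun _ => 0) D g t fun h => hJ (Finset.mem_powerset.1 ht h)]
    have e2 : ∑ t ∈ J.powerset, (∏ j ∈ insert 0 t, the2C a D j g) * f (insert 0 J \ insert 0 t) =
        a g * ∑ t ∈ J.powerset, (∏ j ∈ t, the2C (fun _ => 0) D j g) * f (J \ t) := by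
      rw [Finset.mul_sum]
      refine Finset.sum_congr rfl fun t ht => ?_
      have ht0 : (0 : Fin (m + 1)) ∉ t := fun h => hJ (Finset.mem_powerset.1 ht h)
      have e3 : insert 0 J \ insert 0 t = J \ t := by
        ext i
        simp only [Finset.mem_sdiff, Finset.mem_insert, not_or]
        constructor
        · rintro ⟨h1 | h1, h2, h3⟩
          · exact absurd h1 h2
          · exact ⟨h1, h3⟩
        · rintro ⟨h1, h2⟩
          exact ⟨Or.inr h1, fun h => hJ (h ▸ h1), h2⟩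
      rw [Finset.prod_insert ht0, the2C_zero, e3, the2Prod a (fun _ => 0) D g t ht0, mul_assoc]
    have e4 : ∑ t ∈ J.powerset, (∏ j ∈ insert 0 t, the2C (fun _ => 0) D j g) *
        f (insert 0 J \ insert 0 t) = 0 := by
      refine Finset.sum_eq_zero fun t _ => ?_
      rw [Finset.prod_eq_zero (Finset.mem_insert_self 0 t) (by rw [the2C_zero]), zero_mul]
    rw [e1, e2, e4]
    ring
  · rw [if_neg h0, add_zero]
    unfold rE
    congr 1
    refine Finset.sum_congr rfl fun t ht => ?_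
    rw [the2Prod a (fun _ => 0) D g t fun h => h0 (Finset.mem_powerset.1 ht h)]

private theorem the2Key (ω a b : G → ZMod p) (D : Fin m → G → ZMod p) (g : G)
    (fx fy f0 : Finset (Fin (m + 1)) → ZMod p) (hx : ∀ I, (0 : Fin (m + 1)) ∉ I → fx I = f0 I)
    (hy : ∀ I, (0 : Fin (m + 1)) ∉ I → fy I = f0 I) :
    rE ω (the2C (fun g => a g + b g) D) g (fx + fy - f0) =
      rE ω (the2C a D) g fx + rE ω (the2C b D) g fy - rE ω (the2C (fun _ => 0) D) g f0 := by
  funext I
  rw [Pi.sub_apply, Pi.add_apply, the2R ω (fun g => a g + b g) D g, the2R ω a D g fx,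
    the2R ω b D g fy]
  have e1 : rE ω (the2C (fun _ => 0) D) g (fx + fy - f0) I =
      rE ω (the2C (fun _ => 0) D) g fx I + rE ω (the2C (fun _ => 0) D) g fy I -
        rE ω (the2C (fun _ => 0) D) g f0 I := by
    rw [the2Sub, the2Add]
    rfl
  rw [e1]
  split_ifs with h0
  · have hI : (0 : Fin (m + 1)) ∉ I.erase 0 := Finset.notMem_erase _ _
    rw [the2Agr ω _ g (fx + fy - f0) f0 (fun J hJ => by
        rw [Pi.sub_apply, Pi.add_apply, hx J hJ, hy J hJ]
        ring) _ hI, the2Agr ω _ g fx f0 hx _ hI, the2Agr ω _ g fy f0 hy _ hI]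
    ring
  · ring

/-- The projection to the coefficients without the first direction. -/
private def the2P : (Finset (Fin (m + 1)) → ZMod p) →+ (Finset (Fin (m + 1)) → ZMod p) where
  toFun f I := if (0 : Fin (m + 1)) ∈ I then 0 else f I
  map_zero' := by
    funext I
    simp
  map_add' f f' := by
    funext I
    show (if (0 : Fin (m + 1)) ∈ I then 0 else f I + f' I) =
      (if (0 : Fin (m + 1)) ∈ I then 0 else f I) + if (0 : Fin (m + 1)) ∈ I then 0 else f' I
    split_ifs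
    · rw [add_zero]
    · rfl

private theorem the2P_pos (f : Finset (Fin (m + 1)) → ZMod p) (I : Finset (Fin (m + 1)))
    (h : (0 : Fin (m + 1)) ∈ I) : the2P f I = 0 := if_pos h

private theorem the2P_neg (f : Finset (Fin (m + 1)) → ZMod p) (I : Finset (Fin (m + 1)))
    (h : (0 : Fin (m + 1)) ∉ I) : the2P f I = f I := if_neg h

private theorem the2PR (ω a : G → ZMod p) (D : Fin m → G → ZMod p) (g : G)
    (f : Finset (Fin (m + 1)) → ZMod p) :
    the2P (rE ω (the2C a D) g f) = rE ω (the2C (fun _ => 0) D) g (the2P f) := by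
  funext I
  by_cases h0 : (0 : Fin (m + 1)) ∈ I
  · rw [the2P_pos _ _ h0]
    unfold rE
    rw [Finset.sum_eq_zero, mul_zero]
    intro A _
    by_cases hA : (0 : Fin (m + 1)) ∈ A
    · rw [Finset.prod_eq_zero hA (by rw [the2C_zero]), zero_mul]
    · rw [the2P_pos _ _ (Finset.mem_sdiff.2 ⟨h0, hA⟩), mul_zero]
  · rw [the2P_neg _ _ h0, the2R, if_neg h0, add_zero]
    exact the2Agr ω _ g f (the2P f) (fun J hJ => (the2P_neg f J hJ).symm) I h0

end op

section tr

variable {G S M M' : Type} [Group G] [TopologicalSpace G] [AddCommGroup M] [AddCommGroup M']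
  {ρ : G → M → M} {ρ' : G → M' → M'} (φ : M →+ M')

/-- The image of a pair. -/
private def the2Im (z : (G → M) × (S → M)) : (G → M') × (S → M') :=
  (fun g => φ (z.1 g), fun w => φ (z.2 w))

omit [Group G] [TopologicalSpace G] in
private theorem the2Psi (hφ : ∀ g x, φ (ρ g x) = ρ' g (φ x)) (z : (G → M) × (S → M)) (w : S)
    (g : G) : psi ρ' (the2Im φ z) w g = φ (psi ρ z w g) := by
  show φ (z.1 g) - (φ (z.2 w) - ρ' g (φ (z.2 w))) = φ (z.1 g - (z.2 w - ρ g (z.2 w)))
  rw [map_sub, map_sub, hφ]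

omit [Group G] [TopologicalSpace G] in
private theorem the2Co {d : ℕ} (T : Tst G S d) (z : (G → M) × (S → M)) (k : Fin (d + 1)) :
    T.co (the2Im φ z) k = φ (T.co z k) := by
  unfold Tst.co
  cases T.y k with
  | inl g => rfl
  | inr w => rfl

private theorem the2Coc (hφ : ∀ g x, φ (ρ g x) = ρ' g (φ x)) {z : (G → M) × (S → M)}
    (h : Coc ρ z.1) : Coc ρ' (the2Im φ z).1 := by
  refine ⟨h.loc.comp φ, fun a b => ?_⟩
  show φ (z.1 (a * b)) = φ (z.1 a) + ρ' a (φ (z.1 b))
  rw [h.mul, map_add, hφ]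

omit [Group G] [TopologicalSpace G] in
private theorem the2CoS {d : ℕ} (T : Tst G S d) (z z' z'' : (G → M) × (S → M))
    (k : Fin (d + 1)) : T.co (z + z' - z'') k = T.co z k + T.co z' k - T.co z'' k := by
  unfold Tst.co
  cases T.y k with
  | inl g => rfl
  | inr w => rfl

end tr

theorem tThe2 : S_Lrb → S_Uni2 → S_Act → S_Act2 → S_Der2 → S_The2 := by
  classical
  intro hL hUni hA hA2 hDer p _ G _ _ _ S X _ d A T N0 hG z hz hzc m δ hδB hδ
  have hh0 : A.h 0 = fun _ => 0 := by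
    funext g
    have h := hG.add 0 0 g
    rw [add_zero] at h
    exact left_eq_add.1 h
  have hhadd : ∀ x y, A.h (x + y) = fun g => A.h x g + A.h y g := fun x y =>
    funext fun g => hG.add x y g
  obtain ⟨dd, hdd⟩ : ∃ dd : Fin m → G → ZMod p, dd = fun i => A.h (δ i) := ⟨_, rfl⟩
  have hdx : ∀ x : X, (fun i => A.h ((Fin.cons x δ : Fin (m + 1) → X) i)) =
      the2C (A.h x) dd := by
    intro x
    funext i
    refine Fin.cases ?_ (fun i => ?_) i
    · rw [the2C_zero, Fin.cons_zero]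
    · rw [the2C_succ, Fin.cons_succ, hdd]
  have hhom : ∀ (x : X) i, HomP p (the2C (A.h x) dd i) := by
    intro x i
    rw [← hdx]
    exact hG.hom _
  have hcard2 : Nat.card (Finset (Fin (m + 1)) → ZMod p) = p ^ 2 ^ (m + 1) := by
    rw [Nat.card_fun, Nat.card_zmod, Nat.card_eq_fintype_card, Fintype.card_finset,
      Fintype.card_fin]
  have hex := fun x : X => (hUni p G S d A.ω A.D T hG.om hG.h2 hG.ok
    (Finset (Fin (m + 1)) → ZMod p) _ hcard2 _
      (hA2 p G A.ω hG.om (m + 1) (the2C (A.h x) dd) (hhom x))).1 (fun _ => 0)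
      (by simp) fun k I => if I = ∅ then T.co z k else 0
  choose ζ hζ huq using hex
  -- the coefficients without the first direction
  have hP : ∀ x, the2Im the2P (ζ x) = ζ 0 := by
    intro x
    refine huq 0 _ ⟨?_, fun i => ?_, fun k => ?_⟩
    · rw [hh0]
      exact the2Coc the2P (the2PR A.ω (A.h x) dd) (hζ x).1
    · have h1 := the2Psi (ρ := rE A.ω (the2C (A.h x) dd))
        (ρ' := rE A.ω (the2C (fun _ => 0) dd)) the2P (the2PR A.ω (A.h x) dd) (ζ x) (T.w i) (T.t i)
      rw [hh0, h1, (hζ x).2.1 i, map_zero]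
    · rw [the2Co, (hζ x).2.2 k]
      funext I
      by_cases h0 : (0 : Fin (m + 1)) ∈ I
      · rw [the2P_pos _ _ h0, if_neg]
        intro h
        rw [h] at h0
        exact Finset.notMem_empty _ h0
      · rw [the2P_neg _ _ h0]
  have hP1 : ∀ x g I, (0 : Fin (m + 1)) ∉ I → (ζ x).1 g I = (ζ 0).1 g I := by
    intro x g I hI
    rw [← hP x]
    exact (the2P_neg _ _ hI).symm
  have hP2 : ∀ x w I, (0 : Fin (m + 1)) ∉ I → (ζ x).2 w I = (ζ 0).2 w I := by
    intro x w I hI
    rw [← hP x]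
    exact (the2P_neg _ _ hI).symm
  -- additivity
  have hpsi : ∀ x y w g, psi (rE A.ω (the2C (A.h (x + y)) dd)) (ζ x + ζ y - ζ 0) w g =
      psi (rE A.ω (the2C (A.h x) dd)) (ζ x) w g + psi (rE A.ω (the2C (A.h y) dd)) (ζ y) w g -
        psi (rE A.ω (the2C (A.h 0) dd)) (ζ 0) w g := by
    intro x y w g
    have h1 := the2Key A.ω (A.h x) (A.h y) dd g ((ζ x).2 w) ((ζ y).2 w) ((ζ 0).2 w) (hP2 x w)
      (hP2 y w)
    rw [hhadd, hh0]
    show (ζ x).1 g + (ζ y).1 g - (ζ 0).1 g - ((ζ x).2 w + (ζ y).2 w - (ζ 0).2 w -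
      rE A.ω (the2C (fun g => A.h x g + A.h y g) dd) g ((ζ x).2 w + (ζ y).2 w - (ζ 0).2 w)) = _
    rw [h1]
    unfold psi
    abel
  have hadd : ∀ x y, ζ x + ζ y - ζ 0 = ζ (x + y) := by
    intro x y
    refine huq (x + y) _ ⟨⟨?_, fun g h => ?_⟩, fun i => ?_, fun k => ?_⟩
    · exact ((hζ x).1.loc.add (hζ y).1.loc).sub (hζ 0).1.loc
    · have h1 := the2Key A.ω (A.h x) (A.h y) dd g ((ζ x).1 h) ((ζ y).1 h) ((ζ 0).1 h) (hP1 x h)
        (hP1 y h)
      rw [hhadd]
      show (ζ x).1 (g * h) + (ζ y).1 (g * h) - (ζ 0).1 (g * h) =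
        (ζ x).1 g + (ζ y).1 g - (ζ 0).1 g + rE A.ω (the2C (fun g => A.h x g + A.h y g) dd) g
          ((ζ x).1 h + (ζ y).1 h - (ζ 0).1 h)
      have e0 := (hζ 0).1.mul g h
      rw [hh0] at e0
      rw [h1, (hζ x).1.mul, (hζ y).1.mul, e0]
      abel
    · rw [hpsi, (hζ x).2.1, (hζ y).2.1, (hζ 0).2.1]
      abel
    · rw [the2CoS, (hζ x).2.2, (hζ y).2.2, (hζ 0).2.2]
      abel
  have hz0 : ∀ w g, psi (rE A.ω (the2C (A.h 0) dd)) (ζ 0) w g univ = 0 := by
    intro w g
    have h1 := the2Psi (ρ := rE A.ω (the2C (A.h 0) dd))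
      (ρ' := rE A.ω (the2C (fun _ => 0) dd)) the2P (the2PR A.ω (A.h 0) dd) (ζ 0) w g
    rw [hP 0] at h1
    rw [← hh0] at h1
    rw [h1]
    exact the2P_pos _ _ (Finset.mem_univ _)
  refine ⟨fun x j => psi (rE A.ω (the2C (A.h x) dd)) (ζ x) (T.u j) (T.e j) univ,
    fun x y j => ?_, fun η hη => ?_, ?_⟩
  · show psi (rE A.ω (the2C (A.h (x + y)) dd)) (ζ (x + y)) (T.u j) (T.e j) univ = _
    rw [← hadd, hpsi, Pi.sub_apply, Pi.add_apply, hz0, sub_zero]
  · obtain ⟨x, hx⟩ := hG.nd z hz hzc m δ hδB hδ η hη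
    refine ⟨x, ?_⟩
    rw [hdx] at hx
    exact hx (ζ x) (hζ x).1 (hζ x).2.1 fun k I => congrFun ((hζ x).2.2 k) I
  · intro Λ _ π hR ψ hψ y hy x D j
    obtain ⟨-, -, ⟨h0, hzadd⟩, -⟩ := hL p (m + 2) Λ π hR
    have hχ : Chr π A.ω (tw π ψ (A.h D)) := by
      have h1 := ((hA p (m + 2) Λ π hR G A.ω hG.om ψ hψ).2 1 (fun _ => A.h D)
        fun _ => hG.hom D).2.2
      simpa using h1
    have h2 := hDer p G S d A.ω A.D T hG.om hG.h2 hG.ok m Λ π hR (tw π ψ (A.h D)) hχ
      (the2C (A.h x) dd) (hhom x) y (ζ x) (hζ x).1 (hζ x).2.1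
      (fun k I => by
        rw [hy k]
        exact congrFun ((hζ x).2.2 k) I) j
    show _ = π ^ (m + 1) * (((psi (rE A.ω (the2C (A.h x) dd)) (ζ x) (T.u j) (T.e j) univ :
      ZMod p).val : ℕ) : Λ)
    rw [← h2]
    refine Finset.sum_congr rfl fun c _ => ?_
    have e1 : tw π ψ (A.h (D + ∑ i, if c i then (Fin.cons x δ : Fin (m + 1) → X) i else 0)) =
        tw π (tw π ψ (A.h D)) (fun g => ∑ i, if c i then the2C (A.h x) dd i g else 0) := by
      funext g
      have hsum : ∀ (s : Finset (Fin (m + 1))),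
          A.h (∑ i ∈ s, if c i then (Fin.cons x δ : Fin (m + 1) → X) i else 0) g =
            ∑ i ∈ s, if c i then the2C (A.h x) dd i g else 0 := by
        intro s
        induction s using Finset.induction_on with
        | empty => rw [Finset.sum_empty, Finset.sum_empty, hh0]
        | insert a s ha ih =>
          rw [Finset.sum_insert ha, Finset.sum_insert ha, hG.add, ih]
          congr 1
          split_ifs
          · exact congrFun (congrFun (hdx x) a) g
          · rw [hh0]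
      show ψ g * zt π (A.h (D + ∑ i, if c i then (Fin.cons x δ : Fin (m + 1) → X) i else 0) g) =
        ψ g * zt π (A.h D g) * zt π (∑ i, if c i then the2C (A.h x) dd i g else 0)
      rw [hG.add, hsum, hzadd, mul_assoc]
    rw [e1]

end Pool.Agent.MP72P
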