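import Pool.Agent.Lib.MP_72e2e6_nt.P3.A2.Spec

/-!
# MP_72e2e6_nt, theorem T3p, part A2: unique existence for test systems
-/

namespace Pool.Agent.MP72P

open Finset

section

variable {p : ℕ} [Fact p.Prime] {G M : Type} [Group G] [TopologicalSpace G] [AddCommGroup M]
  {ω : G → ZMod p}

/-- The multiples of an element of order `p`. -/
private def un2Sm (m₁ : M) (c : ZMod p) : M := c.val • m₁

private theorem un2Sm_nat {m₁ : M} (h2 : p • m₁ = 0) (n : ℕ) :
    un2Sm m₁ (n : ZMod p) = n • m₁ := by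
  unfold un2Sm
  rw [ZMod.val_natCast]
  conv_rhs => rw [← Nat.div_add_mod n p]
  rw [add_nsmul, mul_nsmul, h2, nsmul_zero, zero_add]

private theorem un2Sm_zero (m₁ : M) : un2Sm m₁ (0 : ZMod p) = 0 := by
  unfold un2Sm
  rw [ZMod.val_zero, zero_nsmul]

private theorem un2Sm_add {m₁ : M} (h2 : p • m₁ = 0) (c d : ZMod p) :
    un2Sm m₁ (c + d) = un2Sm m₁ c + un2Sm m₁ d := by
  have e : c + d = ((c.val + d.val : ℕ) : ZMod p) := by
    push_cast
    rw [ZMod.natCast_zmod_val, ZMod.natCast_zmod_val]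
  rw [e, un2Sm_nat h2, add_nsmul]
  rfl

private theorem un2Sm_mul {m₁ : M} (h2 : p • m₁ = 0) (c d : ZMod p) :
    un2Sm m₁ (c * d) = d.val • (c.val • m₁) := by
  have e : c * d = ((c.val * d.val : ℕ) : ZMod p) := by
    push_cast
    rw [ZMod.natCast_zmod_val, ZMod.natCast_zmod_val]
  rw [e, un2Sm_nat h2, mul_comm, ← mul_nsmul']

private theorem un2Sm_inj {m₁ : M} (h2 : p • m₁ = 0) (h0 : m₁ ≠ 0) {c d : ZMod p}
    (h : un2Sm m₁ c = un2Sm m₁ d) : c = d := by
  have h1 : un2Sm m₁ (c - d) + un2Sm m₁ d = un2Sm m₁ c := by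
    rw [← un2Sm_add h2, sub_add_cancel]
  rw [h, add_eq_right] at h1
  have h3 : addOrderOf m₁ = p := addOrderOf_eq_prime h2 h0
  have h4 : addOrderOf m₁ ∣ (c - d).val := addOrderOf_dvd_iff_nsmul_eq_zero.2 h1
  rw [h3] at h4
  have h5 : (c - d).val = 0 := Nat.eq_zero_of_dvd_of_lt h4 (ZMod.val_lt _)
  rw [ZMod.val_eq_zero] at h5
  exact sub_eq_zero.1 h5

omit [Fact p.Prime] in
private theorem un2_rho_zero {ρ : G → M → M} (hρ : ActP p ω ρ) (g : G) : ρ g 0 = 0 := by
  have := hρ.add g 0 0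
  rw [add_zero] at this
  exact left_eq_add.1 this

omit [Fact p.Prime] in
private theorem un2_rho_nsmul {ρ : G → M → M} (hρ : ActP p ω ρ) (g : G) (n : ℕ) (x : M) :
    ρ g (n • x) = n • ρ g x := by
  induction n with
  | zero => rw [zero_nsmul, zero_nsmul, un2_rho_zero hρ]
  | succ n ih => rw [succ_nsmul, succ_nsmul, hρ.add, ih]

omit [Fact p.Prime] in
private theorem un2_rho_neg {ρ : G → M → M} (hρ : ActP p ω ρ) (g : G) (x : M) :
    ρ g (-x) = -ρ g x := by
  have := hρ.add g (-x) x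
  rw [neg_add_cancel, un2_rho_zero hρ] at this
  exact (neg_eq_of_add_eq_zero_left this.symm).symm

omit [Fact p.Prime] in
private theorem un2_rho_sub {ρ : G → M → M} (hρ : ActP p ω ρ) (g : G) (x y : M) :
    ρ g (x - y) = ρ g x - ρ g y := by
  rw [sub_eq_add_neg, hρ.add, un2_rho_neg hρ, sub_eq_add_neg]

private theorem un2Sm_fix {ρ : G → M → M} (hρ : ActP p ω ρ) {m₁ : M} (h2 : p • m₁ = 0)
    (hf : ∀ g, ρ g m₁ = (ω g).val • m₁) (g : G) (c : ZMod p) :
    ρ g (un2Sm m₁ c) = un2Sm m₁ (ω g * c) := by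
  rw [un2Sm_mul h2, ← hf]
  exact un2_rho_nsmul hρ g _ _

/-- The subgroup of order `p`. -/
private def un2N {m₁ : M} (h2 : p • m₁ = 0) : AddSubgroup M :=
  AddMonoidHom.range (AddMonoidHom.mk' (un2Sm (p := p) m₁) (un2Sm_add h2))

private theorem mem_un2N {m₁ : M} {h2 : p • m₁ = 0} {x : M} :
    x ∈ un2N h2 ↔ ∃ c : ZMod p, un2Sm m₁ c = x := Iff.rfl

private theorem un2N_card {m₁ : M} {h2 : p • m₁ = 0} (h0 : m₁ ≠ 0) :
    Nat.card (un2N h2) = p := by
  have h : Function.Injective (AddMonoidHom.mk' (un2Sm (p := p) m₁) (un2Sm_add h2)) :=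
    fun c d h => un2Sm_inj h2 h0 h
  have e := Nat.card_congr (AddMonoidHom.ofInjective h).toEquiv
  rw [Nat.card_zmod] at e
  exact e.symm

/-- The induced operators. -/
private def un2Q {ρ : G → M → M} (hρ : ActP p ω ρ) {m₁ : M} (h2 : p • m₁ = 0)
    (hf : ∀ g, ρ g m₁ = (ω g).val • m₁) (g : G) : M ⧸ un2N h2 → M ⧸ un2N h2 :=
  QuotientAddGroup.map (un2N h2) (un2N h2) (AddMonoidHom.mk' (ρ g) (hρ.add g)) (by
    rintro x ⟨c, rfl⟩
    exact ⟨ω g * c, (un2Sm_fix hρ h2 hf g c).symm⟩)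

private theorem un2Q_mk {ρ : G → M → M} (hρ : ActP p ω ρ) {m₁ : M} (h2 : p • m₁ = 0)
    (hf : ∀ g, ρ g m₁ = (ω g).val • m₁) (g : G) (x : M) :
    un2Q hρ h2 hf g (QuotientAddGroup.mk x) = QuotientAddGroup.mk (ρ g x) := rfl

private theorem un2Q_act {ρ : G → M → M} (hρ : ActP p ω ρ) {m₁ : M} (h2 : p • m₁ = 0)
    (hf : ∀ g, ρ g m₁ = (ω g).val • m₁) : ActP p ω (un2Q hρ h2 hf) := by
  constructor
  · intro g x y
    obtain ⟨x, rfl⟩ := QuotientAddGroup.mk_surjective x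
    obtain ⟨y, rfl⟩ := QuotientAddGroup.mk_surjective y
    rw [← QuotientAddGroup.mk_add, un2Q_mk, un2Q_mk, un2Q_mk, hρ.add, QuotientAddGroup.mk_add]
  · intro x
    obtain ⟨x, rfl⟩ := QuotientAddGroup.mk_surjective x
    rw [un2Q_mk, hρ.one]
  · intro g h x
    obtain ⟨x, rfl⟩ := QuotientAddGroup.mk_surjective x
    rw [un2Q_mk, un2Q_mk, un2Q_mk, hρ.mul]
  · intro x
    obtain ⟨x, rfl⟩ := QuotientAddGroup.mk_surjective x
    exact (hρ.loc x).comp (QuotientAddGroup.mk : M → M ⧸ un2N h2)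
  · intro g
    obtain ⟨k, hk⟩ := hρ.uni g
    refine ⟨k, fun x => ?_⟩
    obtain ⟨x, rfl⟩ := QuotientAddGroup.mk_surjective x
    rw [un2Q_mk, hk]
    exact map_nsmul (QuotientAddGroup.mk' (un2N h2)) _ x

private theorem un2_mk_eq {m₁ : M} {h2 : p • m₁ = 0} {x y : M}
    (h : (QuotientAddGroup.mk x : M ⧸ un2N h2) = QuotientAddGroup.mk y) :
    ∃ c : ZMod p, un2Sm m₁ c = x - y := by
  have h1 := (QuotientAddGroup.eq (s := un2N h2)).1 h.symm
  rw [neg_add_eq_sub] at h1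
  exact mem_un2N.1 h1

end

private theorem un2_det (hFix : S_Fix) (p : ℕ) [Fact p.Prime] (G : Type) [Group G]
    [TopologicalSpace G] (S : Type) (d : ℕ) (ω : G → ZMod p)
    (D : S → Subgroup G) (T : Tst G S d) (hω : ChO p ω) (hT : T.Ok p ω D) :
    ∀ (r : ℕ) (M : Type) [AddCommGroup M] [Finite M], Nat.card M = p ^ r →
      ∀ ρ : G → M → M, ActP p ω ρ → ∀ (w : S) (f : D w → M), Coc (fun g : D w => ρ g) f →
        (∀ (i : T.I) (g : D w), T.w i = w → (g : G) = T.t i → f g = 0) →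
        (∀ (j : Fin d) (g : D w), T.u j = w → (g : G) = T.e j → f g = 0) → f = 0 := by
  intro r
  induction r with
  | zero =>
    intro M _ _ hM ρ hρ w f hf h1 h2
    rw [pow_zero, Nat.card_eq_one_iff_unique] at hM
    obtain ⟨hs, -⟩ := hM
    funext g
    exact Subsingleton.elim _ _
  | succ r ih =>
    intro M _ _ hM ρ hρ w f hcoc ht he
    have hnt : Nontrivial M := by
      rw [← Finite.one_lt_card_iff_nontrivial, hM]
      exact Nat.one_lt_pow (Nat.succ_ne_zero r) (Fact.out : p.Prime).one_lt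
    obtain ⟨m₁, h0, h2, hf⟩ := hFix p G M ω ρ hω hρ (r + 1) hM hnt
    have hcard : Nat.card (M ⧸ un2N h2) = p ^ r := by
      have e := AddSubgroup.card_eq_card_quotient_mul_card_addSubgroup (un2N h2)
      rw [un2N_card h0, hM, pow_succ] at e
      exact (Nat.eq_of_mul_eq_mul_right (Fact.out : p.Prime).pos e).symm
    have hq := ih (M ⧸ un2N h2) hcard (un2Q hρ h2 hf) (un2Q_act hρ h2 hf) w
      (fun g => QuotientAddGroup.mk (f g))
      ⟨hcoc.loc.comp _, fun g h => by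
        rw [hcoc.mul, un2Q_mk, QuotientAddGroup.mk_add]⟩
      (fun i g hw hg => by
        show (QuotientAddGroup.mk (f g) : M ⧸ un2N h2) = 0
        rw [ht i g hw hg, QuotientAddGroup.mk_zero])
      (fun j g hw hg => by
        show (QuotientAddGroup.mk (f g) : M ⧸ un2N h2) = 0
        rw [he j g hw hg, QuotientAddGroup.mk_zero])
    -- coordinates of the elements of `N`
    obtain ⟨t, ht'⟩ : ∃ t : M → ZMod p, ∀ c, t (un2Sm m₁ c) = c :=
      ⟨Function.invFun (un2Sm m₁), fun c =>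
        Function.leftInverse_invFun (fun c d h => un2Sm_inj h2 h0 h) c⟩
    have hst : ∀ g, un2Sm m₁ (t (f g)) = f g := by
      intro g
      have e1 : (QuotientAddGroup.mk (f g) : M ⧸ un2N h2) = QuotientAddGroup.mk 0 := by
        rw [QuotientAddGroup.mk_zero]
        exact congrFun hq g
      obtain ⟨c, hc⟩ := un2_mk_eq e1
      rw [sub_zero] at hc
      rw [← hc, ht']
    have hH : (fun g => t (f g)) = (0 : D w → ZMod p) := by
      apply hT.det w
      · refine ⟨hcoc.loc.comp t, fun g h => ?_⟩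
        apply un2Sm_inj h2 h0
        rw [hst, un2Sm_add h2, hst, ← un2Sm_fix hρ h2 hf, hst]
        exact hcoc.mul g h
      · intro i g hw hg
        apply un2Sm_inj h2 h0
        rw [hst, ht i g hw hg, un2Sm_zero]
      · intro j g hw hg
        apply un2Sm_inj h2 h0
        rw [hst, he j g hw hg, un2Sm_zero]
    funext g
    rw [← hst g, show t (f g) = 0 from congrFun hH g, un2Sm_zero]
    rfl

theorem tUni2 (hFix : S_Fix) (hUniF : S_UniF) : S_Uni2 := by
  intro p _ G _ _ _ S d ω D T hω hH2 hT M _ _ r hM ρ hρ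
  refine ⟨fun v hv c => ?_, fun w f hf h1 h2 => ?_⟩
  · exact hUniF p G S T.I (Fin (d + 1)) ω (fun i => some (T.w i)) T.t T.y hω hH2 hT.conv hT.ue
      M r hM ρ hρ v hv c
  · exact un2_det hFix p G S d ω D T hω hT r M hM ρ hρ w f hf h1 h2

end Pool.Agent.MP72P
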