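import Pool.Agent.Lib.MP_72e2e6_nt.P3.A2.Spec

/-!
# MP_72e2e6_nt, theorem T3p, part A2: unique existence of pairs with finitely supported tests
-/

namespace Pool.Agent.MP72P

open Finset

private theorem uniLcPi {G M : Type} [TopologicalSpace G] [Finite M] {f : G → M → M}
    (h : ∀ x, IsLocallyConstant fun g => f g x) : IsLocallyConstant f := by
  rw [IsLocallyConstant.iff_eventually_eq]
  intro g
  have h1 : ∀ x, ∀ᶠ g' in nhds g, f g' x = f g x := fun x =>
    (IsLocallyConstant.iff_eventually_eq _).1 (h x) g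
  have h2 := Filter.eventually_all.2 h1
  filter_upwards [h2] with g' hg'
  funext x
  exact hg' x

private theorem uniLcComp {A B C : Type} [TopologicalSpace A] [TopologicalSpace B] {f : B → C}
    (hf : IsLocallyConstant f) {k : A → B} (hk : Continuous k) :
    IsLocallyConstant fun a => f (k a) := hf.comp_continuous hk

private theorem uniLc2 {A B C D : Type} [TopologicalSpace A] {f : A → B} {g : A → C}
    (hf : IsLocallyConstant f) (hg : IsLocallyConstant g) (F : B → C → D) :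
    IsLocallyConstant fun a => F (f a) (g a) := hf.comp₂ hg F

section

variable {p : ℕ} [Fact p.Prime] {G M : Type} [Group G] [TopologicalSpace G] [AddCommGroup M]
  {ω : G → ZMod p}

/-- The multiples of an element of order `p`. -/
private def uniSm (m₁ : M) (c : ZMod p) : M := c.val • m₁

private theorem uniSm_nat {m₁ : M} (h2 : p • m₁ = 0) (n : ℕ) :
    uniSm m₁ (n : ZMod p) = n • m₁ := by
  unfold uniSm
  rw [ZMod.val_natCast]
  conv_rhs => rw [← Nat.div_add_mod n p]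
  rw [add_nsmul, mul_nsmul, h2, nsmul_zero, zero_add]

private theorem uniSm_zero (m₁ : M) : uniSm m₁ (0 : ZMod p) = 0 := by
  unfold uniSm
  rw [ZMod.val_zero, zero_nsmul]

private theorem uniSm_add {m₁ : M} (h2 : p • m₁ = 0) (c d : ZMod p) :
    uniSm m₁ (c + d) = uniSm m₁ c + uniSm m₁ d := by
  have e : c + d = ((c.val + d.val : ℕ) : ZMod p) := by
    push_cast
    rw [ZMod.natCast_zmod_val, ZMod.natCast_zmod_val]
  rw [e, uniSm_nat h2, add_nsmul]
  rfl

private theorem uniSm_mul {m₁ : M} (h2 : p • m₁ = 0) (c d : ZMod p) :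
    uniSm m₁ (c * d) = d.val • (c.val • m₁) := by
  have e : c * d = ((c.val * d.val : ℕ) : ZMod p) := by
    push_cast
    rw [ZMod.natCast_zmod_val, ZMod.natCast_zmod_val]
  rw [e, uniSm_nat h2, mul_comm, ← mul_nsmul']

private theorem uniSm_inj {m₁ : M} (h2 : p • m₁ = 0) (h0 : m₁ ≠ 0) {c d : ZMod p}
    (h : uniSm m₁ c = uniSm m₁ d) : c = d := by
  have h1 : uniSm m₁ (c - d) + uniSm m₁ d = uniSm m₁ c := by
    rw [← uniSm_add h2, sub_add_cancel]
  rw [h, add_eq_right] at h1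
  have h3 : addOrderOf m₁ = p := addOrderOf_eq_prime h2 h0
  have h4 : addOrderOf m₁ ∣ (c - d).val := addOrderOf_dvd_iff_nsmul_eq_zero.2 h1
  rw [h3] at h4
  have h5 : (c - d).val = 0 := Nat.eq_zero_of_dvd_of_lt h4 (ZMod.val_lt _)
  rw [ZMod.val_eq_zero] at h5
  exact sub_eq_zero.1 h5

omit [Fact p.Prime] in
private theorem rho_zero {ρ : G → M → M} (hρ : ActP p ω ρ) (g : G) : ρ g 0 = 0 := by
  have := hρ.add g 0 0
  rw [add_zero] at this
  exact left_eq_add.1 this

omit [Fact p.Prime] in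
private theorem rho_nsmul {ρ : G → M → M} (hρ : ActP p ω ρ) (g : G) (n : ℕ) (x : M) :
    ρ g (n • x) = n • ρ g x := by
  induction n with
  | zero => rw [zero_nsmul, zero_nsmul, rho_zero hρ]
  | succ n ih => rw [succ_nsmul, succ_nsmul, hρ.add, ih]

omit [Fact p.Prime] in
private theorem rho_neg {ρ : G → M → M} (hρ : ActP p ω ρ) (g : G) (x : M) :
    ρ g (-x) = -ρ g x := by
  have := hρ.add g (-x) x
  rw [neg_add_cancel, rho_zero hρ] at this
  exact (neg_eq_of_add_eq_zero_left this.symm).symm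

omit [Fact p.Prime] in
private theorem rho_sub {ρ : G → M → M} (hρ : ActP p ω ρ) (g : G) (x y : M) :
    ρ g (x - y) = ρ g x - ρ g y := by
  rw [sub_eq_add_neg, hρ.add, rho_neg hρ, sub_eq_add_neg]

private theorem uniSm_fix {ρ : G → M → M} (hρ : ActP p ω ρ) {m₁ : M} (h2 : p • m₁ = 0)
    (hf : ∀ g, ρ g m₁ = (ω g).val • m₁) (g : G) (c : ZMod p) :
    ρ g (uniSm m₁ c) = uniSm m₁ (ω g * c) := by
  rw [uniSm_mul h2, ← hf]
  exact rho_nsmul hρ g _ _

/-- The subgroup of order `p`. -/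
private def uniN {m₁ : M} (h2 : p • m₁ = 0) : AddSubgroup M :=
  AddMonoidHom.range (AddMonoidHom.mk' (uniSm (p := p) m₁) (uniSm_add h2))

private theorem mem_uniN {m₁ : M} {h2 : p • m₁ = 0} {x : M} :
    x ∈ uniN h2 ↔ ∃ c : ZMod p, uniSm m₁ c = x := Iff.rfl

private theorem uniN_card {m₁ : M} {h2 : p • m₁ = 0} (h0 : m₁ ≠ 0) :
    Nat.card (uniN h2) = p := by
  have h : Function.Injective (AddMonoidHom.mk' (uniSm (p := p) m₁) (uniSm_add h2)) :=
    fun c d h => uniSm_inj h2 h0 h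
  have e := Nat.card_congr (AddMonoidHom.ofInjective h).toEquiv
  rw [Nat.card_zmod] at e
  exact e.symm

/-- The induced operators. -/
private def uniQ {ρ : G → M → M} (hρ : ActP p ω ρ) {m₁ : M} (h2 : p • m₁ = 0)
    (hf : ∀ g, ρ g m₁ = (ω g).val • m₁) (g : G) : M ⧸ uniN h2 → M ⧸ uniN h2 :=
  QuotientAddGroup.map (uniN h2) (uniN h2) (AddMonoidHom.mk' (ρ g) (hρ.add g)) (by
    rintro x ⟨c, rfl⟩
    exact ⟨ω g * c, (uniSm_fix hρ h2 hf g c).symm⟩)

private theorem uniQ_mk {ρ : G → M → M} (hρ : ActP p ω ρ) {m₁ : M} (h2 : p • m₁ = 0)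
    (hf : ∀ g, ρ g m₁ = (ω g).val • m₁) (g : G) (x : M) :
    uniQ hρ h2 hf g (QuotientAddGroup.mk x) = QuotientAddGroup.mk (ρ g x) := rfl

private theorem uniQ_act {ρ : G → M → M} (hρ : ActP p ω ρ) {m₁ : M} (h2 : p • m₁ = 0)
    (hf : ∀ g, ρ g m₁ = (ω g).val • m₁) : ActP p ω (uniQ hρ h2 hf) := by
  constructor
  · intro g x y
    obtain ⟨x, rfl⟩ := QuotientAddGroup.mk_surjective x
    obtain ⟨y, rfl⟩ := QuotientAddGroup.mk_surjective y
    rw [← QuotientAddGroup.mk_add, uniQ_mk, uniQ_mk, uniQ_mk, hρ.add, QuotientAddGroup.mk_add]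
  · intro x
    obtain ⟨x, rfl⟩ := QuotientAddGroup.mk_surjective x
    rw [uniQ_mk, hρ.one]
  · intro g h x
    obtain ⟨x, rfl⟩ := QuotientAddGroup.mk_surjective x
    rw [uniQ_mk, uniQ_mk, uniQ_mk, hρ.mul]
  · intro x
    obtain ⟨x, rfl⟩ := QuotientAddGroup.mk_surjective x
    exact (hρ.loc x).comp (QuotientAddGroup.mk : M → M ⧸ uniN h2)
  · intro g
    obtain ⟨k, hk⟩ := hρ.uni g
    refine ⟨k, fun x => ?_⟩
    obtain ⟨x, rfl⟩ := QuotientAddGroup.mk_surjective x
    rw [uniQ_mk, hk]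
    exact map_nsmul (QuotientAddGroup.mk' (uniN h2)) _ x

private theorem mk_eq {m₁ : M} {h2 : p • m₁ = 0} {x y : M}
    (h : (QuotientAddGroup.mk x : M ⧸ uniN h2) = QuotientAddGroup.mk y) :
    ∃ c : ZMod p, uniSm m₁ c = x - y := by
  have h1 := (QuotientAddGroup.eq (s := uniN h2)).1 h.symm
  rw [neg_add_eq_sub] at h1
  exact mem_uniN.1 h1

private theorem uniSm_sub {m₁ : M} (h2 : p • m₁ = 0) (c d : ZMod p) :
    uniSm m₁ (c - d) = uniSm m₁ c - uniSm m₁ d := by
  have h1 : uniSm m₁ (c - d) + uniSm m₁ d = uniSm m₁ c := by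
    rw [← uniSm_add h2, sub_add_cancel]
  rw [← h1]
  abel

omit [Fact p.Prime] in
private theorem psO_sub {S : Type} {ρ : G → M → M} (hρ : ActP p ω ρ) (z z' : (G → M) × (S → M))
    (o : Option S) (g : G) : psO ρ (z - z') o g = psO ρ z o g - psO ρ z' o g := by
  unfold psO
  cases o with
  | none =>
    show z.1 g - z'.1 g - 0 = _
    simp
  | some s =>
    show z.1 g - z'.1 g - (z.2 s - z'.2 s - ρ g (z.2 s - z'.2 s)) =
      z.1 g - (z.2 s - ρ g (z.2 s)) - (z'.1 g - (z'.2 s - ρ g (z'.2 s)))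
    rw [rho_sub hρ]
    abel

private theorem psO_sm {S : Type} {ρ : G → M → M} (hρ : ActP p ω ρ) {m₁ : M} (h2 : p • m₁ = 0)
    (hf : ∀ g, ρ g m₁ = (ω g).val • m₁) (z : (G → ZMod p) × (S → ZMod p)) (o : Option S) (g : G) :
    psO ρ ((fun g => uniSm m₁ (z.1 g), fun s => uniSm m₁ (z.2 s)) : (G → M) × (S → M)) o g =
      uniSm m₁ (psO (fun g (x : ZMod p) => ω g * x) z o g) := by
  unfold psO
  cases o with
  | none =>
    show uniSm m₁ (z.1 g) - 0 = uniSm m₁ (z.1 g - 0)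
    rw [sub_zero, sub_zero]
  | some s =>
    show uniSm m₁ (z.1 g) - (uniSm m₁ (z.2 s) - ρ g (uniSm m₁ (z.2 s))) =
      uniSm m₁ (z.1 g - (z.2 s - ω g * z.2 s))
    rw [uniSm_sub h2, uniSm_sub h2, uniSm_fix hρ h2 hf]

private theorem psO_mk {S : Type} {ρ : G → M → M} (hρ : ActP p ω ρ) {m₁ : M} (h2 : p • m₁ = 0)
    (hf : ∀ g, ρ g m₁ = (ω g).val • m₁) (z : (G → M) × (S → M)) (o : Option S) (g : G) :
    psO (uniQ hρ h2 hf) ((fun g => QuotientAddGroup.mk (z.1 g), fun s =>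
      QuotientAddGroup.mk (z.2 s)) : (G → M ⧸ uniN h2) × (S → M ⧸ uniN h2)) o g =
      QuotientAddGroup.mk (psO ρ z o g) := by
  unfold psO
  cases o with
  | none =>
    show (QuotientAddGroup.mk (z.1 g) : M ⧸ uniN h2) - 0 = QuotientAddGroup.mk (z.1 g - 0)
    rw [sub_zero, sub_zero]
  | some s =>
    show (QuotientAddGroup.mk (z.1 g) : M ⧸ uniN h2) - (QuotientAddGroup.mk (z.2 s) -
      uniQ hρ h2 hf g (QuotientAddGroup.mk (z.2 s))) =
      QuotientAddGroup.mk (z.1 g - (z.2 s - ρ g (z.2 s)))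
    rw [QuotientAddGroup.mk_sub, QuotientAddGroup.mk_sub, uniQ_mk]

private theorem elim1 {A B C D : Type} (F : C → D) (a : A → C) (b : B → C) (q : A ⊕ B) :
    Sum.elim (fun x => F (a x)) (fun x => F (b x)) q = F (Sum.elim a b q) := by
  cases q <;> rfl

private theorem elim2 {A B C C' D : Type} (F : C → C' → D) (a : A → C) (b : B → C) (a' : A → C')
    (b' : B → C') (q : A ⊕ B) :
    Sum.elim (fun x => F (a x) (a' x)) (fun x => F (b x) (b' x)) q =
      F (Sum.elim a b q) (Sum.elim a' b' q) := by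
  cases q <;> rfl

end

private theorem uniAux (hFix : S_Fix) (p : ℕ) [Fact p.Prime] (G : Type) [Group G]
    [TopologicalSpace G] [IsTopologicalGroup G] (S I Y : Type) (ω : G → ZMod p)
    (o : I → Option S) (t : I → G) (y : Y → G ⊕ S) (hω : ChO p ω) (hH : H2Z p ω)
    (hN : ∀ N : Set G, IsOpen N → 1 ∈ N → {i | t i ∉ N}.Finite)
    (hU : ∀ v : I → ZMod p, {i | v i ≠ 0}.Finite → ∀ c : Y → ZMod p,
      ∃! z : (G → ZMod p) × (S → ZMod p), Coc (fun g (x : ZMod p) => ω g * x) z.1 ∧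
        (∀ i, psO (fun g (x : ZMod p) => ω g * x) z (o i) (t i) = v i) ∧
        ∀ k, Sum.elim z.1 z.2 (y k) = c k) :
    ∀ (r : ℕ) (M : Type) [AddCommGroup M] [Finite M], Nat.card M = p ^ r →
      ∀ ρ : G → M → M, ActP p ω ρ → ∀ v : I → M, {i | v i ≠ 0}.Finite → ∀ c : Y → M,
      ∃! z : (G → M) × (S → M), Coc ρ z.1 ∧ (∀ i, psO ρ z (o i) (t i) = v i) ∧
        ∀ k, Sum.elim z.1 z.2 (y k) = c k := by
  intro r
  induction r with
  | zero =>
    intro M _ _ hM ρ hρ v hv c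
    rw [pow_zero, Nat.card_eq_one_iff_unique] at hM
    obtain ⟨hs, -⟩ := hM
    refine ⟨0, ⟨⟨IsLocallyConstant.const 0, fun g h => Subsingleton.elim _ _⟩,
      fun i => Subsingleton.elim _ _, fun k => Subsingleton.elim _ _⟩, fun Z _ => ?_⟩
    exact Prod.ext (funext fun g => Subsingleton.elim _ _) (funext fun g => Subsingleton.elim _ _)
  | succ r ih =>
    intro M _ _ hM ρ hρ v hv c
    have hnt : Nontrivial M := by
      rw [← Finite.one_lt_card_iff_nontrivial, hM]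
      exact Nat.one_lt_pow (Nat.succ_ne_zero r) (Fact.out : p.Prime).one_lt
    obtain ⟨m₁, h0, h2, hf⟩ := hFix p G M ω ρ hω hρ (r + 1) hM hnt
    have hcard : Nat.card (M ⧸ uniN h2) = p ^ r := by
      have e := AddSubgroup.card_eq_card_quotient_mul_card_addSubgroup (uniN h2)
      rw [uniN_card h0, hM, pow_succ] at e
      exact (Nat.eq_of_mul_eq_mul_right (Fact.out : p.Prime).pos e).symm
    obtain ⟨Z2, ⟨hZ2c, hZ2t, hZ2k⟩, hZ2u⟩ := ih (M ⧸ uniN h2) hcard (uniQ hρ h2 hf)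
      (uniQ_act hρ h2 hf) (fun i => QuotientAddGroup.mk (v i))
      (hv.subset fun i hi h => hi (by
        show (QuotientAddGroup.mk (v i) : M ⧸ uniN h2) = 0
        rw [h, QuotientAddGroup.mk_zero]))
      (fun k => QuotientAddGroup.mk (c k))
    -- coordinates of the elements of `N`
    obtain ⟨tt, ht⟩ : ∃ tt : M → ZMod p, ∀ c, tt (uniSm m₁ c) = c :=
      ⟨Function.invFun (uniSm m₁), fun c =>
        Function.leftInverse_invFun (fun c d h => uniSm_inj h2 h0 h) c⟩
    have ht0 : tt 0 = 0 := by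
      have := ht 0
      rwa [uniSm_zero] at this
    have hst : ∀ x, (∃ c : ZMod p, uniSm m₁ c = x) → uniSm m₁ (tt x) = x := by
      rintro _ ⟨c, rfl⟩
      rw [ht]
    have hloc : IsLocallyConstant ρ := uniLcPi hρ.loc
    -- uniqueness
    have huniq : ∀ z z' : (G → M) × (S → M), (Coc ρ z.1 ∧ (∀ i, psO ρ z (o i) (t i) = v i) ∧
        ∀ k, Sum.elim z.1 z.2 (y k) = c k) → (Coc ρ z'.1 ∧ (∀ i, psO ρ z' (o i) (t i) = v i) ∧
        ∀ k, Sum.elim z'.1 z'.2 (y k) = c k) → z = z' := by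
      rintro z z' ⟨h1, h3, h4⟩ ⟨h1', h3', h4'⟩
      have hq : ∀ w : (G → M) × (S → M), (Coc ρ w.1 ∧ (∀ i, psO ρ w (o i) (t i) = v i) ∧
          ∀ k, Sum.elim w.1 w.2 (y k) = c k) →
          ((fun g => QuotientAddGroup.mk (w.1 g), fun s => QuotientAddGroup.mk (w.2 s)) :
            (G → M ⧸ uniN h2) × (S → M ⧸ uniN h2)) = Z2 := by
        rintro w ⟨y1, y2, y3⟩
        apply hZ2u
        refine ⟨⟨y1.loc.comp _, fun g h => ?_⟩, fun i => ?_, fun k => ?_⟩
        · show (QuotientAddGroup.mk (w.1 (g * h)) : M ⧸ uniN h2) = QuotientAddGroup.mk (w.1 g) +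
            uniQ hρ h2 hf g (QuotientAddGroup.mk (w.1 h))
          rw [y1.mul, uniQ_mk, QuotientAddGroup.mk_add]
        · rw [psO_mk, y2]
        · rw [← y3 k]
          exact elim1 (QuotientAddGroup.mk : M → M ⧸ uniN h2) w.1 w.2 (y k)
      have e1 := hq z ⟨h1, h3, h4⟩
      have e2 := hq z' ⟨h1', h3', h4'⟩
      have hd1 : ∀ g, uniSm m₁ (tt (z.1 g - z'.1 g)) = z.1 g - z'.1 g := by
        intro g
        apply hst
        apply mk_eq (h2 := h2)
        exact congrFun (congrArg Prod.fst (e1.trans e2.symm)) g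
      have hd2 : ∀ s, uniSm m₁ (tt (z.2 s - z'.2 s)) = z.2 s - z'.2 s := by
        intro s
        apply hst
        apply mk_eq (h2 := h2)
        exact congrFun (congrArg Prod.snd (e1.trans e2.symm)) s
      obtain ⟨w, hw1, hw2⟩ := hU (fun _ => 0) (by simp) (fun _ => 0)
      have e3 : ((fun g => tt (z.1 g - z'.1 g), fun s => tt (z.2 s - z'.2 s)) :
          (G → ZMod p) × (S → ZMod p)) = w := by
        apply hw2
        refine ⟨⟨uniLc2 h1.loc h1'.loc fun x y => tt (x - y), fun a b => ?_⟩, fun i => ?_,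
          fun k => ?_⟩
        · apply uniSm_inj h2 h0
          rw [uniSm_add h2, ← uniSm_fix hρ h2 hf, hd1, hd1, hd1, h1.mul, h1'.mul, rho_sub hρ]
          abel
        · apply uniSm_inj h2 h0
          rw [← psO_sm hρ h2 hf, uniSm_zero]
          have e4 : ((fun g => uniSm m₁ (tt (z.1 g - z'.1 g)), fun s =>
              uniSm m₁ (tt (z.2 s - z'.2 s))) : (G → M) × (S → M)) = z - z' :=
            Prod.ext (funext hd1) (funext hd2)
          rw [e4, psO_sub hρ, h3, h3', sub_self]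
        · refine (elim2 (fun x y => tt (x - y)) z.1 z.2 z'.1 z'.2 (y k)).trans ?_
          rw [h4, h4', sub_self, ht0]
      have e5 : (0 : (G → ZMod p) × (S → ZMod p)) = w := by
        apply hw2
        refine ⟨⟨IsLocallyConstant.const 0, fun _ _ => ?_⟩, fun i => ?_, fun k => ?_⟩
        · show (0 : ZMod p) = 0 + ω _ * 0
          rw [mul_zero, add_zero]
        · unfold psO
          cases o i with
          | none => exact sub_self _
          | some s =>
            show (0 : ZMod p) - (0 - ω (t i) * 0) = 0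
            simp
        · cases y k <;> rfl
      have e6 := e3.trans e5.symm
      refine Prod.ext (funext fun g => ?_) (funext fun s => ?_)
      · have e7 : tt (z.1 g - z'.1 g) = 0 := congrFun (congrArg Prod.fst e6) g
        have e8 := hd1 g
        rw [e7, uniSm_zero] at e8
        exact sub_eq_zero.1 e8.symm
      · have e7 : tt (z.2 s - z'.2 s) = 0 := congrFun (congrArg Prod.snd e6) s
        have e8 := hd2 s
        rw [e7, uniSm_zero] at e8
        exact sub_eq_zero.1 e8.symm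
    -- existence
    obtain ⟨s, hs⟩ : ∃ s : M ⧸ uniN h2 → M, ∀ x, (QuotientAddGroup.mk (s x) : M ⧸ uniN h2) = x :=
      ⟨Function.surjInv QuotientAddGroup.mk_surjective,
        Function.surjInv_eq QuotientAddGroup.mk_surjective⟩
    set Z1 : G → M := fun g => s (Z2.1 g) with hZ1
    have hZ1l : IsLocallyConstant Z1 := hZ2c.loc.comp s
    have hm : ∀ g h, uniSm m₁ (tt (Z1 g + ρ g (Z1 h) - Z1 (g * h))) =
        Z1 g + ρ g (Z1 h) - Z1 (g * h) := by
      intro g h
      apply hst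
      apply mk_eq (h2 := h2)
      rw [QuotientAddGroup.mk_add, ← uniQ_mk hρ h2 hf, hs, hs, hs, hZ2c.mul]
    obtain ⟨b, hbl, hb⟩ := hH (fun g h => tt (Z1 g + ρ g (Z1 h) - Z1 (g * h))) (by
      have e1 : IsLocallyConstant fun p : G × G => Z1 p.1 := uniLcComp hZ1l continuous_fst
      have e2 : IsLocallyConstant fun p : G × G => Z1 p.2 := uniLcComp hZ1l continuous_snd
      have e3 : IsLocallyConstant fun p : G × G => Z1 (p.1 * p.2) :=
        uniLcComp hZ1l continuous_mul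
      have e4 : IsLocallyConstant fun p : G × G => ρ p.1 := uniLcComp hloc continuous_fst
      exact uniLc2 (uniLc2 e1 (uniLc2 e4 e2 fun r x => r x) fun x y => x + y) e3
        fun x y => tt (x - y)) (by
      intro a b d
      apply uniSm_inj h2 h0
      rw [uniSm_sub h2, uniSm_add h2, uniSm_sub h2, uniSm_zero, ← uniSm_fix hρ h2 hf, hm b d,
        hm (a * b) d, hm a (b * d), hm a b, rho_sub hρ, hρ.add, hρ.mul, mul_assoc]
      abel)
    have hZ3 : ∀ g h, Z1 (g * h) - uniSm m₁ (b (g * h)) =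
        (Z1 g - uniSm m₁ (b g)) + ρ g (Z1 h - uniSm m₁ (b h)) := by
      intro g h
      have e1 := hm g h
      rw [hb, uniSm_sub h2, uniSm_add h2] at e1
      rw [rho_sub hρ, uniSm_fix hρ h2 hf]
      have e2 : Z1 (g * h) = Z1 g + ρ g (Z1 h) -
          (uniSm m₁ (b g) + uniSm m₁ (ω g * b h) - uniSm m₁ (b (g * h))) := by
        rw [e1]
        abel
      rw [e2]
      abel
    obtain ⟨f₁, hf₁⟩ : ∃ f₁ : G → M, ∀ g, f₁ g = Z1 g - uniSm m₁ (b g) := ⟨_, fun _ => rfl⟩
    have hf₁c : Coc ρ f₁ := by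
      have e : f₁ = fun g => Z1 g - uniSm m₁ (b g) := funext hf₁
      rw [e]
      exact ⟨uniLc2 hZ1l hbl fun x y => x - uniSm m₁ y, hZ3⟩
    have hf₁q : ∀ g, (QuotientAddGroup.mk (f₁ g) : M ⧸ uniN h2) = Z2.1 g := by
      intro g
      have e : (QuotientAddGroup.mk (uniSm m₁ (b g)) : M ⧸ uniN h2) = 0 := by
        rw [QuotientAddGroup.eq_zero_iff]
        exact ⟨b g, rfl⟩
      rw [hf₁, QuotientAddGroup.mk_sub, e, sub_zero, hs]
    obtain ⟨Z, hZ⟩ : ∃ Z : (G → M) × (S → M), Z = (f₁, fun x => s (Z2.2 x)) := ⟨_, rfl⟩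
    have hZq : ((fun g => QuotientAddGroup.mk (Z.1 g), fun s => QuotientAddGroup.mk (Z.2 s)) :
        (G → M ⧸ uniN h2) × (S → M ⧸ uniN h2)) = Z2 := by
      rw [hZ]
      exact Prod.ext (funext hf₁q) (funext fun x => hs _)
    have hZc : Coc ρ Z.1 := by
      rw [hZ]
      exact hf₁c
    have htest : ∀ i, uniSm m₁ (tt (psO ρ Z (o i) (t i) - v i)) =
        psO ρ Z (o i) (t i) - v i := by
      intro i
      apply hst
      apply mk_eq (h2 := h2)
      rw [← psO_mk hρ h2 hf, hZq, hZ2t]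
    have hco : ∀ k, uniSm m₁ (tt (Sum.elim Z.1 Z.2 (y k) - c k)) =
        Sum.elim Z.1 Z.2 (y k) - c k := by
      intro k
      apply hst
      apply mk_eq (h2 := h2)
      rw [← hZ2k k, ← hZq]
      exact (elim1 (QuotientAddGroup.mk : M → M ⧸ uniN h2) Z.1 Z.2 (y k)).symm
    have hf1 : Z.1 1 = 0 := by
      have e := hZc.mul 1 1
      rw [mul_one, hρ.one] at e
      exact left_eq_add.1 e
    have hfin : {i | tt (psO ρ Z (o i) (t i) - v i) ≠ 0}.Finite := by
      have e1 : IsOpen {g : G | Z.1 g = 0 ∧ ρ g = ρ 1} :=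
        (hZc.loc.isOpen_fiber 0).inter (hloc.isOpen_fiber (ρ 1))
      refine ((hN _ e1 ⟨hf1, rfl⟩).union hv).subset fun i hi => ?_
      by_contra hcon
      rw [Set.mem_union, not_or] at hcon
      obtain ⟨hc1, hc2⟩ := hcon
      have hc1' : Z.1 (t i) = 0 ∧ ρ (t i) = ρ 1 := not_not.1 hc1
      have hc2' : v i = 0 := not_not.1 hc2
      apply hi
      have e3 : psO ρ Z (o i) (t i) = 0 := by
        unfold psO
        rw [hc1'.1, hc1'.2]
        cases o i with
        | none => exact sub_self _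
        | some x =>
          show 0 - (Z.2 x - ρ 1 (Z.2 x)) = 0
          rw [hρ.one, sub_self, sub_self]
      rw [e3, hc2', sub_self, ht0]
    obtain ⟨w, ⟨hw1, hw2, hw3⟩, -⟩ := hU (fun i => tt (psO ρ Z (o i) (t i) - v i)) hfin
      (fun k => tt (Sum.elim Z.1 Z.2 (y k) - c k))
    obtain ⟨W, hW⟩ : ∃ W : (G → M) × (S → M), W = (fun g => uniSm m₁ (w.1 g), fun x =>
      uniSm m₁ (w.2 x)) := ⟨_, rfl⟩
    have hsol : Coc ρ (Z - W).1 ∧ (∀ i, psO ρ (Z - W) (o i) (t i) = v i) ∧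
        ∀ k, Sum.elim (Z - W).1 (Z - W).2 (y k) = c k := by
      refine ⟨⟨?_, fun g h => ?_⟩, fun i => ?_, fun k => ?_⟩
      · rw [hW]
        exact uniLc2 hZc.loc hw1.loc fun x y => x - uniSm m₁ y
      · rw [hW]
        show Z.1 (g * h) - uniSm m₁ (w.1 (g * h)) =
          Z.1 g - uniSm m₁ (w.1 g) + ρ g (Z.1 h - uniSm m₁ (w.1 h))
        rw [hZc.mul, hw1.mul, uniSm_add h2, rho_sub hρ, uniSm_fix hρ h2 hf]
        abel
      · rw [psO_sub hρ, hW, psO_sm hρ h2 hf, hw2, htest]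
        abel
      · rw [hW]
        refine (elim2 (fun x y => x - uniSm m₁ y) Z.1 Z.2 w.1 w.2 (y k)).trans ?_
        rw [hw3, hco]
        abel
    exact ⟨_, hsol, fun Z' hZ' => huniq Z' _ hZ' hsol⟩

theorem tUniF (h1 : S_Fix) : S_UniF := by
  intro p _ G _ _ _ S I Y ω o t y hω hH hN hU M _ _ r hM ρ hρ v hv c
  exact uniAux h1 p G S I Y ω o t y hω hH hN hU r M hM ρ hρ v hv c

end Pool.Agent.MP72P
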