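import Pool.Agent.Lib.MP_72e2e6_nt.P3.A2.Spec

/-!
# MP_72e2e6_nt, theorem T3p, part A2: the count for the reciprocity side (Us2)
-/

namespace Pool.Agent.MP72P

open Finset

theorem tUs2 (h1 : S_Lrb) (h2 : S_Lin2) (h3 : S_Dual2) : S_Us2 := by
  classical
  intro p _ G _ _ _ S d ω D T hω hH hT n Λ _ π hΛ χ hχ N _ hN
  have hfin : Finite Λ := (h1 p n Λ π hΛ).1
  obtain ⟨-, -, hadd, -, -, -, -, hbij, -⟩ := h2 p G S d ω D T hω hH hT n Λ π hΛ χ hχ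
  let T' : (Fin (d + 1) → Λ) →+ (Fin d → Λ) := AddMonoidHom.mk' (fun y => Ts T (rL χ) y)
    fun y y' => funext fun j => hadd y y' j
  have hC : ∀ c : Fin d → Λ, N • c = 0 := by
    intro c
    funext j
    rw [Pi.smul_apply, Pi.zero_apply, nsmul_eq_mul]
    exact hN (c j)
  obtain ⟨h4, h5⟩ := h3 N (Fin (d + 1) → Λ) (Fin d → Λ) T' hC
  refine ⟨h4, ?_⟩
  have h6 : {b : Fin (d + 1) → Λ | T' b = 0} = {y | ∀ j, Ts T (rL χ) y j = 0} := by
    ext y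
    exact ⟨fun h j => congrFun h j, fun h => funext h⟩
  have h7 : (Ker (rL χ) D).ncard = {b : Fin (d + 1) → Λ | T' b = 0}.ncard := by
    rw [h6, ← hbij.image_eq, hbij.injOn.ncard_image]
  have h8 : Nat.card (Fin (d + 1) → Λ) = (p ^ n) ^ d * p ^ n := by
    rw [Nat.card_fun, Nat.card_fin, hΛ.card, pow_succ]
  have h9 : Nat.card (Fin d → Λ) = (p ^ n) ^ d := by
    rw [Nat.card_fun, Nat.card_fin, hΛ.card]
  have hp : 0 < (p ^ n) ^ d := pow_pos (pow_pos (Fact.out : p.Prime).pos _) _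
  rw [h7]
  have h10 : {θ : (Fin d → Λ) →+ ZMod N | ∀ b, θ (T' b) = 0}.ncard * ((p ^ n) ^ d * p ^ n) =
      (p ^ n) ^ d * {b : Fin (d + 1) → Λ | T' b = 0}.ncard := by
    rw [← h8, ← h9]
    exact h5
  have h11 : (p ^ n) ^ d * ({θ : (Fin d → Λ) →+ ZMod N | ∀ b, θ (T' b) = 0}.ncard * p ^ n) =
      (p ^ n) ^ d * {b : Fin (d + 1) → Λ | T' b = 0}.ncard := by
    rw [← h10]
    ring
  exact Nat.eq_of_mul_eq_mul_left hp h11

end Pool.Agent.MP72P
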