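import Pool.Agent.Lib.MP_72e2e6_nt.P3.A2.Spec

/-!
# MP_72e2e6_nt, theorem T3p, part A2: count of the locally trivial classes (Vs2)
-/

namespace Pool.Agent.MP72P

open Finset

theorem tVs2 : S_Vs2 := by
  classical
  intro G _ _ _ S _ D M _ _ ρ hadd hmul hloc hfin C hC hinj
  have h0 : ∀ g, ρ g 0 = 0 := by
    intro g
    have h1 := hadd g 0 0
    rw [add_zero] at h1
    exact left_eq_add.1 h1
  have hsub : ∀ g x y, ρ g (x - y) = ρ g x - ρ g y := by
    intro g x y
    rw [eq_sub_iff_add_eq, ← hadd, sub_add_cancel]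
  have hch : ∀ c : C, ∃ a : S → M, ∀ w, ∀ g ∈ D w, (c : G → M) g = a w - ρ g (a w) := by
    intro c
    have h1 := (hC c c.2).2
    choose a ha using h1
    exact ⟨a, ha⟩
  choose a ha using hch
  let Φ : C × M → Ker ρ D := fun q => ⟨(fun g => (q.1 : G → M) g + (q.2 - ρ g q.2),
    fun w => a q.1 w + q.2), by
    refine ⟨⟨?_, ?_⟩, ?_⟩
    · exact ((hC q.1 q.1.2).1.loc).add ((IsLocallyConstant.const q.2).sub (hloc q.2))
    · intro g h
      show (q.1 : G → M) (g * h) + (q.2 - ρ (g * h) q.2) =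
        (q.1 : G → M) g + (q.2 - ρ g q.2) + ρ g ((q.1 : G → M) h + (q.2 - ρ h q.2))
      rw [(hC q.1 q.1.2).1.mul g h, hmul, hadd, hsub]
      abel
    · intro w g hg
      show (q.1 : G → M) g + (q.2 - ρ g q.2) - (a q.1 w + q.2 - ρ g (a q.1 w + q.2)) = 0
      rw [ha q.1 w g hg, hadd]
      abel⟩
  have hΦ : Function.Injective Φ := by
    rintro ⟨c, b⟩ ⟨c', b'⟩ h
    have h1 := congrArg Subtype.val h
    have h2 : ∀ g, (c : G → M) g + (b - ρ g b) = (c' : G → M) g + (b' - ρ g b') := fun g =>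
      congrFun (congrArg Prod.fst h1) g
    have h3 : ∀ w, a c w + b = a c' w + b' := fun w => congrFun (congrArg Prod.snd h1) w
    have h4 : c = c' := by
      apply Subtype.ext
      refine hinj c c.2 c' c'.2 ⟨b' - b, fun g => ?_⟩
      rw [hsub]
      have h5 := h2 g
      rw [← sub_eq_zero] at h5 ⊢
      rw [← h5]
      abel
    subst h4
    have h6 := h3 (Classical.arbitrary S)
    exact Prod.ext rfl (add_left_cancel h6)
  have : Finite (Ker ρ D) := hfin
  have hf : Finite (C × M) := Finite.of_injective Φ hΦ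
  have hCf : Finite C := Finite.of_injective (fun c => ((c, 0) : C × M)) fun c c' h =>
    congrArg Prod.fst h
  refine ⟨Set.toFinite C, ?_⟩
  have h7 := Nat.card_le_card_of_injective Φ hΦ
  rw [Nat.card_prod] at h7
  exact h7

end Pool.Agent.MP72P
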